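import Mathlib

/-!
# Weak convergence in the space of the continuous functions: modules W1 to W5
-/

set_option autoImplicit false

open MeasureTheory Filter Topology

namespace Pool.Agent.Zk91.SQ

noncomputable section

/-- the tent function -/
def T0 (y : ℂ) : ℝ := max 0 (1 - ‖y‖)

/-- its Fourier transform on the unit circle -/
def kp : ℝ := ∫ y : ℂ, T0 y * Real.cos y.re

/-- W1: the mean value property. Proof: `cos y.re > 0` on the support. Products of sines are
`(cos (A - B) - cos (A + B)) / 2`; the part with `sin (a1 y.re ± a2 y.im)` is odd, and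
`∫ T0 y cos (a1 y.re ± a2 y.im) = kp` by rotation (multiplication with `a1 ∓ a2 i`). -/
def S_W1 : Prop := 0 < kp ∧ ∀ a1 a2 α β : ℝ, a1 ^ 2 + a2 ^ 2 = 1 →
  ∫ y : ℂ, T0 y * (Real.sin (a1 * y.re + α) * Real.sin (a2 * y.im + β)) =
    kp * (Real.sin α * Real.sin β)

/-- W2: values and differences from the mean value property. Proof:
`kp f w = ∫ T0 (y - w) f y` over the ball of radius `R + 1`, `|T0 (y - w) - T0 (y - w')| ≤ |w - w'|`,
Cauchy-Schwarz. -/
def S_W2 : Prop := 0 < kp → ∀ R : ℝ, 0 ≤ R → ∃ C : ℝ, 0 < C ∧ ∀ f : ℂ → ℝ, Continuous f →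
  (∀ w, kp * f w = ∫ y : ℂ, T0 y * f (w + y)) → ∀ w w' : ℂ, ‖w‖ ≤ R → ‖w'‖ ≤ R →
    f w ^ 2 ≤ C * (∫ y in Metric.closedBall (0 : ℂ) (R + 1), f y ^ 2) ∧
    (f w - f w') ^ 2 ≤ C * ‖w - w'‖ ^ 2 * (∫ y in Metric.closedBall (0 : ℂ) (R + 1), f y ^ 2)

/-- the functions with the bound and the Lipschitz constant `M R` on the ball of radius `R` -/
def Kc (M : ℕ → ℝ) : Set C(ℂ, ℝ) := {f | ∀ (R : ℕ) (w w' : ℂ), ‖w‖ ≤ R → ‖w'‖ ≤ R →
  |f w| ≤ M R ∧ |f w - f w'| ≤ M R * ‖w - w'‖}

/-- W3: compactness (Arzelà-Ascoli, `ArzelaAscoli.isCompact_of_equicontinuous` or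
`ArzelaAscoli.isCompact_closure_of_isClosedEmbedding`) -/
def S_W3 : Prop := ∀ M : ℕ → ℝ, IsCompact (Kc M)

instance instMeasC : MeasurableSpace C(ℂ, ℝ) := borel C(ℂ, ℝ)

instance instBorelC : BorelSpace C(ℂ, ℝ) := ⟨rfl⟩

/-- the characteristic functions of the finite dimensional distributions -/
def chf (μ : Measure C(ℂ, ℝ)) {k : ℕ} (w : Fin k → ℂ) (t : Fin k → ℝ) : ℂ :=
  ∫ f, Complex.exp (Complex.I * ((∑ j, t j * f (w j) : ℝ) : ℂ)) ∂μ

/-- W4: the finite dimensional distributions determine the law. Proof: the characteristic function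
determines the law of `(f (w 1), ..., f (w k))` (`Measure.ext_of_charFun`); the cylinder sets are a
π-system which generates the Borel σ-algebra: `C(ℂ, ℝ)` has a countable base, and the sets
`{f | f '' K ⊆ (c, d)}` are countable unions of countable intersections of cylinder sets (or: the
sup distance on a ball is a supremum over a countable dense set). -/
def S_W4 : Prop := ∀ (μ ν : Measure C(ℂ, ℝ)), IsProbabilityMeasure μ → IsProbabilityMeasure ν →
  (∀ (k : ℕ) (w : Fin k → ℂ) (t : Fin k → ℝ), chf μ w t = chf ν w t) → μ = ν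

/-- W5 (from W4): convergence of the finite dimensional distributions and asymptotic tightness imply
weak convergence. Proof: every single law is tight (`C(ℂ, ℝ)` is Polish:
`isTightMeasureSet_singleton`), so the set of the `P j` is tight; its closure is compact
(`isCompact_closure_of_isTightMeasureSet`); every cluster point has the finite dimensional
characteristic functions `Φ`, so all are equal, and `P j` converges. -/
def S_W5 : Prop := S_W4 → ∀ (P : ℕ → Measure C(ℂ, ℝ)) (Φ : (k : ℕ) → (Fin k → ℂ) → (Fin k → ℝ) → ℂ),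
  (∀ j, IsProbabilityMeasure (P j)) →
  (∀ ε : ℝ, 0 < ε → ∃ K : Set C(ℂ, ℝ), IsCompact K ∧ ∀ᶠ j in atTop, (P j).real Kᶜ ≤ ε) →
  (∀ (k : ℕ) (w : Fin k → ℂ) (t : Fin k → ℝ), Tendsto (fun j => chf (P j) w t) atTop (𝓝 (Φ k w t))) →
  ∃ μ : Measure C(ℂ, ℝ), IsProbabilityMeasure μ ∧
    (∀ (k : ℕ) (w : Fin k → ℂ) (t : Fin k → ℝ), chf μ w t = Φ k w t) ∧
    ∀ F : C(ℂ, ℝ) → ℝ, Continuous F → (∃ B : ℝ, ∀ f, |F f| ≤ B) →
      Tendsto (fun j => ∫ f, F f ∂(P j)) atTop (𝓝 (∫ f, F f ∂μ))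

end

end Pool.Agent.Zk91.SQ
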