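import Mathlib

/-!
# The Dirichlet eigenfunctions of the square: modules B1 and B2
-/

set_option autoImplicit false

open MeasureTheory

namespace Pool.Agent.Zk91.SQ

noncomputable section

/-- the open square with side `a` -/
def Sqa (a : ℝ) : Set ℂ := {z | (0 < z.re ∧ z.re < a) ∧ 0 < z.im ∧ z.im < a}

/-- the product sine functions with mean square one -/
def md (a : ℝ) (p : ℕ × ℕ) (z : ℂ) : ℝ :=
  2 * (Real.sin (Real.pi / a * p.1 * z.re) * Real.sin (Real.pi / a * p.2 * z.im))

/-- B1: orthogonality -/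
def S_B1 : Prop := ∀ a : ℝ, 0 < a → ∀ p q : ℕ × ℕ, 0 < p.1 → 0 < p.2 → 0 < q.1 → 0 < q.2 →
  ∫ z in Sqa a, md a p z * md a q z = if p = q then a ^ 2 else 0

/-- B2: completeness. Proof: Fubini twice reduces it to the sines on `(0, a)`: for each `m ≥ 1` the
function `y ↦ ∫ f (x, y) sin (π m x / a) dx` is orthogonal to all sines, so it vanishes for almost
all `y`; hence for almost all `y` the function `f (·, y)` is orthogonal to all sines. In dimension
one: the odd extension to `(-a, a)` is orthogonal to all the Fourier monomials of the circle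
`AddCircle (2 a)` (`fourierBasis`, or `fourierCoeff` all zero implies zero in `L²`). -/
def S_B2 : Prop := ∀ a : ℝ, 0 < a → ∀ f : ℂ → ℝ, MemLp f 2 (volume.restrict (Sqa a)) →
  (∀ p : ℕ × ℕ, 0 < p.1 → 0 < p.2 → ∫ z in Sqa a, f z * md a p z = 0) →
    f =ᵐ[volume.restrict (Sqa a)] 0

end

end Pool.Agent.Zk91.SQ
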