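import Mathlib

/-!
# Gaussian integers on circles: definitions and statements of the modules

Goal (proved from these modules by helper91): for every `k > 0`, for almost all Gaussian integers
`ξ` with `0 < |ξ|² ≤ X` the sum `A k |ξ|²` is `o` of the number of points of the circle.
-/

set_option autoImplicit false

open Filter Topology

namespace Pool.Agent.Zk91.SQ

noncomputable section

/-- the Gaussian integers -/
abbrev G := GaussianInt

/-- the angular character `(ξ / |ξ|) ^ (4 k)` (`= 0` for `ξ = 0`, `k > 0`) -/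
def psi (k : ℕ) (ξ : G) : ℂ := (GaussianInt.toComplex ξ) ^ (4 * k) / ((ξ.norm : ℤ) : ℂ) ^ (2 * k)

/-- the Gaussian integers of norm `N` -/
def circ (N : ℕ) : Finset G :=
  ((Finset.Icc (-(N : ℤ)) N ×ˢ Finset.Icc (-(N : ℤ)) N).image (fun p => (⟨p.1, p.2⟩ : G))).filter
    fun ξ => ξ.norm = (N : ℤ)

theorem norm_eq (ξ : G) : ξ.norm = ξ.re * ξ.re + ξ.im * ξ.im := by
  rw [Zsqrtd.norm_def]
  ring

theorem mem_circ (N : ℕ) (ξ : G) : ξ ∈ circ N ↔ ξ.norm = (N : ℤ) := by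
  unfold circ
  rw [Finset.mem_filter]
  refine ⟨fun h => h.2, fun h => ⟨?_, h⟩⟩
  rw [norm_eq] at h
  rw [Finset.mem_image]
  refine ⟨(ξ.re, ξ.im), ?_, rfl⟩
  rw [Finset.mem_product, Finset.mem_Icc, Finset.mem_Icc]
  have hN : (0 : ℤ) ≤ N := by positivity
  have h1 : ξ.re * ξ.re ≤ N := by nlinarith [mul_self_nonneg ξ.im]
  have h2 : ξ.im * ξ.im ≤ N := by nlinarith [mul_self_nonneg ξ.re]
  have key : ∀ x : ℤ, x * x ≤ N → -(N : ℤ) ≤ x ∧ x ≤ N := by
    intro x hx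
    constructor
    · by_contra hc
      push Not at hc
      nlinarith
    · by_contra hc
      push Not at hc
      nlinarith
  exact ⟨key _ h1, key _ h2⟩

/-- the non-zero Gaussian integers of norm at most `X` -/
def disc (X : ℕ) : Finset G := (Finset.Icc 1 X).biUnion circ

theorem mem_disc (X : ℕ) (ξ : G) : ξ ∈ disc X ↔ ξ ≠ 0 ∧ ξ.norm ≤ (X : ℤ) := by
  unfold disc
  rw [Finset.mem_biUnion]
  constructor
  · rintro ⟨N, hN, h⟩
    rw [mem_circ] at h
    rw [Finset.mem_Icc] at hN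
    refine ⟨?_, by rw [h]; exact_mod_cast hN.2⟩
    rintro rfl
    rw [Zsqrtd.norm_zero] at h
    have : N = 0 := by exact_mod_cast h.symm
    omega
  · rintro ⟨h0, h⟩
    have h1 : 0 < ξ.norm := by
      rw [norm_eq]
      rcases eq_or_ne ξ.re 0 with h2 | h2
      · rcases eq_or_ne ξ.im 0 with h3 | h3
        · exact absurd (Zsqrtd.ext h2 h3) h0
        · have := mul_self_pos.2 h3
          nlinarith [mul_self_nonneg ξ.re]
      · have := mul_self_pos.2 h2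
        nlinarith [mul_self_nonneg ξ.im]
    refine ⟨ξ.norm.toNat, ?_, ?_⟩
    · rw [Finset.mem_Icc]
      omega
    · rw [mem_circ]
      omega

/-- the angular sums over the circle of radius `√N` -/
def A (k N : ℕ) : ℂ := ∑ ξ ∈ circ N, psi k ξ

/-- the primes `1` mod `4` -/
def P1 (p : ℕ) : Prop := p.Prime ∧ p % 4 = 1

open Classical in
/-- a chosen Gaussian integer of norm `p` -/
def gp (p : ℕ) : G := if h : ∃ ξ : G, ξ.norm = (p : ℤ) then h.choose else 0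

theorem gp_norm (p : ℕ) (hp : P1 p) : (gp p).norm = (p : ℤ) := by
  classical
  have : Fact p.Prime := ⟨hp.1⟩
  obtain ⟨a, b, hab⟩ := Nat.Prime.sq_add_sq (p := p) (by rw [hp.2]; norm_num)
  have h : ∃ ξ : G, ξ.norm = (p : ℤ) := ⟨⟨a, b⟩, by
    rw [norm_eq]
    have : (p : ℤ) = (a : ℤ) ^ 2 + (b : ℤ) ^ 2 := by exact_mod_cast hab.symm
    rw [this]
    ring⟩
  unfold gp
  rw [dif_pos h]
  exact h.choose_spec

/-- `cos (4 k θ_p)` -/
def cc (k p : ℕ) : ℝ := (psi k (gp p)).re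

open Classical in
/-- the indicator of the `ξ` which the prime `gp p` divides exactly once and its conjugate does
not divide -/
def ind (p : ℕ) (ξ : G) : ℝ := if gp p ∣ ξ ∧ ¬ (gp p ^ 2 ∣ ξ) ∧ ¬ (star (gp p) ∣ ξ) then 1 else 0

/-- M1: the Dirichlet series of a non-trivial angular character is bounded near `1`.
Proof (no integrals): put `g ξ = psi k ξ * norm ^ (-s)`; `|g (ξ + j) - g ξ| ≤ C |ξ|⁻³` for
`0 ≤ j ≤ 4`, `ξ ≠ 0`, with `C` independent of `s ∈ (1, 2]`, and `∑ |ξ|⁻³ < ∞`. Every Gaussian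
integer is `(2 + i) η + j` for unique `η` and `j ∈ {0,1,2,3,4}`. So
`L = ∑_j ∑_η g ((2 + i) η + j) = 5 ∑_η g ((2 + i) η) + O(1) = 5 psi k (2 + i) 5 ^ (-s) L + O(1)`,
and `|1 - psi k (2 + i) 5 ^ (1 - s)|` is bounded below on `[1, 2]` because `psi k (2 + i) ≠ 1`:
`(2 + i)² ≡ 4 (2 + i)` mod `5`, so the imaginary part of `(2 + i) ^ n` is `4 ^ (n - 1)` mod `5`. -/
def S_M1 : Prop := ∀ k : ℕ, 0 < k → ∃ C : ℝ, ∀ s : ℝ, 1 < s → s ≤ 2 →
  ‖∑' ξ : G, psi k ξ * ((((ξ.norm : ℝ)) ^ (-s) : ℝ) : ℂ)‖ ≤ C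

/-- M2 (from M1): `∑ (1 - |cos (4 k θ_p)|) / p` diverges over the primes `1` mod `4`.
Proof: `1 - |c| ≥ (1 - c²) / 2 = (1 - cos (8 k θ_p)) / 4`. Suppose that the sum of
`(1 - cos (8 k θ_p)) / p` is finite, `= B`. For a completely multiplicative `g` on the non-zero
Gaussian integers (`g = psi (2k) · norm ^ (-s)`, or `g = norm ^ (-s)`), summable, and the finite
set of the Gaussian primes `π` above the rational primes `p ≤ P` (one of each associate class:
`1 + i`; `p` for `p ≡ 3` mod `4`; `gp p` and its conjugate for `p ≡ 1`):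
`(∑ g) ∏ (1 - g π) = ∑_{ξ divisible by none of them} g ξ`, by induction on the number of primes
(`π ∣ ξ`: `ξ = π η`, and the other primes divide `ξ` iff they divide `η`); the right side is
`∑_units g = 4` up to the tail `∑_{norm > P} norm ^ (-s) → 0`. Hence
`ζ(s) / |L(s)| ≤ sup_P ∏ |1 - ψ(π) x| / (1 - x)` with `x = norm π ^ (-s) ≤ 1/2`, and
`|1 - ψ x|² / (1 - x)² = 1 + 2x (1 - Re ψ) / (1 - x)² ≤ exp (8 x (1 - Re ψ))`; for `p ≡ 3` mod `4`
`ψ = 1`. So `∑_{ξ ≠ 0} norm ξ ^ (-s) ≤ exp (8 + 8 B) |L(s)| ≤ C'` for `1 < s ≤ 2`, whereas the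
left side tends to infinity as `s → 1`. -/
def S_M2 : Prop := S_M1 → ∀ k : ℕ, 0 < k →
  ¬ Summable fun p : {p : ℕ // P1 p} => (1 - |cc k p|) / (p : ℝ)

/-- M3: densities. Proof: by induction on `P`, for all `X` at once; base: the number of lattice
points in the disc is `π X + o(X)` (for instance `tendsto_card_div_pow_atTop_volume'` in Mathlib's
`BoxIntegral.UnitPartition`). Step: `F` = the product over `P`, `p ∉ P`, `π = gp p`,
`F (α η) = F η` for `α` a product of powers of `π` and `star π`, and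
`∑_{ξ ∈ disc X, α ∣ ξ} F ξ = ∑_{η ∈ disc (X / norm α)} F η`;
`ind p = [π ∣] - [π² ∣] - [π π̄ ∣] + [π² π̄ ∣]`. -/
def S_M3 : Prop := ∀ (P : Finset ℕ), (∀ p ∈ P, P1 p) → ∀ a : ℕ → ℝ, (∀ p, 0 ≤ a p ∧ a p ≤ 1) →
  Tendsto (fun X : ℕ => (1 / (X : ℝ)) * ∑ ξ ∈ disc X, ∏ p ∈ P, (1 - a p * ind p ξ)) atTop
    (𝓝 (Real.pi * ∏ p ∈ P, (1 - a p * ((1 / (p : ℝ)) * (1 - 1 / (p : ℝ)) ^ 2))))

/-- M4: the angular sums. Proof: induction on `P`; if `p ∥ N`, `N = p N'`, then every `ξ` of norm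
`N` is `π η` or `π̄ η` (exactly one of the two) with `η` of norm `N'`, so
`A k N = (psi π + psi π̄) A k N' = 2 cc k p * A k N'` and `card (circ N) = 2 card (circ N')`
(state the induction with the condition `p ∥ N` instead of `ind`). -/
def S_M4 : Prop := ∀ (k : ℕ) (P : Finset ℕ), (∀ p ∈ P, P1 p) → ∀ ξ : G, ξ ≠ 0 →
  ‖A k ξ.norm.toNat‖ ≤ (∏ p ∈ P, (1 - (1 - |cc k p|) * ind p ξ)) * (circ ξ.norm.toNat).card

end

end Pool.Agent.Zk91.SQ
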