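import Pool.Agent.Zk91.SQ.Mv

/-!
# Bounds from the mean value property
-/

set_option autoImplicit false

open MeasureTheory Filter Topology

namespace Pool.Agent.Zk91.SQ

noncomputable section

/-- Cauchy-Schwarz with a bounded factor -/
theorem cs (B : Set ℂ) (hB : IsCompact B) (g f : ℂ → ℝ) (hg : Continuous g) (hf : Continuous f)
    (G : ℝ) (hG0 : 0 ≤ G) (hG : ∀ y, |g y| ≤ G) :
    (∫ y in B, g y * f y) ^ 2 ≤ G ^ 2 * volume.real B * ∫ y in B, f y ^ 2 := by
  have hig : IntegrableOn (fun y => g y ^ 2) B := (hg.pow 2).continuousOn.integrableOn_compact hB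
  have hif : IntegrableOn (fun y => f y ^ 2) B := (hf.pow 2).continuousOn.integrableOn_compact hB
  have higf : IntegrableOn (fun y => g y * f y) B := (hg.mul hf).continuousOn.integrableOn_compact hB
  set a := ∫ y in B, g y ^ 2 with ha
  set b := ∫ y in B, g y * f y with hb
  set c := ∫ y in B, f y ^ 2 with hc
  have ha1 : a ≤ G ^ 2 * volume.real B := by
    have h1 : a ≤ ∫ _y in B, G ^ 2 := by
      refine integral_mono hig (integrableOn_const hB.measure_lt_top.ne) fun y => ?_
      show g y ^ 2 ≤ G ^ 2
      rw [← sq_abs]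
      exact pow_le_pow_left₀ (abs_nonneg _) (hG y) 2
    rw [setIntegral_const, smul_eq_mul] at h1
    linarith
  have hc0 : 0 ≤ c := integral_nonneg fun y => sq_nonneg _
  have hdisc : discrim c (2 * b) a ≤ 0 := by
    refine discrim_le_zero fun t => ?_
    have h1 : 0 ≤ ∫ y in B, (g y + t * f y) ^ 2 := integral_nonneg fun y => sq_nonneg _
    have h2 : ∫ y in B, (g y + t * f y) ^ 2 = c * (t * t) + 2 * b * t + a := by
      have e : ∀ y, (g y + t * f y) ^ 2 = (g y ^ 2 + (2 * t) * (g y * f y)) + t ^ 2 * f y ^ 2 := by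
        intro y
        ring
      simp only [e]
      have i1 : IntegrableOn (fun y => g y ^ 2 + (2 * t) * (g y * f y)) B :=
        hig.add (higf.const_mul _)
      have i2 : IntegrableOn (fun y => (2 * t) * (g y * f y)) B := higf.const_mul _
      have i3 : IntegrableOn (fun y => t ^ 2 * f y ^ 2) B := hif.const_mul _
      rw [integral_add i1 i3, integral_add hig i2, integral_const_mul, integral_const_mul]
      ring
    rw [h2] at h1
    exact h1
  have h3 : b ^ 2 ≤ a * c := by
    unfold discrim at hdisc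
    nlinarith
  exact h3.trans (mul_le_mul_of_nonneg_right ha1 hc0)

theorem T0_abs (y : ℂ) : |T0 y| ≤ 1 := by
  unfold T0
  rw [abs_of_nonneg (le_max_left _ _)]
  exact max_le zero_le_one (by linarith [norm_nonneg y])

theorem T0_lip (x y : ℂ) : |T0 x - T0 y| ≤ ‖x - y‖ := by
  unfold T0
  have h1 := abs_max_sub_max_le_max 0 (1 - ‖x‖) 0 (1 - ‖y‖)
  refine h1.trans ?_
  rw [sub_self, abs_zero]
  refine max_le (norm_nonneg _) ?_
  have : (1 - ‖x‖) - (1 - ‖y‖) = -(‖x‖ - ‖y‖) := by ring
  rw [this, abs_neg]
  exact abs_norm_sub_norm_le x y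

theorem w2 : S_W2 := by
  intro hk R hR
  set B : Set ℂ := Metric.closedBall (0 : ℂ) (R + 1) with hB
  have hBc : IsCompact B := isCompact_closedBall _ _
  have hvB : 0 ≤ volume.real B := measureReal_nonneg
  refine ⟨(volume.real B + 1) / kp ^ 2, by positivity, fun f hf hmv w w' hw hw' => ?_⟩
  have hrep : ∀ w : ℂ, ‖w‖ ≤ R → kp * f w = ∫ y in B, T0 (y - w) * f y := by
    intro w hw
    rw [hmv w]
    have e1 : ∫ y : ℂ, T0 y * f (w + y) = ∫ y : ℂ, T0 (y - w) * f y := by
      have := integral_add_left_eq_self (μ := (volume : Measure ℂ))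
        (fun y : ℂ => T0 (y - w) * f y) w
      rw [← this]
      refine integral_congr_ae (ae_of_all _ fun y => ?_)
      simp only
      rw [add_sub_cancel_left]
    rw [e1]
    refine (setIntegral_eq_integral_of_forall_compl_eq_zero fun y hy => ?_).symm
    rw [hB, mem_closedBall_zero_iff, not_le] at hy
    have : 1 ≤ ‖y - w‖ := by
      have := norm_sub_norm_le y w
      linarith
    rw [T0_zero _ this, zero_mul]
  have hc0 : 0 ≤ ∫ y in B, f y ^ 2 := integral_nonneg fun y => sq_nonneg _
  have hk2 : 0 < kp ^ 2 := by positivity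
  refine ⟨?_, ?_⟩
  · have h1 := cs B hBc (fun y => T0 (y - w)) f (cont_T0.comp (continuous_id.sub continuous_const))
      hf 1 zero_le_one (fun y => T0_abs _)
    rw [← hrep w hw, mul_pow, one_pow, one_mul] at h1
    rw [div_mul_eq_mul_div, le_div_iff₀ hk2]
    nlinarith
  · have h1 := cs B hBc (fun y => T0 (y - w) - T0 (y - w')) f
      ((cont_T0.comp (continuous_id.sub continuous_const)).sub
        (cont_T0.comp (continuous_id.sub continuous_const))) hf ‖w - w'‖ (norm_nonneg _)
      (fun y => (T0_lip _ _).trans (le_of_eq (by rw [sub_sub_sub_cancel_left, norm_sub_rev])))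
    have h2 : ∫ y in B, (T0 (y - w) - T0 (y - w')) * f y = kp * (f w - f w') := by
      rw [mul_sub, hrep w hw, hrep w' hw', ← integral_sub]
      · refine integral_congr_ae (ae_of_all _ fun y => ?_)
        simp only
        ring
      · exact ((cont_T0.comp (continuous_id.sub continuous_const)).mul
          hf).continuousOn.integrableOn_compact hBc
      · exact ((cont_T0.comp (continuous_id.sub continuous_const)).mul
          hf).continuousOn.integrableOn_compact hBc
    rw [h2, mul_pow] at h1
    rw [div_mul_eq_mul_div, div_mul_eq_mul_div, le_div_iff₀ hk2]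
    have h3 : 0 ≤ ‖w - w'‖ ^ 2 * ∫ y in B, f y ^ 2 := by positivity
    nlinarith

end

end Pool.Agent.Zk91.SQ
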