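import Pool.Agent.Zk91.SQ.Defs7

/-!
# Cut-offs are Lipschitz
-/

set_option autoImplicit false

open MeasureTheory Filter Topology Set

namespace Pool.Agent.Zk91.SQ

open Pool.Agent.N661.BR (resc IsCutoff)

theorem w7 : S_W7 := by
  intro χ hχ
  have h1 : ContDiffOn ℝ 1 χ (Icc 0 1) :=
    (hχ.smooth.mono Icc_subset_Ici_self).of_le (by exact_mod_cast le_top)
  have hd : DifferentiableOn ℝ χ (Icc 0 1) := h1.differentiableOn (by norm_num)
  have hu : UniqueDiffOn ℝ (Icc (0 : ℝ) 1) := uniqueDiffOn_Icc (by norm_num)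
  have hc : ContinuousOn (derivWithin χ (Icc 0 1)) (Icc 0 1) :=
    h1.continuousOn_derivWithin hu le_rfl
  obtain ⟨C, hC⟩ := isCompact_Icc.exists_bound_of_continuousOn hc
  refine ⟨max C 1, by positivity, fun s t hs ht => ?_⟩
  have hcl : ∀ s : ℝ, 0 ≤ s → χ s = χ (min s 1) := by
    intro s hs
    rcases le_total s 1 with h | h
    · rw [min_eq_left h]
    · rw [min_eq_right h, hχ.zero s h, hχ.zero 1 le_rfl]
  have hmem : ∀ s : ℝ, 0 ≤ s → min s 1 ∈ Icc (0 : ℝ) 1 := fun s hs =>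
    ⟨le_min hs zero_le_one, min_le_right _ _⟩
  rw [hcl s hs, hcl t ht]
  have h2 := (convex_Icc (0 : ℝ) 1).norm_image_sub_le_of_norm_derivWithin_le hd
    (fun x hx => (hC x hx).trans (le_max_left C 1)) (hmem t ht) (hmem s hs)
  rw [Real.norm_eq_abs, Real.norm_eq_abs] at h2
  refine h2.trans (mul_le_mul_of_nonneg_left ?_ (by positivity))
  have := abs_min_sub_min_le_max s 1 t 1
  rwa [sub_self, abs_zero, max_eq_left (abs_nonneg _)] at this

end Pool.Agent.Zk91.SQ
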