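import Pool.Agent.Zk91.SQ.Cnt

/-!
# Almost all circles: many points, equidistributed
-/

set_option autoImplicit false

open Filter Topology Finset

namespace Pool.Agent.Zk91.SQ

open Pool.Agent.N661.BR (J0)

noncomputable section

/-- the covariance function of the points of the circle -/
def kap (N : ℕ) (w : ℂ) : ℝ := (1 / ((pts N).card : ℝ)) *
  ∑ p ∈ pts N, (Real.cos ((p.1 : ℝ) / √(N : ℝ) * w.re) * Real.cos ((p.2 : ℝ) / √(N : ℝ) * w.im))

theorem cos_natAbs (x : ℤ) (c d : ℝ) : Real.cos (((x.natAbs : ℕ) : ℝ) / c * d) =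
    Real.cos ((x : ℝ) / c * d) := by
  rw [Nat.cast_natAbs, Int.cast_abs]
  rcases abs_choice (x : ℝ) with h | h
  · rw [h]
  · rw [h, ← Real.cos_neg]
    congr 1
    ring

theorem kap_circ (N : ℕ) (w : ℂ) (hn : 0 < (pts N).card) :
    |(1 / ((circ N).card : ℝ)) * ∑ ξ ∈ circ N, (Real.cos ((ξ.re : ℝ) / √(N : ℝ) * w.re) *
      Real.cos ((ξ.im : ℝ) / √(N : ℝ) * w.im)) - kap N w| ≤ 2 / ((pts N).card : ℝ) := by
  set F : ℕ × ℕ → ℝ := fun p => Real.cos ((p.1 : ℝ) / √(N : ℝ) * w.re) *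
    Real.cos ((p.2 : ℝ) / √(N : ℝ) * w.im) with hF
  have hF1 : ∀ p, |F p| ≤ 1 := by
    intro p
    rw [hF]
    simp only
    rw [abs_mul]
    exact mul_le_one₀ (Real.abs_cos_le_one _) (abs_nonneg _) (Real.abs_cos_le_one _)
  have e1 : ∑ ξ ∈ circ N, (Real.cos ((ξ.re : ℝ) / √(N : ℝ) * w.re) *
      Real.cos ((ξ.im : ℝ) / √(N : ℝ) * w.im)) = ∑ ξ ∈ circ N, F (ab ξ) := by
    refine sum_congr rfl fun ξ _ => ?_
    simp only [hF, ab]
    rw [cos_natAbs, cos_natAbs]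
  rw [e1, sum_circ N F]
  set n : ℝ := ((pts N).card : ℝ) with hnn
  set c : ℝ := ((axis N).card : ℝ) with hcc
  set A : ℝ := ∑ p ∈ pts N, F p with hA
  set E : ℝ := ∑ ξ ∈ axis N, F (ab ξ) with hE
  have hcard : ((circ N).card : ℝ) = 4 * n + c := by
    rw [card_circ]
    push_cast
    ring
  have hn0 : 0 < n := by rw [hnn]; exact_mod_cast hn
  have hc0 : 0 ≤ c := Nat.cast_nonneg _
  have hc4 : c ≤ 4 := by
    rw [hcc]
    exact_mod_cast axis_card N
  have hAn : |A| ≤ n := by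
    refine (abs_sum_le_sum_abs _ _).trans ((sum_le_sum fun p _ => hF1 p).trans (le_of_eq ?_))
    rw [sum_const, nsmul_eq_mul, mul_one]
  have hEc : |E| ≤ c := by
    refine (abs_sum_le_sum_abs _ _).trans ((sum_le_sum fun p _ => hF1 _).trans (le_of_eq ?_))
    rw [sum_const, nsmul_eq_mul, mul_one]
  have hkap : kap N w = 1 / n * A := rfl
  rw [hcard, hkap]
  have e : 1 / (4 * n + c) * (4 * A + E) - 1 / n * A = (n * E - c * A) / (n * (4 * n + c)) := by
    have : 4 * n + c ≠ 0 := by positivity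
    field_simp
    ring
  rw [e, abs_div, abs_of_pos (by positivity : 0 < n * (4 * n + c)), div_le_div_iff₀ (by positivity)
    hn0]
  have h1 : |n * E - c * A| ≤ 2 * n * c := by
    refine (abs_sub _ _).trans ?_
    rw [abs_mul, abs_mul, abs_of_pos hn0, abs_of_nonneg hc0]
    nlinarith
  calc |n * E - c * A| * n ≤ (2 * n * c) * n := mul_le_mul_of_nonneg_right h1 hn0.le
    _ ≤ 2 * (n * (4 * n + c)) := by
        have : n * c * n ≤ n * 4 * n := by gcongr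
        nlinarith

theorem small_pts (h5 : S_M5) (h6 : S_M6) (L R : ℕ) : ∃ (m : ℕ) (δ : ℝ), 0 < δ ∧
    ∀ N : ℕ, 0 < N → (circ N).Nonempty → Small m δ N →
      R ≤ (pts N).card ∧ ∀ w : ℂ, ‖w‖ ≤ L → |kap N w - J0 ‖w‖| ≤ 1 / ((L : ℝ) + 1) := by
  obtain ⟨m5, δ5, hδ5, hM5⟩ := h5 L (1 / (2 * ((L : ℝ) + 1))) (by positivity)
  set M : ℕ := R + 4 * (L + 1) with hM
  set m : ℕ := m5 + 8 * (M + 1) with hm
  set δ : ℝ := min δ5 (1 / ((m : ℝ) + 1)) with hδ
  have hδ0 : 0 < δ := lt_min hδ5 (by positivity)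
  refine ⟨m, δ, hδ0, fun N hN hne hS => ?_⟩
  have hc0 : (0 : ℝ) < (circ N).card := by exact_mod_cast card_pos.2 hne
  have h1 := h6 m δ N hN hne hS
  have h2 : (m : ℝ) * δ ^ 2 ≤ 1 := by
    have h3 : δ ≤ 1 / ((m : ℝ) + 1) := min_le_right _ _
    have h4 : δ ^ 2 ≤ (1 / ((m : ℝ) + 1)) ^ 2 := pow_le_pow_left₀ hδ0.le h3 2
    have hm0 : (0 : ℝ) ≤ m := Nat.cast_nonneg _
    calc (m : ℝ) * δ ^ 2 ≤ ((m : ℝ) + 1) * (1 / ((m : ℝ) + 1)) ^ 2 :=
          mul_le_mul (by linarith) h4 (by positivity) (by positivity)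
      _ = 1 / ((m : ℝ) + 1) := by field_simp
      _ ≤ 1 := by
          rw [div_le_one (by positivity)]
          linarith
  have h3 : (m : ℝ) + 1 ≤ (circ N).card * 2 := by
    refine h1.trans (mul_le_mul_of_nonneg_left ?_ hc0.le)
    linarith
  have h3' : m + 1 ≤ (circ N).card * 2 := by exact_mod_cast h3
  have h4 := card_circ N
  have h5' := axis_card N
  have hMn : M ≤ (pts N).card := by omega
  have hn0 : 0 < (pts N).card := by omega
  refine ⟨by omega, fun w hw => ?_⟩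
  have h7 := hM5 N hN hne (fun k hk0 hkm => (hS k hk0 (by omega)).trans
    (mul_le_mul_of_nonneg_right (min_le_left _ _) hc0.le)) w hw
  have h8 := kap_circ N w hn0
  have h9 : 2 / ((pts N).card : ℝ) ≤ 1 / (2 * ((L : ℝ) + 1)) := by
    have h10 : 4 * ((L : ℝ) + 1) ≤ (pts N).card := by
      have : 4 * (L + 1) ≤ (pts N).card := by omega
      exact_mod_cast this
    have hn1 : (0 : ℝ) < (pts N).card := by exact_mod_cast hn0
    rw [div_le_div_iff₀ hn1 (by positivity)]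
    linarith
  calc |kap N w - J0 ‖w‖| ≤ |kap N w - (1 / ((circ N).card : ℝ)) *
        ∑ ξ ∈ circ N, (Real.cos ((ξ.re : ℝ) / √(N : ℝ) * w.re) *
        Real.cos ((ξ.im : ℝ) / √(N : ℝ) * w.im))| +
        |(1 / ((circ N).card : ℝ)) *
        ∑ ξ ∈ circ N, (Real.cos ((ξ.re : ℝ) / √(N : ℝ) * w.re) *
        Real.cos ((ξ.im : ℝ) / √(N : ℝ) * w.im)) - J0 ‖w‖| := abs_sub_le _ _ _
    _ ≤ 1 / (2 * ((L : ℝ) + 1)) + 1 / (2 * ((L : ℝ) + 1)) := by
        refine add_le_add ?_ h7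
        rw [abs_sub_comm]
        exact h8.trans h9
    _ = 1 / ((L : ℝ) + 1) := by field_simp; norm_num

/-- almost all points lie on circles with many, equidistributed points -/
theorem almost_all (h1 : S_M1) (h2 : S_M2) (h3 : S_M3) (h4 : S_M4) (h5 : S_M5) (h6 : S_M6)
    (L R : ℕ) (ε : ℝ) (hε : 0 < ε) : ∀ᶠ X : ℕ in atTop,
      (cnt X (fun p => ¬ (R ≤ (pts (nrm p)).card ∧
        ∀ w : ℂ, ‖w‖ ≤ L → |kap (nrm p) w - J0 ‖w‖| ≤ 1 / ((L : ℝ) + 1))) : ℝ) ≤ ε * X := by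
  classical
  obtain ⟨m, δ, hδ, hm⟩ := small_pts h5 h6 L R
  filter_upwards [T h1 h2 h3 h4 m δ hδ ε hε] with X hX
  have hT := tri_bad (fun N => ¬ Small m δ N) X
  have hT' : (((disc X).filter fun ξ => ¬ Small m δ ξ.norm.toNat).card : ℝ) ≤ ε * X := by
    convert hX
  refine le_trans ?_ hT'
  rw [Nat.cast_le]
  refine le_trans (cnt_mono ?_) (hT.trans (le_of_eq (by congr!)))
  intro p hp hp2 hS
  refine hp2 ?_
  obtain ⟨g1, g2, g3⟩ := mem_tri.1 hp
  have hN : 0 < nrm p := by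
    unfold nrm
    positivity
  exact hm (nrm p) hN ⟨gi p, (mem_circ _ _).2 (gi_norm p)⟩ hS

end

end Pool.Agent.Zk91.SQ
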