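import Pool.Agent.Zk91.SQ.Dia
import Pool.Agent.Zk91.SQ.Kap
import Pool.Agent.Zk91.KB.Lev3
import Pool.Agent.Zk60.BW.Fin

/-!
# The basis of the square
-/

set_option autoImplicit false

open Filter Topology Real MeasureTheory Set ProbabilityTheory

namespace Pool.Agent.Zk91.SQ

open Pool.Agent.N661.BR (J0)
open Pool.Agent.Zk60.BW (TT TT_nonneg VV VV_le QQ QQ_nonneg)
open Pool.Agent.Zk91.KB (OnE Orth LawL cov cov_nonneg mode level exp_sub_le)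

noncomputable section

theorem onE (α : ℝ) (hα : 0 < α) (N : ℕ) : OnE α α (α ^ 2 * N) (pts N) := by
  intro p
  rw [mem_pts]
  refine and_congr_right fun _ => and_congr_right fun _ => ?_
  have hα2 : α ^ 2 ≠ 0 := by positivity
  constructor
  · intro h
    have h' : (p.1 : ℝ) ^ 2 + (p.2 : ℝ) ^ 2 = N := by
      have : p.1 ^ 2 + p.2 ^ 2 = N := h
      exact_mod_cast this
    rw [mul_pow, mul_pow, ← mul_add, h']
  · intro h
    rw [mul_pow, mul_pow, ← mul_add] at h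
    have h' := mul_left_cancel₀ hα2 h
    have : p.1 ^ 2 + p.2 ^ 2 = N := by exact_mod_cast h'
    exact this

variable {k : ℕ}

theorem cov_eq (α : ℝ) (hα : 0 < α) (N : ℕ) (w : Fin k → ℂ) (t : Fin k → ℝ) :
    cov α α (α ^ 2 * N) (pts N) w t = ∑ i, ∑ j, t i * t j * kap N (w i - w j) := by
  have hs : √(α ^ 2 * N) = α * √(N : ℝ) := by
    rw [Real.sqrt_mul (by positivity), Real.sqrt_sq hα.le]
  have e : ∀ x : ℝ, α * x / √(α ^ 2 * N) = x / √(N : ℝ) := by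
    intro x
    rw [hs, mul_div_mul_left _ _ hα.ne']
  unfold cov VV kap
  simp only [e, Finset.mul_sum]
  rw [Finset.sum_comm]
  refine Finset.sum_congr rfl fun i _ => ?_
  rw [Finset.sum_comm]
  refine Finset.sum_congr rfl fun j _ => ?_
  refine Finset.sum_congr rfl fun p _ => ?_
  ring

theorem cov_QQ (α : ℝ) (hα : 0 < α) (N L : ℕ)
    (hN : ∀ w : ℂ, ‖w‖ ≤ L → |kap N w - J0 ‖w‖| ≤ 1 / ((L : ℝ) + 1)) (w : Fin k → ℂ)
    (t : Fin k → ℝ) (ρ : ℝ) (hw : ∀ j, ‖w j‖ ≤ ρ) (ht : ∀ j, |t j| ≤ ρ) (hρ : 2 * ρ ≤ L) :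
    |cov α α (α ^ 2 * N) (pts N) w t - QQ w t| ≤ (k : ℝ) ^ 2 * ρ ^ 2 * (1 / ((L : ℝ) + 1)) := by
  have e : cov α α (α ^ 2 * N) (pts N) w t - QQ w t =
      ∑ i, ∑ j, t i * t j * (kap N (w i - w j) - J0 ‖w i - w j‖) := by
    rw [cov_eq α hα]
    unfold QQ
    rw [← Finset.sum_sub_distrib]
    refine Finset.sum_congr rfl fun i _ => ?_
    rw [← Finset.sum_sub_distrib]
    exact Finset.sum_congr rfl fun j _ => by ring
  rw [e]
  have h1 : ∀ i j, |t i * t j * (kap N (w i - w j) - J0 ‖w i - w j‖)| ≤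
      ρ ^ 2 * (1 / ((L : ℝ) + 1)) := by
    intro i j
    have hρ0 : 0 ≤ ρ := (abs_nonneg _).trans (ht i)
    rw [abs_mul, abs_mul, sq]
    refine mul_le_mul (mul_le_mul (ht i) (ht j) (abs_nonneg _) hρ0) (hN _ ?_) (abs_nonneg _)
      (by positivity)
    refine (norm_sub_le _ _).trans ?_
    linarith [hw i, hw j]
  refine (Finset.abs_sum_le_sum_abs _ _).trans ((Finset.sum_le_sum fun i _ =>
    (Finset.abs_sum_le_sum_abs _ _).trans (Finset.sum_le_sum fun j _ => h1 i j)).trans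
      (le_of_eq ?_))
  simp only [Finset.sum_const, Finset.card_univ, Fintype.card_fin, nsmul_eq_mul]
  ring

/-- the law of `u` is that of the isotropic random wave, up to `ε`, on all windows -/
def Wave (k : ℕ) (ρ ε lam : ℝ) (u : ℂ → ℝ) : Prop :=
  ∀ (w : Fin k → ℂ) (t : Fin k → ℝ), (∀ j, ‖w j‖ ≤ ρ) → (∀ j, |t j| ≤ ρ) →
    ∀ C : Set ℂ, Convex ℝ C → Bornology.IsBounded C → 0 < volume.real C →
      Metric.diam C ≤ ρ * volume.real C →
      |1 / volume.real C * (∫ z in C, (∑ j, t j * u (z + w j / ((√lam : ℝ) : ℂ))) ^ 2) -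
        QQ w t| ≤ ε ∧
      ‖((1 / volume.real C : ℝ) : ℂ) * (∫ z in C, Complex.exp
        (Complex.I * ((∑ j, t j * u (z + w j / ((√lam : ℝ) : ℂ)) : ℝ) : ℂ))) -
        ((Real.exp (-(QQ w t) / 2) : ℝ) : ℂ)‖ ≤ ε

theorem wave_of_lawL (α : ℝ) (hα : 0 < α) (N L : ℕ)
    (hN : ∀ w : ℂ, ‖w‖ ≤ L → |kap N w - J0 ‖w‖| ≤ 1 / ((L : ℝ) + 1)) (u : ℂ → ℝ)
    (hu : LawL α α (α ^ 2 * N) (pts N) L u) (k : ℕ) (ρ ε : ℝ) (hk : k ≤ L) (hρ : 2 * ρ ≤ L)
    (hρL : ρ ≤ L) (hε : ((k : ℝ) ^ 2 * ρ ^ 2 + 1) * (1 / ((L : ℝ) + 1)) ≤ ε) :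
    Wave k ρ ε (α ^ 2 * N) u := by
  intro w t hw ht C h1 h2 h3 h4
  obtain ⟨c1, c2⟩ := hu k hk w t (fun j => (hw j).trans hρL) (fun j => (ht j).trans hρL) C h1 h2 h3
    (h4.trans (mul_le_mul_of_nonneg_right hρL h3.le))
  have c3 := cov_QQ α hα N L hN w t ρ hw ht hρ
  have hδ : 0 < 1 / ((L : ℝ) + 1) := by positivity
  refine ⟨?_, ?_⟩
  · refine (abs_sub_le _ _ _).trans ((add_le_add c1 c3).trans ?_)
    linarith
  · refine (norm_sub_le_norm_sub_add_norm_sub _ _ _).trans ((add_le_add c2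
      ((exp_sub_le _ _ (cov_nonneg _ _ _ _ _ _) (QQ_nonneg w t)).trans
        (div_le_div_of_nonneg_right c3 (by norm_num)))).trans ?_)
    have : 0 ≤ (k : ℝ) ^ 2 * ρ ^ 2 * (1 / ((L : ℝ) + 1)) := by positivity
    linarith

end

end Pool.Agent.Zk91.SQ
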