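import Pool.Agent.Zk91.SQ.T

/-!
# The points of the open quadrant
-/

set_option autoImplicit false

open Filter Topology Finset

namespace Pool.Agent.Zk91.SQ

open Pool.Agent.N661.BR (J0)

noncomputable section

/-- the square of the length of `p` -/
def nrm (p : ℕ × ℕ) : ℕ := p.1 ^ 2 + p.2 ^ 2

/-- the points with positive coordinates on the circle of radius `√N` -/
def pts (N : ℕ) : Finset (ℕ × ℕ) := (Icc 1 N ×ˢ Icc 1 N).filter fun p => nrm p = N

theorem mem_pts {N : ℕ} {p : ℕ × ℕ} : p ∈ pts N ↔ 0 < p.1 ∧ 0 < p.2 ∧ nrm p = N := by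
  unfold pts
  rw [mem_filter, mem_product, mem_Icc, mem_Icc]
  constructor
  · rintro ⟨⟨h1, h2⟩, h3⟩
    exact ⟨h1.1, h2.1, h3⟩
  · rintro ⟨h1, h2, h3⟩
    refine ⟨⟨⟨h1, ?_⟩, h2, ?_⟩, h3⟩
    · have : p.1 ^ 2 + p.2 ^ 2 = N := h3
      nlinarith
    · have : p.1 ^ 2 + p.2 ^ 2 = N := h3
      nlinarith

/-- the points with positive coordinates in the disc of radius `√X` -/
def tri (X : ℕ) : Finset (ℕ × ℕ) := (Icc 1 X ×ˢ Icc 1 X).filter fun p => nrm p ≤ X

theorem mem_tri {X : ℕ} {p : ℕ × ℕ} : p ∈ tri X ↔ 0 < p.1 ∧ 0 < p.2 ∧ nrm p ≤ X := by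
  unfold tri
  rw [mem_filter, mem_product, mem_Icc, mem_Icc]
  constructor
  · rintro ⟨⟨h1, h2⟩, h3⟩
    exact ⟨h1.1, h2.1, h3⟩
  · rintro ⟨h1, h2, h3⟩
    have : p.1 ^ 2 + p.2 ^ 2 ≤ X := h3
    exact ⟨⟨⟨h1, by nlinarith⟩, h2, by nlinarith⟩, h3⟩

open Classical in
/-- the number of the points in the disc with a property -/
def cnt (X : ℕ) (B : ℕ × ℕ → Prop) : ℕ := ((tri X).filter B).card

theorem cnt_mono {X : ℕ} {B B' : ℕ × ℕ → Prop} (h : ∀ p ∈ tri X, B p → B' p) :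
    cnt X B ≤ cnt X B' := by
  classical
  unfold cnt
  refine card_le_card fun p hp => ?_
  rw [mem_filter] at hp ⊢
  exact ⟨hp.1, h p hp.1 hp.2⟩

theorem cnt_or (X : ℕ) (B B' : ℕ × ℕ → Prop) :
    cnt X (fun p => B p ∨ B' p) ≤ cnt X B + cnt X B' := by
  classical
  unfold cnt
  refine le_trans (card_le_card fun p hp => ?_) (card_union_le _ _)
  simp only [mem_filter] at hp
  rw [mem_union, mem_filter, mem_filter]
  rcases hp.2 with h | h
  · exact Or.inl ⟨hp.1, h⟩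
  · exact Or.inr ⟨hp.1, h⟩

theorem cnt_exists (X L : ℕ) (B : ℕ → ℕ × ℕ → Prop) :
    cnt X (fun p => ∃ l < L, B l p) ≤ ∑ l ∈ range L, cnt X (B l) := by
  classical
  unfold cnt
  refine le_trans (card_le_card fun p hp => ?_) card_biUnion_le
  simp only [mem_filter] at hp
  obtain ⟨hp1, l, hl, hp2⟩ := hp
  rw [mem_biUnion]
  exact ⟨l, mem_range.2 hl, mem_filter.2 ⟨hp1, hp2⟩⟩

/-- the Gaussian integer of a point -/
def gi (p : ℕ × ℕ) : G := ⟨p.1, p.2⟩

theorem gi_inj : Function.Injective gi := by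
  intro p q h
  have h1 : ((p.1 : ℤ)) = q.1 := congrArg Zsqrtd.re h
  have h2 : ((p.2 : ℤ)) = q.2 := congrArg Zsqrtd.im h
  exact Prod.ext (by exact_mod_cast h1) (by exact_mod_cast h2)

theorem gi_norm (p : ℕ × ℕ) : (gi p).norm = (nrm p : ℤ) := by
  rw [norm_eq]
  show (p.1 : ℤ) * p.1 + (p.2 : ℤ) * p.2 = ((p.1 ^ 2 + p.2 ^ 2 : ℕ) : ℤ)
  push_cast
  ring

open Classical in
theorem tri_bad (B : ℕ → Prop) (X : ℕ) : cnt X (fun p => B (nrm p)) ≤
    ((disc X).filter fun ξ => B ξ.norm.toNat).card := by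
  unfold cnt
  refine card_le_card_of_injOn gi (fun p hp => ?_) gi_inj.injOn
  rw [mem_coe, mem_filter, mem_tri] at hp
  rw [mem_coe, mem_filter, mem_disc, gi_norm]
  obtain ⟨⟨h1, h2, h3⟩, h4⟩ := hp
  refine ⟨⟨?_, by exact_mod_cast h3⟩, by simpa using h4⟩
  intro h
  have : (gi p).re = 0 := by rw [h]; rfl
  have h5 : ((p.1 : ℤ)) = 0 := this
  omega

/-- the absolute values of the coordinates -/
def ab (ξ : G) : ℕ × ℕ := (ξ.re.natAbs, ξ.im.natAbs)

theorem nrm_ab (ξ : G) : (nrm (ab ξ) : ℤ) = ξ.norm := by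
  rw [norm_eq]
  unfold nrm ab
  push_cast
  rw [sq_abs, sq_abs]
  ring

/-- the points off the axes -/
def off (N : ℕ) : Finset G := (circ N).filter fun ξ => ξ.re ≠ 0 ∧ ξ.im ≠ 0

/-- the points on the axes -/
def axis (N : ℕ) : Finset G := (circ N).filter fun ξ => ¬ (ξ.re ≠ 0 ∧ ξ.im ≠ 0)

theorem fiber (N : ℕ) (p : ℕ × ℕ) (hp : p ∈ pts N) : ((off N).filter fun ξ => ab ξ = p) =
    {(⟨p.1, p.2⟩ : G), ⟨p.1, -p.2⟩, ⟨-p.1, p.2⟩, ⟨-p.1, -p.2⟩} := by
  obtain ⟨h1, h2, h3⟩ := mem_pts.1 hp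
  ext ξ
  rw [mem_filter, off, mem_filter, mem_circ]
  simp only [mem_insert, mem_singleton]
  constructor
  · rintro ⟨-, h⟩
    have e1 : ξ.re.natAbs = p.1 := congrArg Prod.fst h
    have e2 : ξ.im.natAbs = p.2 := congrArg Prod.snd h
    rw [Zsqrtd.ext_iff, Zsqrtd.ext_iff, Zsqrtd.ext_iff, Zsqrtd.ext_iff]
    simp only
    omega
  · intro h
    have e : ab ξ = p := by
      unfold ab
      rcases h with h | h | h | h <;> rw [h] <;> simp
    refine ⟨⟨?_, ?_, ?_⟩, e⟩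
    · rw [← nrm_ab, e, h3]
    · intro h0
      have e1 : ξ.re.natAbs = p.1 := congrArg Prod.fst e
      rw [h0] at e1
      simp at e1
      omega
    · intro h0
      have e2 : ξ.im.natAbs = p.2 := congrArg Prod.snd e
      rw [h0] at e2
      simp at e2
      omega

theorem fiber_card (N : ℕ) (p : ℕ × ℕ) (hp : p ∈ pts N) :
    ((off N).filter fun ξ => ab ξ = p).card = 4 := by
  obtain ⟨h1, h2, h3⟩ := mem_pts.1 hp
  rw [fiber N p hp]
  have n : ∀ a b c d : ℤ, (a ≠ c ∨ b ≠ d) → (⟨a, b⟩ : G) ≠ ⟨c, d⟩ := by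
    intro a b c d h h'
    rw [Zsqrtd.ext_iff] at h'
    rcases h with h | h
    · exact h h'.1
    · exact h h'.2
  rw [card_insert_of_notMem, card_insert_of_notMem, card_insert_of_notMem, card_singleton]
  · rw [mem_singleton]
    exact n _ _ _ _ (Or.inr (by omega))
  · rw [mem_insert, mem_singleton, not_or]
    exact ⟨n _ _ _ _ (Or.inl (by omega)), n _ _ _ _ (Or.inl (by omega))⟩
  · rw [mem_insert, mem_insert, mem_singleton, not_or, not_or]
    exact ⟨n _ _ _ _ (Or.inr (by omega)), n _ _ _ _ (Or.inl (by omega)),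
      n _ _ _ _ (Or.inl (by omega))⟩

theorem sum_off (N : ℕ) (F : ℕ × ℕ → ℝ) : ∑ ξ ∈ off N, F (ab ξ) = 4 * ∑ p ∈ pts N, F p := by
  have hmaps : ∀ ξ ∈ off N, ab ξ ∈ pts N := by
    intro ξ hξ
    rw [off, mem_filter, mem_circ] at hξ
    rw [mem_pts]
    refine ⟨Int.natAbs_pos.2 hξ.2.1, Int.natAbs_pos.2 hξ.2.2, ?_⟩
    have := nrm_ab ξ
    rw [hξ.1] at this
    exact_mod_cast this
  rw [← sum_fiberwise_of_maps_to hmaps, mul_sum]
  refine sum_congr rfl fun p hp => ?_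
  rw [sum_congr rfl (fun ξ hξ => by rw [(mem_filter.1 hξ).2] :
    ∀ ξ ∈ (off N).filter (fun ξ => ab ξ = p), F (ab ξ) = F p), sum_const, fiber_card N p hp,
    nsmul_eq_mul]
  norm_num

theorem axis_card (N : ℕ) : (axis N).card ≤ 4 := by
  have key : ∀ f g : G → ℤ, (∀ ξ η : G, f ξ = f η → g ξ = g η → ξ = η) →
      (∀ ξ : G, ξ.norm = f ξ * f ξ + g ξ * g ξ) →
      ((circ N).filter fun ξ => f ξ = 0).card ≤ 2 := by
    intro f g hinj hn
    by_contra hcon
    push Not at hcon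
    obtain ⟨x, hx, y, hy, z, hz, hxy, hxz, hyz⟩ := two_lt_card.1 hcon
    rw [mem_filter, mem_circ, hn] at hx hy hz
    obtain ⟨a1, a2⟩ := hx
    obtain ⟨b1, b2⟩ := hy
    obtain ⟨c1, c2⟩ := hz
    rw [a2] at a1
    rw [b2] at b1
    rw [c2] at c1
    have n1 : g x ≠ g y := fun h => hxy (hinj _ _ (by rw [a2, b2]) h)
    have n2 : g x ≠ g z := fun h => hxz (hinj _ _ (by rw [a2, c2]) h)
    have n3 : g y ≠ g z := fun h => hyz (hinj _ _ (by rw [b2, c2]) h)
    have m1 : (g x - g y) * (g x + g y) = 0 := by linarith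
    have m2 : (g x - g z) * (g x + g z) = 0 := by linarith
    have m3 := (mul_eq_zero.1 m1).resolve_left (sub_ne_zero.2 n1)
    have m4 := (mul_eq_zero.1 m2).resolve_left (sub_ne_zero.2 n2)
    exact n3 (by linarith)
  have h1 := key (fun ξ => ξ.re) (fun ξ => ξ.im) (fun ξ η h h' => Zsqrtd.ext h h')
    (fun ξ => norm_eq ξ)
  have h2 := key (fun ξ => ξ.im) (fun ξ => ξ.re) (fun ξ η h h' => Zsqrtd.ext h' h)
    (fun ξ => by rw [norm_eq]; ring)
  have hsub : axis N ⊆ ((circ N).filter fun ξ => ξ.re = 0) ∪ ((circ N).filter fun ξ => ξ.im = 0) := by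
    intro ξ hξ
    rw [axis, mem_filter] at hξ
    rw [mem_union, mem_filter, mem_filter]
    by_cases h : ξ.re = 0
    · exact Or.inl ⟨hξ.1, h⟩
    · right
      refine ⟨hξ.1, ?_⟩
      by_contra h'
      exact hξ.2 ⟨h, h'⟩
  have := (card_le_card hsub).trans (card_union_le _ _)
  omega

theorem card_circ (N : ℕ) : (circ N).card = 4 * (pts N).card + (axis N).card := by
  have h1 : (circ N).card = (off N).card + (axis N).card := by
    rw [off, axis, card_filter_add_card_filter_not]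
  have h2 := sum_off N (fun _ => 1)
  rw [sum_const, sum_const, nsmul_eq_mul, nsmul_eq_mul, mul_one, mul_one] at h2
  have h3 : (off N).card = 4 * (pts N).card := by exact_mod_cast h2
  rw [h1, h3]

theorem sum_circ (N : ℕ) (F : ℕ × ℕ → ℝ) : ∑ ξ ∈ circ N, F (ab ξ) =
    4 * ∑ p ∈ pts N, F p + ∑ ξ ∈ axis N, F (ab ξ) := by
  rw [← sum_off N F, off, axis, sum_filter_add_sum_filter_not]

end

end Pool.Agent.Zk91.SQ
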