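import Pool.Agent.Zk91.SQ.Defs
import Pool.Agent.N661.BR.Defs

/-!
# Gaussian integers on circles: modules M5 and M6
-/

set_option autoImplicit false

open Filter Topology

namespace Pool.Agent.Zk91.SQ

open Pool.Agent.N661.BR (J0)

noncomputable section

/-- M5: from the angular sums to the Bessel function. Proof: by the symmetry `y ↦ -y` of the circle
the sum is `∑ exp (i ⟨ξ / |ξ|, w⟩)`; expand `exp (i ⟨z, w⟩)` in its power series, truncated at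
degree `m` (tail uniformly small for `‖w‖ ≤ ρ`);
`⟨z, w⟩ ^ l = 2 ^ (-l) ∑_j choose l j (conj z * w) ^ j (z * conj w) ^ (l - j)`, so for unimodular
`z` it is a combination of the `z ^ d`, `|d| ≤ l`, with coefficients of total size `≤ |w| ^ l`; the
average of `z ^ d` over the circle of the lattice points is `0` unless `4 ∣ d` (symmetry `ξ ↦ i ξ`),
is `1` for `d = 0`, and is at most `δ` for `d = ± 4 k`; the average over the whole circle
(the same expansion of `J0`) is `0` for `d ≠ 0`. -/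
def S_M5 : Prop := ∀ ρ ε : ℝ, 0 < ε → ∃ m : ℕ, ∃ δ : ℝ, 0 < δ ∧ ∀ N : ℕ, 0 < N →
  (circ N).Nonempty → (∀ k : ℕ, 0 < k → k ≤ m → ‖A k N‖ ≤ δ * (circ N).card) →
  ∀ w : ℂ, ‖w‖ ≤ ρ →
    |(1 / ((circ N).card : ℝ)) * ∑ ξ ∈ circ N,
      (Real.cos ((ξ.re : ℝ) / √(N : ℝ) * w.re) * Real.cos ((ξ.im : ℝ) / √(N : ℝ) * w.im)) -
      J0 ‖w‖| ≤ ε

/-- M6: small angular sums force many points. Proof (Fejér): with `z_ξ = psi 1 ξ` (unimodular,
`psi k ξ = z_ξ ^ k`), `∑_{j,l ≤ m} ‖∑_ξ z_ξ ^ (j - l)‖² = ∑_{ξ,η} ‖∑_{j ≤ m} (z_ξ conj z_η) ^ j‖²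
≥ card * (m + 1)²`, and the left side is at most
`(m + 1) card² + (m + 1) m δ² card²`. -/
def S_M6 : Prop := ∀ (m : ℕ) (δ : ℝ) (N : ℕ), 0 < N → (circ N).Nonempty →
  (∀ k : ℕ, 0 < k → k ≤ m → ‖A k N‖ ≤ δ * (circ N).card) →
    (m : ℝ) + 1 ≤ (circ N).card * (1 + m * δ ^ 2)

end

end Pool.Agent.Zk91.SQ
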