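import Pool.Agent.Zk91.SQ.Defs3

/-!
# The Neumann eigenfunctions of the square: modules B3 and B4
-/

set_option autoImplicit false

open MeasureTheory

namespace Pool.Agent.Zk91.SQ

noncomputable section

/-- `√2` for `m > 0`, `1` for `m = 0` -/
def cN (m : ℕ) : ℝ := if m = 0 then 1 else √2

/-- the product cosine functions with mean square one -/
def mn (a : ℝ) (p : ℕ × ℕ) (z : ℂ) : ℝ := cN p.1 * cN p.2 *
  (Real.cos (Real.pi / a * p.1 * z.re) * Real.cos (Real.pi / a * p.2 * z.im))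

/-- B3: orthogonality -/
def S_B3 : Prop := ∀ a : ℝ, 0 < a → ∀ p q : ℕ × ℕ,
  ∫ z in Sqa a, mn a p z * mn a q z = if p = q then a ^ 2 else 0

/-- B4: completeness (as for the sines, with the even extension) -/
def S_B4 : Prop := ∀ a : ℝ, 0 < a → ∀ f : ℂ → ℝ, MemLp f 2 (volume.restrict (Sqa a)) →
  (∀ p : ℕ × ℕ, ∫ z in Sqa a, f z * mn a p z = 0) → f =ᵐ[volume.restrict (Sqa a)] 0

end

end Pool.Agent.Zk91.SQ
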