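import Pool.Agent.N661.BR.Defs
import Pool.Agent.Zk91.SQ.Defs4

/-!
# The eigenfunctions of the square: module E
-/

set_option autoImplicit false

open MeasureTheory
open scoped ContDiff

namespace Pool.Agent.Zk91.SQ

open Pool.Agent.W745.RW (lap)

noncomputable section

/-- a combination of products; `φ = 0`: sines, `φ = π/2`: cosines -/
def comb (S : Finset (ℕ × ℕ)) (c : ℕ × ℕ → ℝ) (A φ : ℝ) (z : ℂ) : ℝ :=
  ∑ q ∈ S, c q * (Real.sin (A * q.1 * z.re + φ) * Real.sin (A * q.2 * z.im + φ))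

/-- E: smoothness, the Helmholtz equation, the boundary conditions on the lines
`Re z ∈ {0, a}`, `Im z ∈ {0, a}` -/
def S_E : Prop := ∀ (S : Finset (ℕ × ℕ)) (c : ℕ × ℕ → ℝ),
  (∀ A φ : ℝ, ContDiff ℝ ∞ (comb S c A φ)) ∧
  (∀ A φ lam : ℝ, (∀ q ∈ S, (A * q.1) ^ 2 + (A * q.2) ^ 2 = lam) →
    ∀ z, lap (comb S c A φ) z + lam * comb S c A φ z = 0) ∧
  (∀ a : ℝ, 0 < a → ∀ z : ℂ, (z.re = 0 ∨ z.re = a ∨ z.im = 0 ∨ z.im = a) →
    comb S c (Real.pi / a) 0 z = 0) ∧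
  (∀ a : ℝ, 0 < a → ∀ z : ℂ, (z.re = 0 ∨ z.re = a) →
    fderiv ℝ (comb S c (Real.pi / a) (Real.pi / 2)) z 1 = 0) ∧
  (∀ a : ℝ, 0 < a → ∀ z : ℂ, (z.im = 0 ∨ z.im = a) →
    fderiv ℝ (comb S c (Real.pi / a) (Real.pi / 2)) z Complex.I = 0)

end

end Pool.Agent.Zk91.SQ
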