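import Pool.Agent.Zk91.SQ.Defs6
import Pool.Agent.N661.BR.Defs

/-!
# The rescaled functions as continuous functions: modules W7 and W8
-/

set_option autoImplicit false

open MeasureTheory Filter Topology

namespace Pool.Agent.Zk91.SQ

open Pool.Agent.N661.BR (resc IsCutoff)

noncomputable section

/-- W7: a cut-off is Lipschitz on `[0, ∞)` (smooth on the compact interval `[0, 1]`, zero beyond) -/
def S_W7 : Prop := ∀ χ : ℝ → ℝ, IsCutoff χ → ∃ L : ℝ, 0 < L ∧ ∀ s t : ℝ, 0 ≤ s → 0 ≤ t →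
  |χ s - χ t| ≤ L * |s - t|

/-- W8: the rescaled functions are continuous (also if `infDist z (frontier Ω) = 0`: then the
argument of `χ` is `0`), and on `Ω` they depend continuously on `z` (`ContinuousMap.curry`) -/
def S_W8 : Prop := ∀ χ : ℝ → ℝ, IsCutoff χ → ∀ Ω : Set ℂ, IsOpen Ω → Bornology.IsBounded Ω →
  ∀ (lam : ℝ), 0 < lam → ∀ u : ℂ → ℝ, Continuous u →
  ∃ g : ℂ → C(ℂ, ℝ), (∀ z w, g z w = resc χ Ω lam u z w) ∧ ContinuousOn g Ω

end

end Pool.Agent.Zk91.SQ
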