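import Pool.Agent.Zk91.SQ.Defs7

/-!
# The law of the random wave is concentrated on `MW`: modules V1, V2, V3
-/

set_option autoImplicit false

open MeasureTheory Filter Topology ProbabilityTheory
open scoped ContDiff

namespace Pool.Agent.Zk91.SQ

open Pool.Agent.N661.BR (J0)
open Pool.Agent.W745.RW (lap)

noncomputable section

/-- V1: a smooth kernel which reproduces `J0 ‖x‖`. Proof: `K y = c * ψ (‖y‖ ^ 2)` with a smooth bump,
`c` such that `∫ K y cos y.re = 1` (support in a ball of radius `1`, where the cosine is positive).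
`J0 ‖x‖` is the mean of `cos (e · x)` over the unit vectors `e`; for every unit vector `e`,
`∫ K y cos (e · (x - y)) dy = cos (e · x)` (rotation, `K` even), and two integrations by parts give
`∫ lap K y cos (e · (x - y)) dy = - cos (e · x)`. -/
def S_V1 : Prop := ∃ K : ℂ → ℝ, ContDiff ℝ ∞ K ∧ HasCompactSupport K ∧
  (∀ x : ℂ, ∫ y : ℂ, K y * J0 ‖x - y‖ = J0 ‖x‖) ∧
  ∀ x : ℂ, ∫ y : ℂ, lap K y * J0 ‖x - y‖ = -J0 ‖x‖

/-- V2: if a kernel reproduces the covariance up to the factor `c`, it reproduces almost all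
functions. Proof: `∫ f x f y dμ = J0 ‖x - y‖` (from the law of `f x + f y`), so
`∫ (∫ K y f (w - y) dy - c f w)² dμ = 0` by Fubini; for almost all `f` this holds for all `w` with
rational coordinates, hence for all `w` by continuity. -/
def S_V2 : Prop := ∀ μ : Measure C(ℂ, ℝ), IsProbabilityMeasure μ →
  (∀ (k : ℕ) (w : Fin k → ℂ) (t : Fin k → ℝ), μ.map (fun f => ∑ i, t i * f (w i)) =
    gaussianReal 0 (∑ i, ∑ j, t i * t j * J0 ‖w i - w j‖).toNNReal) →
  ∀ (K : ℂ → ℝ) (c : ℝ), Continuous K → HasCompactSupport K →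
    (∀ x : ℂ, ∫ y : ℂ, K y * J0 ‖x - y‖ = c * J0 ‖x‖) →
    ∀ᵐ f ∂μ, ∀ w : ℂ, ∫ y : ℂ, K y * f (w - y) = c * f w

/-- V3: reproduced continuous functions are smooth solutions (`HasCompactSupport.contDiff_convolution_left`
and the derivatives of a convolution) -/
def S_V3 : Prop := ∀ K : ℂ → ℝ, ContDiff ℝ ∞ K → HasCompactSupport K → ∀ f : ℂ → ℝ, Continuous f →
  (∀ w : ℂ, ∫ y : ℂ, K y * f (w - y) = f w) → (∀ w : ℂ, ∫ y : ℂ, lap K y * f (w - y) = -f w) →
    ContDiff ℝ ∞ f ∧ ∀ z, lap f z + f z = 0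

end

end Pool.Agent.Zk91.SQ
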