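import Pool.Agent.Zk91.SQ.Cnt

/-!
# The diagonal argument
-/

set_option autoImplicit false

open Filter Topology Finset

namespace Pool.Agent.Zk91.SQ

noncomputable section

theorem tri_card_le (X : ℕ) : (tri X).card ≤ X := by
  have h : tri X ⊆ Icc 1 (Nat.sqrt X) ×ˢ Icc 1 (Nat.sqrt X) := by
    intro p hp
    obtain ⟨h1, h2, h3⟩ := mem_tri.1 hp
    have h4 : p.1 ^ 2 + p.2 ^ 2 ≤ X := h3
    rw [mem_product, mem_Icc, mem_Icc]
    refine ⟨⟨h1, Nat.le_sqrt.2 (by nlinarith)⟩, h2, Nat.le_sqrt.2 (by nlinarith)⟩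
  have h2 := card_le_card h
  rw [card_product, Nat.card_Icc, Nat.add_sub_cancel] at h2
  exact h2.trans (Nat.sqrt_le X)

theorem tri_card_ge (X : ℕ) (hX : 2 ≤ X) : X ≤ 8 * (tri X).card := by
  set s := Nat.sqrt (X / 2) with hs
  have h1 : s * s ≤ X / 2 := Nat.sqrt_le _
  have h2 : X / 2 < (s + 1) * (s + 1) := Nat.lt_succ_sqrt (X / 2)
  have hs1 : 1 ≤ s := by
    rw [hs]
    exact Nat.le_sqrt.2 (by omega)
  have h : Icc 1 s ×ˢ Icc 1 s ⊆ tri X := by
    intro p hp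
    rw [mem_product, mem_Icc, mem_Icc] at hp
    rw [mem_tri]
    refine ⟨hp.1.1, hp.2.1, ?_⟩
    unfold nrm
    have a1 : p.1 * p.1 ≤ s * s := Nat.mul_le_mul hp.1.2 hp.1.2
    have a2 : p.2 * p.2 ≤ s * s := Nat.mul_le_mul hp.2.2 hp.2.2
    rw [sq, sq]
    omega
  have h3 := card_le_card h
  rw [card_product, Nat.card_Icc, Nat.add_sub_cancel] at h3
  have h4 : (s + 1) * (s + 1) ≤ 4 * (s * s) := by nlinarith
  omega

theorem tri_mono {X Y : ℕ} (h : X ≤ Y) : tri X ⊆ tri Y := by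
  intro p hp
  rw [mem_tri] at hp ⊢
  exact ⟨hp.1, hp.2.1, hp.2.2.trans h⟩

/-- the diagonal argument -/
theorem diag (Q : ℕ → ℕ → Prop) (hQ : ∀ (L : ℕ) (ε : ℝ), 0 < ε → ∀ᶠ X : ℕ in atTop,
      (cnt X (fun p => ¬ Q L (nrm p)) : ℝ) ≤ ε * X) :
    ∃ h : ℕ → ℕ, Tendsto h atTop atTop ∧ ∀ ε : ℝ, 0 < ε → ∀ᶠ X : ℕ in atTop,
      (cnt X (fun p => ¬ Q (h (nrm p)) (nrm p)) : ℝ) ≤ ε * X := by
  set Q' : ℕ → ℕ → Prop := fun L N => ∀ L' ≤ L, Q L' N with hQ'
  have h1 : ∀ (L : ℕ) (ε : ℝ), 0 < ε → ∀ᶠ X : ℕ in atTop,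
      (cnt X (fun p => ¬ Q' L (nrm p)) : ℝ) ≤ ε * X := by
    intro L ε hε
    have hall : ∀ᶠ X : ℕ in atTop, ∀ l ∈ range (L + 1),
        (cnt X (fun p => ¬ Q l (nrm p)) : ℝ) ≤ (ε / (L + 1)) * X := by
      rw [Filter.eventually_all_finset]
      intro l _
      exact hQ l _ (by positivity)
    filter_upwards [hall] with X hX
    have hcard : (cnt X (fun p => ¬ Q' L (nrm p)) : ℝ) ≤
        ∑ l ∈ range (L + 1), (cnt X (fun p => ¬ Q l (nrm p)) : ℝ) := by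
      have h := (cnt_mono (X := X) (B := fun p => ¬ Q' L (nrm p))
        (B' := fun p => ∃ l < L + 1, ¬ Q l (nrm p)) (fun p _ hp => by
          simp only [hQ', not_forall, exists_prop] at hp
          obtain ⟨l, hl, hp2⟩ := hp
          exact ⟨l, by omega, hp2⟩)).trans (cnt_exists X (L + 1) fun l p => ¬ Q l (nrm p))
      exact_mod_cast h
    refine hcard.trans ((sum_le_sum hX).trans (le_of_eq ?_))
    rw [sum_const, card_range, nsmul_eq_mul]
    push_cast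
    field_simp
  have h2 : ∀ L : ℕ, ∃ Y : ℕ, ∀ X, Y ≤ X →
      (cnt X (fun p => ¬ Q' L (nrm p)) : ℝ) ≤ (1 / ((L : ℝ) + 1)) * X := fun L =>
    eventually_atTop.1 (h1 L _ (by positivity))
  choose Y hY using h2
  set Z : ℕ → ℕ := fun L => ∑ j ∈ range (L + 1), (Y j + 1) with hZ
  have hYZ : ∀ L, Y L ≤ Z L := fun L => by
    have := single_le_sum (f := fun j => Y j + 1) (fun j _ => Nat.zero_le _)
      (self_mem_range_succ L)
    exact (Nat.le_succ _).trans this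
  have hLZ : ∀ L, L ≤ Z L := fun L => by
    have : ∑ _j ∈ range (L + 1), 1 ≤ Z L := sum_le_sum fun j _ => by omega
    rw [sum_const, card_range, smul_eq_mul, mul_one] at this
    omega
  set h : ℕ → ℕ := fun N => Nat.findGreatest (fun L => Z L ≤ N) N with hh
  have hge : ∀ L N, Z L ≤ N → L ≤ h N := fun L N hLN =>
    Nat.le_findGreatest ((hLZ L).trans hLN) hLN
  have hspec : ∀ N, Z 0 ≤ N → Z (h N) ≤ N := fun N hN =>
    Nat.findGreatest_spec (P := fun L => Z L ≤ N) (Nat.zero_le N) hN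
  have hmono : ∀ N N', N ≤ N' → h N ≤ h N' := by
    intro N N' hNN
    by_cases hN : Z 0 ≤ N
    · exact hge _ _ ((hspec N hN).trans hNN)
    · have : h N = 0 := by
        rw [hh]
        simp only
        rw [Nat.findGreatest_eq_zero_iff]
        intro n hn0 hnN hZn
        refine hN (le_trans ?_ hZn)
        exact sum_le_sum_of_subset_of_nonneg (range_mono (by omega)) fun _ _ _ => Nat.zero_le _
      rw [this]
      exact Nat.zero_le _
  have htend : Tendsto h atTop atTop :=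
    tendsto_atTop.2 fun L => eventually_atTop.2 ⟨Z L, fun N hN => hge L N hN⟩
  refine ⟨h, htend, fun ε hε => ?_⟩
  have h3 : ∀ᶠ X : ℕ in atTop, 1 / ((h X : ℝ) + 1) ≤ ε := by
    have h4 : Tendsto (fun X => 1 / ((h X : ℝ) + 1)) atTop (𝓝 0) :=
      tendsto_one_div_add_atTop_nhds_zero_nat.comp htend
    exact h4.eventually (ge_mem_nhds hε)
  filter_upwards [h3, eventually_ge_atTop (Z 0)] with X hX hX0
  have h5 := hY (h X) X ((hYZ _).trans (hspec X hX0))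
  have h6 : cnt X (fun p => ¬ Q (h (nrm p)) (nrm p)) ≤ cnt X (fun p => ¬ Q' (h X) (nrm p)) :=
    cnt_mono fun p hp hc hc' => hc (hc' _ (hmono _ _ (mem_tri.1 hp).2.2))
  calc (cnt X (fun p => ¬ Q (h (nrm p)) (nrm p)) : ℝ)
      ≤ (cnt X (fun p => ¬ Q' (h X) (nrm p)) : ℝ) := by exact_mod_cast h6
    _ ≤ (1 / ((h X : ℝ) + 1)) * X := h5
    _ ≤ ε * X := mul_le_mul_of_nonneg_right hX (Nat.cast_nonneg _)

end

end Pool.Agent.Zk91.SQ
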