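import Pool.Agent.Zk91.SQ.Ext
import Pool.Agent.Zk91.SQ.Defs5

/-!
# The square
-/

set_option autoImplicit false

open Filter Topology MeasureTheory

namespace Pool.Agent.Zk91.SQ

open Pool.Agent.Zk91.KB (Orth mode)

noncomputable section

theorem sqa_open (a : ℝ) : IsOpen (Sqa a) := by
  unfold Sqa
  refine ((isOpen_lt continuous_const Complex.continuous_re).inter
    (isOpen_lt Complex.continuous_re continuous_const)).inter
    ((isOpen_lt continuous_const Complex.continuous_im).inter
    (isOpen_lt Complex.continuous_im continuous_const))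

theorem sqa_bdd (a : ℝ) : Bornology.IsBounded (Sqa a) := by
  rw [Metric.isBounded_iff_subset_closedBall 0]
  refine ⟨2 * |a|, fun z hz => ?_⟩
  rw [mem_closedBall_zero_iff]
  refine (Complex.norm_le_abs_re_add_abs_im z).trans ?_
  have h1 : |z.re| ≤ |a| := by
    rw [abs_of_pos hz.1.1]
    exact hz.1.2.le.trans (le_abs_self a)
  have h2 : |z.im| ≤ |a| := by
    rw [abs_of_pos hz.2.1]
    exact hz.2.2.le.trans (le_abs_self a)
  linarith

theorem sqa_ne (a : ℝ) (ha : 0 < a) : (Sqa a).Nonempty :=
  ⟨⟨a / 2, a / 2⟩, ⟨by show 0 < a / 2; linarith, by show a / 2 < a; linarith⟩,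
    by show 0 < a / 2; linarith, by show a / 2 < a; linarith⟩

theorem sqa_convex (a : ℝ) : Convex ℝ (Sqa a) := by
  intro x hx y hy s t hs ht hst
  have key : ∀ u v : ℝ, 0 < u → u < a → 0 < v → v < a → 0 < s * u + t * v ∧ s * u + t * v < a := by
    intro u v h1 h2 h3 h4
    have ht' : t = 1 - s := by linarith
    subst ht'
    rcases hs.eq_or_lt with h | h
    · subst h
      constructor <;> linarith
    · constructor
      · have := mul_pos h h1
        have := mul_nonneg ht h3.le
        linarith
      · have h5 := mul_lt_mul_of_pos_left h2 h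
        have h6 := mul_le_mul_of_nonneg_left h4.le ht
        have : s * a + (1 - s) * a = a := by ring
        linarith
  have e1 : (s • x + t • y).re = s * x.re + t * y.re := by simp
  have e2 : (s • x + t • y).im = s * x.im + t * y.im := by simp
  unfold Sqa
  simp only [Set.mem_setOf_eq, e1, e2]
  exact ⟨key _ _ hx.1.1 hx.1.2 hy.1.1 hy.1.2, key _ _ hx.2.1 hx.2.2 hy.2.1 hy.2.2⟩

theorem sqa_vol (h : S_B3) (a : ℝ) (ha : 0 < a) : volume.real (Sqa a) = a ^ 2 := by
  have h1 := h a ha (0, 0) (0, 0)
  rw [if_pos rfl] at h1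
  have e : ∀ z, mn a (0, 0) z * mn a (0, 0) z = 1 := by
    intro z
    unfold mn cN
    simp
  simp only [e] at h1
  rw [← h1]
  simp

theorem cont_md (a : ℝ) (p : ℕ × ℕ) : Continuous (md a p) := by
  unfold md
  fun_prop

theorem cont_mn (a : ℝ) (p : ℕ × ℕ) : Continuous (mn a p) := by
  unfold mn
  fun_prop

theorem int_prod (f g : ℂ → ℝ) (hf : Continuous f) (hg : Continuous g) (a : ℝ) :
    IntegrableOn (fun z => f z * g z) (Sqa a) := by
  have h1 : IsCompact (closure (Sqa a)) := (sqa_bdd a).isCompact_closure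
  exact ((hf.mul hg).continuousOn.integrableOn_compact h1).mono_set subset_closure

theorem int_L2 (f g : ℂ → ℝ) (a : ℝ) (hf : MemLp f 2 (volume.restrict (Sqa a)))
    (hg : Continuous g) : IntegrableOn (fun z => f z * g z) (Sqa a) := by
  have h1 : IsCompact (closure (Sqa a)) := (sqa_bdd a).isCompact_closure
  obtain ⟨C, hC⟩ := h1.exists_bound_of_continuousOn hg.continuousOn
  have hfin : IsFiniteMeasure (volume.restrict (Sqa a)) :=
    ⟨by rw [Measure.restrict_apply_univ]; exact (sqa_bdd a).measure_lt_top⟩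
  have h2 : MemLp g 2 (volume.restrict (Sqa a)) := by
    refine MemLp.of_bound hg.aestronglyMeasurable C ?_
    rw [ae_restrict_iff' (sqa_open a).measurableSet]
    exact ae_of_all _ fun z hz => hC z (subset_closure hz)
  exact MemLp.integrable_mul hf h2

end

end Pool.Agent.Zk91.SQ
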