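import Pool.Agent.Zk91.SQ.Fin

/-!
# The two boundary conditions
-/

set_option autoImplicit false

open Filter Topology MeasureTheory
open scoped ContDiff

namespace Pool.Agent.Zk91.SQ

open Pool.Agent.Zk91.KB (Orth mode)
open Pool.Agent.W745.RW (lap)

noncomputable section

/-- the Dirichlet condition on the lines through the sides of the square -/
def Dirichlet (a : ℝ) (u : ℂ → ℝ) : Prop :=
  ∀ z : ℂ, (z.re = 0 ∨ z.re = a ∨ z.im = 0 ∨ z.im = a) → u z = 0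

/-- the Neumann condition on the lines through the sides of the square -/
def Neumann (a : ℝ) (u : ℂ → ℝ) : Prop :=
  (∀ z : ℂ, (z.re = 0 ∨ z.re = a) → fderiv ℝ u z 1 = 0) ∧
  (∀ z : ℂ, (z.im = 0 ∨ z.im = a) → fderiv ℝ u z Complex.I = 0)

theorem tr_md (a : ℝ) (O : ℕ × ℕ → ℕ × ℕ → ℝ) (p : ℕ × ℕ) :
    tr pts O (md a) p = comb (pts (nrm p)) (fun q => O p q * 2) (Real.pi / a) 0 := by
  funext z
  unfold tr comb md
  refine Finset.sum_congr rfl fun q _ => ?_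
  rw [add_zero, add_zero]
  ring

theorem tr_mn (a : ℝ) (O : ℕ × ℕ → ℕ × ℕ → ℝ) (p : ℕ × ℕ) :
    tr ptsA O (mn a) p = comb (ptsA (nrm p)) (fun q => O p q * (cN q.1 * cN q.2)) (Real.pi / a)
      (Real.pi / 2) := by
  funext z
  unfold tr comb mn
  refine Finset.sum_congr rfl fun q _ => ?_
  rw [Real.sin_add_pi_div_two, Real.sin_add_pi_div_two]
  ring

theorem energy (A : ℝ) (q : ℕ × ℕ) (N : ℕ) (h : nrm q = N) :
    (A * (q.1 : ℝ)) ^ 2 + (A * (q.2 : ℝ)) ^ 2 = A ^ 2 * N := by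
  have h' : (q.1 : ℝ) ^ 2 + (q.2 : ℝ) ^ 2 = N := by
    have : q.1 ^ 2 + q.2 ^ 2 = N := h
    exact_mod_cast this
  rw [mul_pow, mul_pow, ← mul_add, h']

theorem dirichlet (h1 : S_M1) (h2 : S_M2) (h3 : S_M3) (h4 : S_M4) (h5 : S_M5) (h6 : S_M6)
    (hB1 : S_B1) (hB2 : S_B2) (hB3 : S_B3) (hE : S_E) (a : ℝ) (ha : 0 < a) :
    Concl a (Dirichlet a) := by
  obtain ⟨O, D, hO, hD, hW⟩ := main h1 h2 h3 h4 h5 h6 (Real.pi / a) (by positivity)
  refine concl (I := pos) (T := pts) (b := md a) (O := O) hB3 ha mem_pts' hO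
    (fun p hp q hq => hB1 a ha p q hp.1 hp.2 hq.1 hq.2) (cont_md a)
    (fun f hf h0 => hB2 a ha f hf fun p hp1 hp2 => h0 p ⟨hp1, hp2⟩) D hD subset_rfl
    (fun p => ?_) (fun k ρ ε hε => ?_)
  · rw [tr_md]
    obtain ⟨e1, e2, e3, -, -⟩ := hE (pts (nrm p)) (fun q => O p q * 2)
    exact ⟨e1 _ _, e2 _ _ _ fun q hq => energy _ q _ (mem_pts.1 hq).2.2, e3 a ha⟩
  · obtain ⟨N0, hN0⟩ := hW k ρ ε hε
    refine ⟨N0, fun p hp hpN => ?_⟩
    have h := hN0 p hp.1 hpN 0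
    have e : tr pts O (md a) p = fun z => ∑ q ∈ pts (nrm p), O p q *
        mode 0 (Real.pi / a) (Real.pi / a) q z := by
      funext z
      unfold tr
      exact Finset.sum_congr rfl fun q _ => by rw [md_eq]
    rw [e]
    exact h

theorem neumann (h1 : S_M1) (h2 : S_M2) (h3 : S_M3) (h4 : S_M4) (h5 : S_M5) (h6 : S_M6)
    (hB3 : S_B3) (hB4 : S_B4) (hE : S_E) (a : ℝ) (ha : 0 < a) :
    Concl a (Neumann a) := by
  obtain ⟨O, D, hO, hD, hW⟩ := main h1 h2 h3 h4 h5 h6 (Real.pi / a) (by positivity)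
  refine concl (I := Set.univ) (T := ptsA) (b := mn a) (O := ext O) hB3 ha mem_ptsA (orth_ext hO)
    (fun p _ q _ => hB3 a ha p q) (cont_mn a)
    (fun f hf h0 => hB4 a ha f hf fun p => h0 p (Set.mem_univ p)) D hD (Set.subset_univ _)
    (fun p => ?_) (fun k ρ ε hε => ?_)
  · rw [tr_mn]
    obtain ⟨e1, e2, -, e4, e5⟩ := hE (ptsA (nrm p)) (fun q => ext O p q * (cN q.1 * cN q.2))
    exact ⟨e1 _ _, e2 _ _ _ fun q hq => energy _ q _ ((mem_ptsA _ q).1 hq).2, e4 a ha, e5 a ha⟩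
  · obtain ⟨N0, hN0⟩ := hW k ρ ε hε
    refine ⟨N0, fun p hp hpN => ?_⟩
    have h := hN0 p hp.1 hpN (Real.pi / 2)
    have e : tr ptsA (ext O) (mn a) p = fun z => ∑ q ∈ pts (nrm p), O p q *
        mode (Real.pi / 2) (Real.pi / a) (Real.pi / a) q z := by
      funext z
      unfold tr
      rw [sum_ext (nrm p) p ((mem_pts' _ p).2 ⟨hp.2, rfl⟩) (fun q => mn a q z)]
      exact Finset.sum_congr rfl fun q hq => by rw [mn_eq a q ((mem_pts' _ q).1 hq).1]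
    rw [e]
    exact h

end

end Pool.Agent.Zk91.SQ
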