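import Pool.Agent.Zk91.SQ.Fin2
import Pool.Agent.Zk91.SQ.End

/-!
# The two boundary conditions: weak convergence
-/

set_option autoImplicit false

open Filter Topology MeasureTheory ProbabilityTheory
open scoped ContDiff

namespace Pool.Agent.Zk91.SQ

open Pool.Agent.Zk91.KB (Orth mode)
open Pool.Agent.W745.RW (lap)
open Pool.Agent.Zk60.BW (QQ QQ_nonneg)
open Pool.Agent.N661.BR (J0 resc IsCutoff)

noncomputable section

/-- the properties of the eigenfunctions -/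
def Pr (BC : (ℂ → ℝ) → Prop) (lam : ℝ) (u : ℂ → ℝ) : Prop :=
  ContDiff ℝ ∞ u ∧ (∀ z, lap u z + lam * u z = 0) ∧ BC u ∧
    (0 < lam → ∀ z, kp * u z = ∫ y : ℂ, T0 y * u (z + y / ((√lam : ℝ) : ℂ)))

theorem core_dirichlet (h1 : S_M1) (h2 : S_M2) (h3 : S_M3) (h4 : S_M4) (h5 : S_M5) (h6 : S_M6)
    (hB1 : S_B1) (hB2 : S_B2) (hB3 : S_B3) (hE : S_E) (hW1 : S_W1) (a : ℝ) (ha : 0 < a) :
    ∃ lam u σ, Core a (Pr (Dirichlet a)) lam u σ := by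
  obtain ⟨O, D, hO, hD, hW⟩ := main h1 h2 h3 h4 h5 h6 (Real.pi / a) (by positivity)
  refine core (I := pos) (T := pts) (b := md a) (O := O) hB3 ha mem_pts' hO
    (fun p hp q hq => hB1 a ha p q hp.1 hp.2 hq.1 hq.2) (cont_md a)
    (fun f hf h0 => hB2 a ha f hf fun p hp1 hp2 => h0 p ⟨hp1, hp2⟩) D hD subset_rfl
    (fun p => ?_) (fun k ρ ε hε => ?_)
  · rw [tr_md]
    obtain ⟨e1, e2, e3, -, -⟩ := hE (pts (nrm p)) (fun q => O p q * 2)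
    have hen : ∀ q ∈ pts (nrm p), (Real.pi / a * (q.1 : ℝ)) ^ 2 + (Real.pi / a * (q.2 : ℝ)) ^ 2 =
        (Real.pi / a) ^ 2 * nrm p := fun q hq => energy _ q _ (mem_pts.1 hq).2.2
    exact ⟨e1 _ _, e2 _ _ _ hen, e3 a ha, fun hl z => mv_comb hW1 _ _ _ _ _ hl hen z⟩
  · obtain ⟨N0, hN0⟩ := hW k ρ ε hε
    refine ⟨N0, fun p hp hpN => ?_⟩
    have h := hN0 p hp.1 hpN 0
    have e : tr pts O (md a) p = fun z => ∑ q ∈ pts (nrm p), O p q *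
        mode 0 (Real.pi / a) (Real.pi / a) q z := by
      funext z
      unfold tr
      exact Finset.sum_congr rfl fun q _ => by rw [md_eq]
    rw [e]
    exact h

theorem core_neumann (h1 : S_M1) (h2 : S_M2) (h3 : S_M3) (h4 : S_M4) (h5 : S_M5) (h6 : S_M6)
    (hB3 : S_B3) (hB4 : S_B4) (hE : S_E) (hW1 : S_W1) (a : ℝ) (ha : 0 < a) :
    ∃ lam u σ, Core a (Pr (Neumann a)) lam u σ := by
  obtain ⟨O, D, hO, hD, hW⟩ := main h1 h2 h3 h4 h5 h6 (Real.pi / a) (by positivity)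
  refine core (I := Set.univ) (T := ptsA) (b := mn a) (O := ext O) hB3 ha mem_ptsA (orth_ext hO)
    (fun p _ q _ => hB3 a ha p q) (cont_mn a)
    (fun f hf h0 => hB4 a ha f hf fun p => h0 p (Set.mem_univ p)) D hD (Set.subset_univ _)
    (fun p => ?_) (fun k ρ ε hε => ?_)
  · rw [tr_mn]
    obtain ⟨e1, e2, -, e4, e5⟩ := hE (ptsA (nrm p)) (fun q => ext O p q * (cN q.1 * cN q.2))
    have hen : ∀ q ∈ ptsA (nrm p), (Real.pi / a * (q.1 : ℝ)) ^ 2 + (Real.pi / a * (q.2 : ℝ)) ^ 2 =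
        (Real.pi / a) ^ 2 * nrm p := fun q hq => energy _ q _ ((mem_ptsA _ q).1 hq).2
    exact ⟨e1 _ _, e2 _ _ _ hen, ⟨e4 a ha, e5 a ha⟩, fun hl z => mv_comb hW1 _ _ _ _ _ hl hen z⟩
  · obtain ⟨N0, hN0⟩ := hW k ρ ε hε
    refine ⟨N0, fun p hp hpN => ?_⟩
    have h := hN0 p hp.1 hpN (Real.pi / 2)
    have e : tr ptsA (ext O) (mn a) p = fun z => ∑ q ∈ pts (nrm p), O p q *
        mode (Real.pi / 2) (Real.pi / a) (Real.pi / a) q z := by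
      funext z
      unfold tr
      rw [sum_ext (nrm p) p ((mem_pts' _ p).2 ⟨hp.2, rfl⟩) (fun q => mn a q z)]
      exact Finset.sum_congr rfl fun q hq => by rw [mn_eq a q ((mem_pts' _ q).1 hq).1]
    rw [e]
    exact h

/-- weak convergence of the local measures to `μ`, for all cut-offs -/
def WeakTo (a : ℝ) (lam : ℕ → ℝ) (u : ℕ → ℂ → ℝ) (μ : Measure C(ℂ, ℝ)) : Prop :=
  ∀ χ : ℝ → ℝ, IsCutoff χ → ∀ g : ℕ → ℂ → C(ℂ, ℝ),
    (∀ j z w, g j z w = resc χ (Sqa a) (lam j) (u j) z w) →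
    ∀ F : C(ℂ, ℝ) → ℝ, Continuous F → (∃ B : ℝ, ∀ f, |F f| ≤ B) →
      Tendsto (fun j => (1 / volume.real (Sqa a) : ℝ) * ∫ z in Sqa a, F (g j z)) atTop
        (𝓝 (∫ f, F f ∂μ))

theorem weakTo (hB3 : S_B3) (hW1 : S_W1) (hW2 : S_W2) (hW3 : S_W3) (hW4 : S_W4) (hW5 : S_W5)
    (hW7 : S_W7) (hW8 : S_W8) (a : ℝ) (ha : 0 < a) (BC : (ℂ → ℝ) → Prop) (lam : ℕ → ℝ)
    (u : ℕ → ℂ → ℝ) (σ : ℕ → ℕ) (hC : Core a (Pr BC) lam u σ) :
    ∃ μ : Measure C(ℂ, ℝ), IsProbabilityMeasure μ ∧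
      (∀ (k : ℕ) (w : Fin k → ℂ) (t : Fin k → ℝ),
        chf μ w t = ((Real.exp (-(QQ w t) / 2) : ℝ) : ℂ)) ∧
      WeakTo a (fun j => lam (σ j)) (fun j => u (σ j)) μ := by
  obtain ⟨c1, c2, c3, c4, c5, c6, c7, c8, c9⟩ := hC
  have hv : 0 < volume.real (Sqa a) := by
    rw [sqa_vol hB3 a ha]
    positivity
  have hcont : ∀ j, Continuous (u (σ j)) := fun j => (c3 (σ j)).1.continuous
  have hwb := window_bound (Sqa a) (sqa_convex a) (sqa_bdd a) hv (fun j => lam (σ j))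
    (fun j => u (σ j)) c9
  have key : ∀ χ : ℝ → ℝ, IsCutoff χ → ∃ μ : Measure C(ℂ, ℝ), IsProbabilityMeasure μ ∧
      (∀ (k : ℕ) (w : Fin k → ℂ) (t : Fin k → ℝ),
        chf μ w t = ((Real.exp (-(QQ w t) / 2) : ℝ) : ℂ)) ∧
      ∀ g : ℕ → ℂ → C(ℂ, ℝ), (∀ j z w, g j z w = resc χ (Sqa a) (lam (σ j)) (u (σ j)) z w) →
        ∀ F : C(ℂ, ℝ) → ℝ, Continuous F → (∃ B : ℝ, ∀ f, |F f| ≤ B) →
        Tendsto (fun j => (1 / volume.real (Sqa a) : ℝ) * ∫ z in Sqa a, F (g j z)) atTop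
          (𝓝 (∫ f, F f ∂μ)) := fun χ hχ =>
    weak hW2 hW3 hW4 hW5 hW7 hW8 hW1.1 χ hχ (Sqa a) (sqa_open a) (sqa_ne a ha) (sqa_bdd a)
      (fun j => lam (σ j)) c8 (fun j => u (σ j)) hcont (fun j hj => (c3 (σ j)).2.2.2 hj)
      (2 * volume.real (Sqa a)) (by positivity) hwb
      (local_lim hB3 ha _ c8 _ hcont c9 χ hχ).1
  obtain ⟨χ0, hχ0⟩ := exists_cutoff
  obtain ⟨μ, m1, m2, -⟩ := key χ0 hχ0
  refine ⟨μ, m1, m2, fun χ hχ => ?_⟩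
  obtain ⟨μ', n1, n2, n3⟩ := key χ hχ
  have : μ' = μ := hW4 μ' μ n1 m1 fun k w t => by rw [n2, m2]
  rw [← this]
  exact n3

end

end Pool.Agent.Zk91.SQ
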