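import Pool.Agent.Zk91.SQ.End2

/-!
# The final form
-/

set_option autoImplicit false

open Filter Topology MeasureTheory ProbabilityTheory
open scoped ContDiff

namespace Pool.Agent.Zk91.SQ

open Pool.Agent.W745.RW (lap)
open Pool.Agent.Zk60.BW (QQ QQ_nonneg)
open Pool.Agent.N661.BR (J0 resc IsCutoff)

noncomputable section

theorem cont_resc (χ : ℝ → ℝ) (hχ : IsCutoff χ) (Ω : Set ℂ) (lam : ℝ) (u : ℂ → ℝ)
    (hu : Continuous u) (z : ℂ) : Continuous (resc χ Ω lam u z) := by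
  unfold resc
  refine (hu.comp (continuous_const.add (continuous_id.div_const _))).mul ?_
  exact hχ.smooth.continuousOn.comp_continuous (continuous_norm.div_const _) fun w =>
    Set.mem_Ici.2 (div_nonneg (norm_nonneg _) (mul_nonneg (Real.sqrt_nonneg _)
      Metric.infDist_nonneg))

/-- the conclusion for one billiard -/
def Concl3 (a : ℝ) (BC : (ℂ → ℝ) → Prop) (μ : Measure C(ℂ, ℝ)) : Prop :=
  ∃ (lam : ℕ → ℝ) (u : ℕ → ℂ → ℝ), Monotone lam ∧ (∀ n, 0 ≤ lam n) ∧ (∀ n, ContDiff ℝ ∞ (u n)) ∧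
    (∀ n z, lap (u n) z + lam n * u n z = 0) ∧ (∀ n, BC (u n)) ∧
    (∀ n m, ∫ z in Sqa a, u n z * u m z = if n = m then volume.real (Sqa a) else 0) ∧
    (∀ f : ℂ → ℝ, MemLp f 2 (volume.restrict (Sqa a)) → (∀ n, ∫ z in Sqa a, f z * u n z = 0) →
      f =ᵐ[volume.restrict (Sqa a)] 0) ∧
    ∃ σ : ℕ → ℕ, StrictMono σ ∧
      Tendsto (fun N : ℕ => (Nat.card {j // σ j ≤ N} : ℝ) / N) atTop (𝓝 1) ∧
      (∀ (k : ℕ) (ρ ε : ℝ), 0 < ε → ∀ᶠ j in atTop, Wave k ρ ε (lam (σ j)) (u (σ j))) ∧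
      ∀ χ : ℝ → ℝ, IsCutoff χ →
        ∃ h : ∀ j z, Continuous (resc χ (Sqa a) (lam (σ j)) (u (σ j)) z),
          ∀ F : C(ℂ, ℝ) → ℝ, Continuous F → (∃ B : ℝ, ∀ f, |F f| ≤ B) →
            Tendsto (fun j => (1 / volume.real (Sqa a) : ℝ) * ∫ z in Sqa a,
              F ⟨resc χ (Sqa a) (lam (σ j)) (u (σ j)) z, h j z⟩) atTop (𝓝 (∫ f, F f ∂μ))

theorem concl3 (hB3 : S_B3) (hW1 : S_W1) (hW2 : S_W2) (hW3 : S_W3) (hW4 : S_W4) (hW5 : S_W5)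
    (hW7 : S_W7) (hW8 : S_W8) (a : ℝ) (ha : 0 < a) (BC : (ℂ → ℝ) → Prop)
    (hC : ∃ lam u σ, Core a (Pr BC) lam u σ) (μ : Measure C(ℂ, ℝ)) (hμ : IsProbabilityMeasure μ)
    (hμ2 : ∀ (k : ℕ) (w : Fin k → ℂ) (t : Fin k → ℝ),
      chf μ w t = ((Real.exp (-(QQ w t) / 2) : ℝ) : ℂ)) : Concl3 a BC μ := by
  obtain ⟨lam, u, σ, hC⟩ := hC
  obtain ⟨μ', n1, n2, n3⟩ := weakTo hB3 hW1 hW2 hW3 hW4 hW5 hW7 hW8 a ha BC lam u σ hC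
  obtain ⟨c1, c2, c3, c4, c5, c6, c7, c8, c9⟩ := hC
  have he : μ' = μ := hW4 μ' μ n1 hμ fun k w t => by rw [n2, hμ2]
  rw [he] at n3
  refine ⟨lam, u, c1, c2, fun n => (c3 n).1, fun n z => (c3 n).2.1 z, fun n => (c3 n).2.2.1, c4, c5,
    σ, c6, c7, c9, fun χ hχ => ?_⟩
  refine ⟨fun j z => cont_resc χ hχ _ _ _ (c3 (σ j)).1.continuous z, fun F hF hFb => ?_⟩
  exact n3 χ hχ _ (fun j z w => rfl) F hF hFb

theorem final (h1 : S_M1) (h2 : S_M2) (h3 : S_M3) (h4 : S_M4) (h5 : S_M5) (h6 : S_M6)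
    (hB1 : S_B1) (hB2 : S_B2) (hB3 : S_B3) (hB4 : S_B4) (hE : S_E) (hW1 : S_W1) (hW2 : S_W2)
    (hW3 : S_W3) (hW4 : S_W4) (hW5 : S_W5) (hW7 : S_W7) (hW8 : S_W8) :
    ∃ μ : Measure C(ℂ, ℝ), IsProbabilityMeasure μ ∧
      (∀ (k : ℕ) (w : Fin k → ℂ) (t : Fin k → ℝ),
        μ.map (fun f => ∑ i, t i * f (w i)) = gaussianReal 0 (QQ w t).toNNReal) ∧
      ∀ a : ℝ, 0 < a → Concl3 a (Dirichlet a) μ ∧ Concl3 a (Neumann a) μ := by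
  obtain ⟨lam, u, σ, hC⟩ := core_dirichlet h1 h2 h3 h4 h5 h6 hB1 hB2 hB3 hE hW1 1 one_pos
  obtain ⟨μ, m1, m2, -⟩ := weakTo hB3 hW1 hW2 hW3 hW4 hW5 hW7 hW8 1 one_pos _ lam u σ hC
  refine ⟨μ, m1, fun k w t => gauss_of_chf μ m1 m2 w t, fun a ha => ⟨?_, ?_⟩⟩
  · exact concl3 hB3 hW1 hW2 hW3 hW4 hW5 hW7 hW8 a ha _
      (core_dirichlet h1 h2 h3 h4 h5 h6 hB1 hB2 hB3 hE hW1 a ha) μ m1 m2
  · exact concl3 hB3 hW1 hW2 hW3 hW4 hW5 hW7 hW8 a ha _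
      (core_neumann h1 h2 h3 h4 h5 h6 hB3 hB4 hE hW1 a ha) μ m1 m2

end

end Pool.Agent.Zk91.SQ
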