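import Pool.Agent.Zk91.SQ.End3
import Pool.Agent.Zk91.SQ.Defs8

/-!
# The law of the random wave is a law on `MW`
-/

set_option autoImplicit false

open Filter Topology MeasureTheory ProbabilityTheory
open scoped ContDiff

namespace Pool.Agent.Zk91.SQ

open Pool.Agent.W745.RW (lap dx dy)
open Pool.Agent.Zk60.BW (QQ QQ_nonneg)
open Pool.Agent.N661.BR (J0 resc IsCutoff)

noncomputable section

theorem contDiff_fd (K : ℂ → ℝ) (hK : ContDiff ℝ ∞ K) (v : ℂ) :
    ContDiff ℝ ∞ (fun z => fderiv ℝ K z v) :=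
  (hK.fderiv_right (m := ∞) (by simp)).clm_apply contDiff_const

theorem lap_cont (K : ℂ → ℝ) (hK : ContDiff ℝ ∞ K) : Continuous (lap K) := by
  have h1 := (contDiff_fd _ (contDiff_fd K hK 1) 1).continuous
  have h2 := (contDiff_fd _ (contDiff_fd K hK Complex.I) Complex.I).continuous
  exact h1.add h2

theorem lap_supp (K : ℂ → ℝ) (hc : HasCompactSupport K) : HasCompactSupport (lap K) := by
  have h1 : HasCompactSupport (fun z => fderiv ℝ (fun y => fderiv ℝ K y 1) z 1) :=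
    (hc.fderiv_apply ℝ 1).fderiv_apply ℝ 1
  have h2 : HasCompactSupport (fun z => fderiv ℝ (fun y => fderiv ℝ K y Complex.I) z Complex.I) :=
    (hc.fderiv_apply ℝ Complex.I).fderiv_apply ℝ Complex.I
  exact h1.add h2

theorem onMW (hV1 : S_V1) (hV2 : S_V2) (hV3 : S_V3) (μ : Measure C(ℂ, ℝ))
    (hμ : IsProbabilityMeasure μ)
    (hg : ∀ (k : ℕ) (w : Fin k → ℂ) (t : Fin k → ℝ), μ.map (fun f => ∑ i, t i * f (w i)) =
      gaussianReal 0 (∑ i, ∑ j, t i * t j * J0 ‖w i - w j‖).toNNReal) :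
    ∀ᵐ f : C(ℂ, ℝ) ∂μ, ContDiff ℝ ∞ (f : ℂ → ℝ) ∧ ∀ z, lap (f : ℂ → ℝ) z + f z = 0 := by
  obtain ⟨K, hK, hc, e1, e2⟩ := hV1
  have h1 := hV2 μ hμ hg K 1 hK.continuous hc (fun x => by rw [e1, one_mul])
  have h2 := hV2 μ hμ hg (lap K) (-1) (lap_cont K hK) (lap_supp K hc) (fun x => by
    rw [e2, neg_one_mul])
  filter_upwards [h1, h2] with f h1 h2
  exact hV3 K hK hc f f.continuous (fun w => by rw [h1, one_mul]) (fun w => by
    rw [h2, neg_one_mul])

end

end Pool.Agent.Zk91.SQ
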