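import Pool.Agent.Zk91.SQ.Bas

/-!
# The basis of the square: full density
-/

set_option autoImplicit false

open Filter Topology Real MeasureTheory Set ProbabilityTheory

namespace Pool.Agent.Zk91.SQ

open Pool.Agent.N661.BR (J0)
open Pool.Agent.Zk60.BW (TT TT_nonneg VV VV_le QQ QQ_nonneg)
open Pool.Agent.Zk91.KB (OnE Orth LawL cov cov_nonneg mode level exp_sub_le)

noncomputable section

theorem nrm_pos {X : ℕ} {p : ℕ × ℕ} (hp : p ∈ tri X) : nrm p ∈ Finset.Icc 1 X := by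
  have h3 := mem_tri.1 hp
  rw [Finset.mem_Icc]
  have h4 : 0 < nrm p := by
    unfold nrm
    have := h3.1
    positivity
  exact ⟨h4, h3.2.2⟩

theorem small_bad (h : ℕ → ℕ) (hh : Tendsto h atTop atTop) (Gd : ℕ → Finset (ℕ × ℕ))
    (Q : ℕ → Prop) (hG : ∀ N, Q N → (h N + 1) * (pts N \ Gd N).card ≤ (pts N).card) (ε : ℝ)
    (hε : 0 < ε) : ∀ᶠ X : ℕ in atTop,
      (cnt X (fun p => Q (nrm p) ∧ p ∉ Gd (nrm p)) : ℝ) ≤ ε * X := by
  classical
  obtain ⟨Y, hY⟩ := eventually_atTop.1 (((tendsto_one_div_add_atTop_nhds_zero_nat (𝕜 := ℝ)).comp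
    hh).eventually (ge_mem_nhds (show 0 < ε / 2 by positivity)))
  have hYev : ∀ᶠ X : ℕ in atTop, (Y : ℝ) ≤ ε / 2 * X := by
    have : Tendsto (fun X : ℕ => ε / 2 * (X : ℝ)) atTop atTop :=
      tendsto_natCast_atTop_atTop.const_mul_atTop (by positivity)
    exact this.eventually_ge_atTop _
  filter_upwards [hYev] with X hX
  -- the points with small norm, and the others
  set F : Finset (ℕ × ℕ) := (tri X).filter fun p => Y ≤ nrm p ∧ Q (nrm p) ∧ p ∉ Gd (nrm p) with hF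
  have h1 : cnt X (fun p => Q (nrm p) ∧ p ∉ Gd (nrm p)) ≤ (tri Y).card + F.card := by
    unfold cnt
    refine le_trans (Finset.card_le_card fun p hp => ?_) (Finset.card_union_le _ _)
    simp only [Finset.mem_union, Finset.mem_filter, hF] at hp ⊢
    by_cases hc : Y ≤ nrm p
    · exact Or.inr ⟨hp.1, hc, hp.2⟩
    · left
      have h3 := mem_tri.1 hp.1
      exact mem_tri.2 ⟨h3.1, h3.2.1, by omega⟩
  have h2 : (F.card : ℝ) ≤ ε / 2 * (tri X).card := by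
    have hmaps : ∀ p ∈ F, nrm p ∈ Finset.Icc 1 X := by
      intro p hp
      rw [hF, Finset.mem_filter] at hp
      exact nrm_pos hp.1
    have hmaps2 : ∀ p ∈ tri X, nrm p ∈ Finset.Icc 1 X := fun p hp => nrm_pos hp
    rw [Finset.card_eq_sum_card_fiberwise hmaps, Finset.card_eq_sum_card_fiberwise hmaps2]
    push_cast
    rw [Finset.mul_sum]
    refine Finset.sum_le_sum fun N hN => ?_
    have hfib : (tri X).filter (fun p => nrm p = N) = pts N := by
      ext p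
      rw [Finset.mem_filter, mem_tri, mem_pts]
      have := (Finset.mem_Icc.1 hN).2
      constructor
      · rintro ⟨⟨a1, a2, a3⟩, a4⟩
        exact ⟨a1, a2, a4⟩
      · rintro ⟨a1, a2, a3⟩
        exact ⟨⟨a1, a2, by omega⟩, a3⟩
    rw [hfib]
    by_cases hQ : Q N ∧ Y ≤ N
    · have h4 := hG N hQ.1
      have h5 : (F.filter (fun p => nrm p = N)).card ≤ (pts N \ Gd N).card := by
        refine Finset.card_le_card fun p hp => ?_
        rw [hF, Finset.mem_filter, Finset.mem_filter] at hp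
        obtain ⟨⟨a1, a2, a3, a4⟩, a5⟩ := hp
        have h3 := mem_tri.1 a1
        rw [Finset.mem_sdiff, mem_pts]
        subst a5
        exact ⟨⟨h3.1, h3.2.1, rfl⟩, a4⟩
      have h6 : ((h N : ℝ) + 1) * ((pts N \ Gd N).card : ℝ) ≤ (pts N).card := by exact_mod_cast h4
      have h7 : 1 / ((h N : ℝ) + 1) ≤ ε / 2 := hY N hQ.2
      have hpos : (0 : ℝ) < (h N : ℝ) + 1 := by positivity
      calc _ ≤ ((pts N \ Gd N).card : ℝ) := by exact_mod_cast h5
        _ ≤ 1 / ((h N : ℝ) + 1) * (pts N).card := by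
            rw [one_div, ← div_eq_inv_mul, le_div_iff₀ hpos]
            linarith
        _ ≤ ε / 2 * (pts N).card := mul_le_mul_of_nonneg_right h7 (Nat.cast_nonneg _)
    · have h5 : F.filter (fun p => nrm p = N) = ∅ := by
        rw [Finset.eq_empty_iff_forall_notMem]
        intro p hp
        rw [hF, Finset.mem_filter, Finset.mem_filter] at hp
        obtain ⟨⟨a1, a2, a3, a4⟩, a5⟩ := hp
        subst a5
        exact hQ ⟨a3, a2⟩
      rw [h5, Finset.card_empty]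
      push_cast
      positivity
  have h8 : ((tri Y).card : ℝ) ≤ Y := by exact_mod_cast tri_card_le Y
  have h9 : ((tri X).card : ℝ) ≤ X := by exact_mod_cast tri_card_le X
  have h10 : (cnt X (fun p => Q (nrm p) ∧ p ∉ Gd (nrm p)) : ℝ) ≤ (tri Y).card + (F.card : ℝ) := by
    exact_mod_cast h1
  have h11 : ε / 2 * ((tri X).card : ℝ) ≤ ε / 2 * X := mul_le_mul_of_nonneg_left h9 (by positivity)
  linarith

theorem main (h1 : S_M1) (h2 : S_M2) (h3 : S_M3) (h4 : S_M4) (h5 : S_M5) (h6 : S_M6)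
    (α : ℝ) (hα : 0 < α) : ∃ (O : ℕ × ℕ → ℕ × ℕ → ℝ) (D : Set (ℕ × ℕ)),
      (∀ N, Orth (pts N) O) ∧
      (∀ ε : ℝ, 0 < ε → ∀ᶠ X : ℕ in atTop, (cnt X (fun p => p ∉ D) : ℝ) ≤ ε * X) ∧
      ∀ (k : ℕ) (ρ ε : ℝ), 0 < ε → ∃ N0 : ℕ, ∀ p ∈ D, N0 ≤ nrm p → ∀ φ : ℝ,
        Wave k ρ ε (α ^ 2 * nrm p) fun z => ∑ q ∈ pts (nrm p), O p q * mode φ α α q z := by
  classical
  choose R0 hR0 using fun L => level α α hα hα L
  set Q : ℕ → ℕ → Prop := fun L N => R0 L ≤ (pts N).card ∧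
    ∀ w : ℂ, ‖w‖ ≤ L → |kap N w - J0 ‖w‖| ≤ 1 / ((L : ℝ) + 1) with hQ
  obtain ⟨h, hh, hhQ⟩ := diag Q (fun L ε hε => almost_all h1 h2 h3 h4 h5 h6 L (R0 L) ε hε)
  have hN : ∀ N : ℕ, ∃ (O : ℕ × ℕ → ℕ × ℕ → ℝ) (Gd : Finset (ℕ × ℕ)), Orth (pts N) O ∧
      (R0 (h N) ≤ (pts N).card → (h N + 1) * (pts N \ Gd).card ≤ (pts N).card ∧
        ∀ p ∈ Gd, ∀ φ : ℝ, LawL α α (α ^ 2 * N) (pts N) (h N)
          fun z => ∑ q ∈ pts N, O p q * mode φ α α q z) := by
    intro N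
    by_cases hc : R0 (h N) ≤ (pts N).card
    · obtain ⟨O, Gd, _, hO, hG1, hG2⟩ := hR0 (h N) (α ^ 2 * N) (pts N) (onE α hα N) hc
      exact ⟨O, Gd, hO, fun _ => ⟨hG1, hG2⟩⟩
    · refine ⟨fun p q => if p = q then 1 else 0, ∅, fun p hp p' hp' => ?_, fun h' => absurd h' hc⟩
      simp only [ite_mul, one_mul, zero_mul]
      rw [Finset.sum_ite_eq, if_pos hp]
      simp only [eq_comm]
  choose O Gd hO hGd using hN
  refine ⟨fun p q => O (nrm p) p q, {p | Q (h (nrm p)) (nrm p) ∧ p ∈ Gd (nrm p)}, ?_, ?_, ?_⟩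
  · intro N p hp p' hp'
    have e1 := (mem_pts.1 hp).2.2
    have e2 := (mem_pts.1 hp').2.2
    simp only [e1, e2]
    exact hO N p hp p' hp'
  · intro ε hε
    have g1 := hhQ (ε / 2) (by positivity)
    have g2 := small_bad h hh Gd (fun N => Q (h N) N) (fun N hN => (hGd N hN.1).1) (ε / 2)
      (by positivity)
    filter_upwards [g1, g2] with X g1 g2
    have hcard : (cnt X (fun p => p ∉ {p | Q (h (nrm p)) (nrm p) ∧ p ∈ Gd (nrm p)}) : ℝ) ≤
        (cnt X (fun p => ¬ Q (h (nrm p)) (nrm p)) : ℝ) +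
        (cnt X (fun p => Q (h (nrm p)) (nrm p) ∧ p ∉ Gd (nrm p)) : ℝ) := by
      have := (cnt_mono (X := X) (B := fun p => p ∉ {p | Q (h (nrm p)) (nrm p) ∧ p ∈ Gd (nrm p)})
        (B' := fun p => ¬ Q (h (nrm p)) (nrm p) ∨ (Q (h (nrm p)) (nrm p) ∧ p ∉ Gd (nrm p)))
        (fun p _ hp => by
          by_cases hc : Q (h (nrm p)) (nrm p)
          · exact Or.inr ⟨hc, fun h' => hp ⟨hc, h'⟩⟩
          · exact Or.inl hc)).trans (cnt_or X _ _)
      exact_mod_cast this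
    exact hcard.trans (by linarith)
  · intro k ρ ε hε
    have e1 : ∀ᶠ L : ℕ in atTop, ((k : ℝ) ^ 2 * ρ ^ 2 + 1) * (1 / ((L : ℝ) + 1)) ≤ ε := by
      have := (tendsto_one_div_add_atTop_nhds_zero_nat (𝕜 := ℝ)).const_mul
        ((k : ℝ) ^ 2 * ρ ^ 2 + 1)
      rw [mul_zero] at this
      exact this.eventually (ge_mem_nhds hε)
    have e2 : ∀ᶠ L : ℕ in atTop, 2 * |ρ| ≤ (L : ℝ) :=
      tendsto_natCast_atTop_atTop.eventually_ge_atTop _
    have e3 := hh.eventually (e1.and (e2.and (eventually_ge_atTop k)))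
    obtain ⟨N0, hN0⟩ := eventually_atTop.1 e3
    refine ⟨N0, fun p hp hpN φ => ?_⟩
    obtain ⟨⟨p1, p2⟩, p3⟩ := hp
    obtain ⟨f1, f2, f3⟩ := hN0 (nrm p) hpN
    have hρ := le_abs_self ρ
    have hρ0 := abs_nonneg ρ
    exact wave_of_lawL α hα (nrm p) (h (nrm p)) p2 _ ((hGd (nrm p) p1).2 p p3 φ) k ρ ε f3
      (by linarith) (by linarith) f1

end

end Pool.Agent.Zk91.SQ
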