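import Pool.Agent.Zk91.SQ.Onb
import Pool.Agent.Zk91.SQ.Main
import Pool.Agent.Zk91.SQ.Defs4

/-!
# The index sets of the Dirichlet and of the Neumann condition
-/

set_option autoImplicit false

open Filter Topology MeasureTheory

namespace Pool.Agent.Zk91.SQ

open Pool.Agent.Zk91.KB (Orth mode)

noncomputable section

/-- the points with positive coordinates -/
def pos : Set (ℕ × ℕ) := {p | 0 < p.1 ∧ 0 < p.2}

theorem mem_pos {p : ℕ × ℕ} : p ∈ pos ↔ 0 < p.1 ∧ 0 < p.2 := Iff.rfl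

theorem mem_pts' (N : ℕ) (q : ℕ × ℕ) : q ∈ pts N ↔ q ∈ pos ∧ nrm q = N := by
  rw [mem_pts, mem_pos, and_assoc]

/-- all points of the circle -/
def ptsA (N : ℕ) : Finset (ℕ × ℕ) := (allp N).filter fun p => nrm p = N

theorem mem_ptsA (N : ℕ) (q : ℕ × ℕ) : q ∈ ptsA N ↔ q ∈ (Set.univ : Set (ℕ × ℕ)) ∧ nrm q = N := by
  unfold ptsA
  rw [Finset.mem_filter, mem_allp]
  constructor
  · exact fun h => ⟨Set.mem_univ _, h.2⟩
  · exact fun h => ⟨h.2.le, h.2⟩

open Classical in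
/-- the extension of the transformation to the points on the axes -/
def ext (O : ℕ × ℕ → ℕ × ℕ → ℝ) (p q : ℕ × ℕ) : ℝ :=
  if p ∈ pos ∧ q ∈ pos then O p q else if p = q then 1 else 0

theorem sum_ext {O : ℕ × ℕ → ℕ × ℕ → ℝ} (N : ℕ) (p : ℕ × ℕ) (hp : p ∈ pts N) (F : ℕ × ℕ → ℝ) :
    ∑ q ∈ ptsA N, ext O p q * F q = ∑ q ∈ pts N, O p q * F q := by
  classical
  have hpp := ((mem_pts' N p).1 hp).1
  have hsub : pts N ⊆ ptsA N := fun q hq => (mem_ptsA N q).2 ⟨Set.mem_univ _, ((mem_pts' N q).1 hq).2⟩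
  rw [← Finset.sum_subset hsub]
  · refine Finset.sum_congr rfl fun q hq => ?_
    unfold ext
    rw [if_pos ⟨hpp, ((mem_pts' N q).1 hq).1⟩]
  · intro q hq hq'
    have hqp : q ∉ pos := fun h => hq' ((mem_pts' N q).2 ⟨h, ((mem_ptsA N q).1 hq).2⟩)
    have hne : ¬ p = q := fun h => hqp (by rw [← h]; exact hpp)
    unfold ext
    rw [if_neg (fun h => hqp h.2), if_neg hne, zero_mul]

theorem orth_ext {O : ℕ × ℕ → ℕ × ℕ → ℝ} (hO : ∀ N, Orth (pts N) O) (N : ℕ) :
    Orth (ptsA N) (ext O) := by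
  classical
  intro p hp p' hp'
  have hpN := ((mem_ptsA N p).1 hp).2
  have hpN' := ((mem_ptsA N p').1 hp').2
  by_cases h : p ∈ pos
  · have hpt : p ∈ pts N := (mem_pts' N p).2 ⟨h, hpN⟩
    rw [sum_ext N p hpt (fun q => ext O p' q)]
    by_cases h' : p' ∈ pos
    · have e : ∀ q ∈ pts N, O p q * ext O p' q = O p q * O p' q := by
        intro q hq
        unfold ext
        rw [if_pos ⟨h', ((mem_pts' N q).1 hq).1⟩]
      rw [Finset.sum_congr rfl e]
      exact hO N p hpt p' ((mem_pts' N p').2 ⟨h', hpN'⟩)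
    · have e : ∀ q ∈ pts N, O p q * ext O p' q = 0 := by
        intro q hq
        have hq' := ((mem_pts' N q).1 hq).1
        have hne : ¬ p' = q := fun h2 => h' (by rw [h2]; exact hq')
        unfold ext
        rw [if_neg (fun h2 => h' h2.1), if_neg hne, mul_zero]
      have hne : ¬ p = p' := fun h2 => h' (by rw [← h2]; exact h)
      rw [Finset.sum_congr rfl e, Finset.sum_const_zero, if_neg hne]
  · have e : ∀ q ∈ ptsA N, ext O p q * ext O p' q = if p = q then ext O p' q else 0 := by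
      intro q _
      by_cases hpq : p = q
      · rw [if_pos hpq]
        have : ext O p q = 1 := by
          unfold ext
          rw [if_neg (fun h2 => h h2.1), if_pos hpq]
        rw [this, one_mul]
      · rw [if_neg hpq]
        have : ext O p q = 0 := by
          unfold ext
          rw [if_neg (fun h2 => h h2.1), if_neg hpq]
        rw [this, zero_mul]
    rw [Finset.sum_congr rfl e, Finset.sum_ite_eq, if_pos hp]
    unfold ext
    rw [if_neg (fun h2 => h h2.2)]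
    simp only [eq_comm]

/-- the points on the axes have density zero -/
theorem cntA_le (X : ℕ) (I D : Set (ℕ × ℕ)) :
    cntA X (fun p => p ∈ I ∧ p ∉ D ∩ pos) ≤ cnt X (fun p => p ∉ D) + 2 * (Nat.sqrt X + 1) := by
  classical
  set B1 : Finset (ℕ × ℕ) := (Finset.range (Nat.sqrt X + 1)).image fun n => (n, 0) with hB1
  set B2 : Finset (ℕ × ℕ) := (Finset.range (Nat.sqrt X + 1)).image fun n => (0, n) with hB2
  have h1 : B1.card ≤ Nat.sqrt X + 1 := Finset.card_image_le.trans (by rw [Finset.card_range])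
  have h2 : B2.card ≤ Nat.sqrt X + 1 := Finset.card_image_le.trans (by rw [Finset.card_range])
  have h3 : cntA X (fun p => p ∈ I ∧ p ∉ D ∩ pos) ≤
      cnt X (fun p => p ∉ D) + (B1.card + B2.card) := by
    unfold cntA cnt
    refine le_trans (Finset.card_le_card fun p hp => ?_)
      ((Finset.card_union_le _ _).trans (Nat.add_le_add_left (Finset.card_union_le B1 B2) _))
    simp only [Finset.mem_filter] at hp
    obtain ⟨a1, -, a3⟩ := hp
    have a1' := mem_allp.1 a1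
    have a1'' : p.1 ^ 2 + p.2 ^ 2 ≤ X := a1'
    rw [Finset.mem_union, Finset.mem_union]
    by_cases c1 : p.2 = 0
    · right; left
      rw [hB1, Finset.mem_image]
      refine ⟨p.1, ?_, Prod.ext rfl c1.symm⟩
      rw [Finset.mem_range]
      exact Nat.lt_succ_of_le (Nat.le_sqrt.2 (by nlinarith))
    · by_cases c2 : p.1 = 0
      · right; right
        rw [hB2, Finset.mem_image]
        refine ⟨p.2, ?_, Prod.ext c2.symm rfl⟩
        rw [Finset.mem_range]
        exact Nat.lt_succ_of_le (Nat.le_sqrt.2 (by nlinarith))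
      · left
        have hpos : p ∈ pos := ⟨by omega, by omega⟩
        simp only [Finset.mem_filter]
        refine ⟨mem_tri.2 ⟨hpos.1, hpos.2, a1'⟩, fun h => a3 ⟨h, hpos⟩⟩
  omega

theorem bad_small (I D : Set (ℕ × ℕ)) (hD : ∀ ε : ℝ, 0 < ε → ∀ᶠ X : ℕ in atTop,
    (cnt X (fun p => p ∉ D) : ℝ) ≤ ε * X) (ε : ℝ) (hε : 0 < ε) :
    ∀ᶠ X : ℕ in atTop, (cntA X (fun p => p ∈ I ∧ p ∉ D ∩ pos) : ℝ) ≤ ε * X := by
  have h1 := hD (ε / 2) (by positivity)
  have h2 : ∀ᶠ X : ℕ in atTop, (2 * (Nat.sqrt X + 1) : ℝ) ≤ ε / 2 * X := by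
    obtain ⟨m, hm⟩ := exists_nat_ge (8 / ε)
    filter_upwards [eventually_ge_atTop ((m + 1) ^ 2)] with X hX
    have h3 : m + 1 ≤ Nat.sqrt X := Nat.le_sqrt.2 (by rw [← sq]; exact hX)
    have h4 : Nat.sqrt X * Nat.sqrt X ≤ X := Nat.sqrt_le X
    have h5 : ((Nat.sqrt X : ℝ)) * Nat.sqrt X ≤ X := by exact_mod_cast h4
    have h6 : (m : ℝ) + 1 ≤ Nat.sqrt X := by exact_mod_cast h3
    have h7 : 8 ≤ ε * m := by
      rw [div_le_iff₀ hε] at hm
      linarith
    have h8 : 8 ≤ ε * Nat.sqrt X := by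
      have : ε * m ≤ ε * Nat.sqrt X := mul_le_mul_of_nonneg_left (by linarith) hε.le
      linarith
    have h9 : (1 : ℝ) ≤ Nat.sqrt X := by
      have : (0 : ℝ) ≤ m := Nat.cast_nonneg m
      linarith
    have h10 : 8 * (Nat.sqrt X : ℝ) ≤ ε * (Nat.sqrt X * Nat.sqrt X) := by nlinarith
    have h11 : ε * ((Nat.sqrt X : ℝ) * Nat.sqrt X) ≤ ε * X := mul_le_mul_of_nonneg_left h5 hε.le
    linarith
  filter_upwards [h1, h2] with X h1 h2
  have h3 : (cntA X (fun p => p ∈ I ∧ p ∉ D ∩ pos) : ℝ) ≤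
      (cnt X (fun p => p ∉ D) : ℝ) + 2 * (Nat.sqrt X + 1) := by exact_mod_cast cntA_le X I D
  linarith

theorem md_eq (a : ℝ) (q : ℕ × ℕ) (z : ℂ) :
    md a q z = mode 0 (Real.pi / a) (Real.pi / a) q z := by
  unfold md mode
  rw [add_zero, add_zero]

theorem mn_eq (a : ℝ) (q : ℕ × ℕ) (hq : q ∈ pos) (z : ℂ) :
    mn a q z = mode (Real.pi / 2) (Real.pi / a) (Real.pi / a) q z := by
  unfold mn mode cN
  rw [if_neg hq.1.ne', if_neg hq.2.ne', Real.sin_add_pi_div_two, Real.sin_add_pi_div_two,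
    Real.mul_self_sqrt (by norm_num)]

end

end Pool.Agent.Zk91.SQ
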