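import Pool.Agent.Zk91.SQ.Dom
import Pool.Agent.Zk91.KB.Cut

/-!
# The conclusion for the square
-/

set_option autoImplicit false

open Filter Topology MeasureTheory
open scoped ContDiff

namespace Pool.Agent.Zk91.SQ

open Pool.Agent.Zk91.KB (Orth mode cut_lim)
open Pool.Agent.W745.RW (lap)
open Pool.Agent.Zk60.BW (QQ wave_iff)
open Pool.Agent.N661.BR (J0 MW lin IsRandomWave resc IsCutoff IsLocalLimit)

noncomputable section

/-- the conclusion -/
def Concl (a : ℝ) (BC : (ℂ → ℝ) → Prop) : Prop :=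
  ∃ (lam : ℕ → ℝ) (u : ℕ → ℂ → ℝ), Monotone lam ∧ (∀ n, 0 ≤ lam n) ∧ (∀ n, ContDiff ℝ ∞ (u n)) ∧
    (∀ n z, lap (u n) z + lam n * u n z = 0) ∧ (∀ n, BC (u n)) ∧
    (∀ n m, ∫ z in Sqa a, u n z * u m z = if n = m then volume.real (Sqa a) else 0) ∧
    (∀ f : ℂ → ℝ, MemLp f 2 (volume.restrict (Sqa a)) → (∀ n, ∫ z in Sqa a, f z * u n z = 0) →
      f =ᵐ[volume.restrict (Sqa a)] 0) ∧
    ∃ σ : ℕ → ℕ, StrictMono σ ∧
      Tendsto (fun N : ℕ => (Nat.card {j // σ j ≤ N} : ℝ) / N) atTop (𝓝 1) ∧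
      (∀ (k : ℕ) (ρ ε : ℝ), 0 < ε → ∀ᶠ j in atTop, Wave k ρ ε (lam (σ j)) (u (σ j))) ∧
      ∀ χ : ℝ → ℝ, IsCutoff χ →
        (∀ (k : ℕ) (w : Fin k → ℂ) (t : Fin k → ℝ),
          Tendsto (fun j => (1 / volume.real (Sqa a) : ℝ) * ∫ z in Sqa a, Complex.exp
            (Complex.I * ((∑ i, t i * resc χ (Sqa a) (lam (σ j)) (u (σ j)) z (w i) : ℝ) : ℂ))) atTop
            (𝓝 ((Real.exp (-(QQ w t) / 2) : ℝ) : ℂ))) ∧
        ∀ μ : Measure MW, IsProbabilityMeasure μ →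
          (IsLocalLimit χ (Sqa a) (fun j => lam (σ j)) (fun j => u (σ j)) μ ↔ IsRandomWave μ)

variable {a : ℝ} {BC : (ℂ → ℝ) → Prop} {I : Set (ℕ × ℕ)} {T : ℕ → Finset (ℕ × ℕ)}
  {b : ℕ × ℕ → ℂ → ℝ} {O : ℕ × ℕ → ℕ × ℕ → ℝ}

theorem exists_large (e : ℕ → ℕ × ℕ) (he : Function.Injective e) (hm : Monotone fun n => nrm (e n)) :
    Tendsto (fun n => nrm (e n)) atTop atTop := by
  rw [tendsto_atTop]
  intro X
  by_contra hcon
  rw [not_eventually] at hcon
  have hlt : ∀ n, nrm (e n) < X := by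
    intro n
    obtain ⟨m, hm1, hm2⟩ := hcon.forall_exists_of_atTop n
    have h1 : nrm (e n) ≤ nrm (e m) := hm hm1
    omega
  have h2 : ∀ M, M ≤ (allp X).card := by
    intro M
    have hsub : (Finset.range M).image e ⊆ allp X := by
      intro p hp
      obtain ⟨n, _, rfl⟩ := Finset.mem_image.1 hp
      exact mem_allp.2 (hlt n).le
    have h := Finset.card_le_card hsub
    rwa [Finset.card_image_of_injective _ he, Finset.card_range] at h
  have := h2 ((allp X).card + 1)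
  omega

theorem local_lim (hB3 : S_B3) (ha : 0 < a) (lam : ℕ → ℝ) (hlam : Tendsto lam atTop atTop)
    (u : ℕ → ℂ → ℝ) (hc : ∀ n, Continuous (u n))
    (hw : ∀ (k : ℕ) (ρ ε : ℝ), 0 < ε → ∀ᶠ j in atTop, Wave k ρ ε (lam j) (u j)) (χ : ℝ → ℝ)
    (hχ : IsCutoff χ) :
    (∀ (k : ℕ) (w : Fin k → ℂ) (t : Fin k → ℝ),
      Tendsto (fun j => (1 / volume.real (Sqa a) : ℝ) * ∫ z in Sqa a, Complex.exp
        (Complex.I * ((∑ i, t i * resc χ (Sqa a) (lam j) (u j) z (w i) : ℝ) : ℂ))) atTop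
        (𝓝 ((Real.exp (-(QQ w t) / 2) : ℝ) : ℂ))) ∧
    ∀ μ : Measure MW, IsProbabilityMeasure μ →
      (IsLocalLimit χ (Sqa a) lam u μ ↔ IsRandomWave μ) := by
  have hv : volume.real (Sqa a) = a ^ 2 := sqa_vol hB3 a ha
  have hv0 : 0 < volume.real (Sqa a) := by rw [hv]; positivity
  have hlim : ∀ (k : ℕ) (w : Fin k → ℂ) (t : Fin k → ℝ),
      Tendsto (fun j => (1 / volume.real (Sqa a) : ℝ) * ∫ z in Sqa a, Complex.exp
        (Complex.I * ((∑ i, t i * resc χ (Sqa a) (lam j) (u j) z (w i) : ℝ) : ℂ))) atTop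
        (𝓝 ((Real.exp (-(QQ w t) / 2) : ℝ) : ℂ)) := by
    intro k w t
    refine cut_lim lam hlam u hc (Sqa a) (sqa_open a) (sqa_ne a ha) (sqa_bdd a) χ hχ w t _ ?_
    have h1 : Tendsto (fun j => ((1 / volume.real (Sqa a) : ℝ) : ℂ) * ∫ z in Sqa a, Complex.exp
        (Complex.I * ((∑ i, t i * u j (z + w i / ((√(lam j) : ℝ) : ℂ)) : ℝ) : ℂ))) atTop
        (𝓝 ((Real.exp (-(QQ w t) / 2) : ℝ) : ℂ)) := by
      rw [Metric.tendsto_nhds]
      intro ε hε
      set ρ : ℝ := ∑ i, ‖w i‖ + ∑ i, |t i| + Metric.diam (Sqa a) / volume.real (Sqa a) with hρ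
      have s1 : 0 ≤ ∑ i, ‖w i‖ := Finset.sum_nonneg fun _ _ => norm_nonneg _
      have s2 : 0 ≤ ∑ i, |t i| := Finset.sum_nonneg fun _ _ => abs_nonneg _
      have s3 : 0 ≤ Metric.diam (Sqa a) / volume.real (Sqa a) :=
        div_nonneg Metric.diam_nonneg hv0.le
      filter_upwards [hw k ρ (ε / 2) (by positivity)] with j hj
      have h2 := (hj w t (fun i => by
        have := Finset.single_le_sum (f := fun i => ‖w i‖) (fun i _ => norm_nonneg _)
          (Finset.mem_univ i)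
        linarith) (fun i => by
        have := Finset.single_le_sum (f := fun i => |t i|) (fun i _ => abs_nonneg _)
          (Finset.mem_univ i)
        linarith) (Sqa a) (sqa_convex a) (sqa_bdd a) hv0 (by
          have h3 : Metric.diam (Sqa a) / volume.real (Sqa a) ≤ ρ := by linarith
          rwa [div_le_iff₀ hv0] at h3)).2
      rw [dist_eq_norm]
      exact h2.trans_lt (by linarith)
    have h2 := h1.const_mul ((volume.real (Sqa a) : ℝ) : ℂ)
    refine h2.congr fun j => ?_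
    have hne : ((volume.real (Sqa a) : ℝ) : ℂ) ≠ 0 := by exact_mod_cast hv0.ne'
    rw [← mul_assoc, Complex.ofReal_div, Complex.ofReal_one, mul_one_div_cancel hne, one_mul]
    simp only [mul_comm Complex.I]
  refine ⟨hlim, fun μ hμ => ?_⟩
  exact wave_iff (fun k w t n => (1 / volume.real (Sqa a) : ℝ) * ∫ z in Sqa a,
    Complex.exp (Complex.I * ((∑ j, t j * resc χ (Sqa a) (lam n) (u n) z (w j) : ℝ) : ℂ))) hlim μ

theorem concl (hB3 : S_B3) (ha : 0 < a) (hT : ∀ N q, q ∈ T N ↔ q ∈ I ∧ nrm q = N)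
    (hO : ∀ N, Orth (T N) O)
    (hb : ∀ p ∈ I, ∀ q ∈ I, ∫ z in Sqa a, b p z * b q z = if p = q then a ^ 2 else 0)
    (hbc : ∀ p, Continuous (b p))
    (hcomp : ∀ f : ℂ → ℝ, MemLp f 2 (volume.restrict (Sqa a)) →
      (∀ p ∈ I, ∫ z in Sqa a, f z * b p z = 0) → f =ᵐ[volume.restrict (Sqa a)] 0)
    (D : Set (ℕ × ℕ)) (hD : ∀ ε : ℝ, 0 < ε → ∀ᶠ X : ℕ in atTop,
      (cnt X (fun p => p ∉ D) : ℝ) ≤ ε * X) (hpos : pos ⊆ I)
    (hreg : ∀ p, ContDiff ℝ ∞ (tr T O b p) ∧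
      (∀ z, lap (tr T O b p) z + (Real.pi / a) ^ 2 * nrm p * tr T O b p z = 0) ∧
      BC (tr T O b p))
    (hwave : ∀ (k : ℕ) (ρ ε : ℝ), 0 < ε → ∃ N0 : ℕ, ∀ p ∈ D ∩ pos, N0 ≤ nrm p →
      Wave k ρ ε ((Real.pi / a) ^ 2 * nrm p) (tr T O b p)) : Concl a BC := by
  have hI : I.Infinite := by
    refine Set.Infinite.mono hpos ?_
    refine Set.infinite_of_injective_forall_mem (f := fun n : ℕ => (n + 1, 1)) (fun m n h => ?_)
      fun n => ⟨Nat.succ_pos n, one_pos⟩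
    have := congrArg Prod.fst h
    simpa using this
  obtain ⟨e, he, hr, hm⟩ := exists_enumeration I hI
  have heI : ∀ n, e n ∈ I := fun n => hr ▸ ⟨n, rfl⟩
  have hsurj : ∀ p ∈ I, ∃ n, e n = p := fun p hp => by rw [← hr] at hp; exact hp
  have hdens := dens e he (fun p h1 h2 => by rw [hr]; exact hpos ⟨h1, h2⟩) hm (D ∩ pos)
    (by rw [hr]; exact bad_small I D hD)
  obtain ⟨σ, hσ, hσJ, hσd⟩ := exists_sub (fun n => e n ∈ D ∩ pos) hdens
  have hA : 0 < (Real.pi / a) ^ 2 := by positivity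
  have hlarge := exists_large e he hm
  have hlam : Tendsto (fun n => (Real.pi / a) ^ 2 * (nrm (e n) : ℝ)) atTop atTop :=
    (tendsto_natCast_atTop_atTop.comp hlarge).const_mul_atTop hA
  refine ⟨fun n => (Real.pi / a) ^ 2 * nrm (e n), fun n => tr T O b (e n), ?_, ?_, ?_, ?_, ?_, ?_,
    ?_, σ, hσ, hσd, ?_⟩
  · intro m n hmn
    have : (nrm (e m) : ℝ) ≤ nrm (e n) := by exact_mod_cast hm hmn
    exact mul_le_mul_of_nonneg_left this hA.le
  · intro n
    positivity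
  · exact fun n => (hreg (e n)).1
  · exact fun n z => (hreg (e n)).2.1 z
  · exact fun n => (hreg (e n)).2.2
  · intro n m
    rw [tr_orth hT hb (fun p q => int_prod _ _ (hbc p) (hbc q) a) hO (e n) (heI n) (e m) (heI m),
      sqa_vol hB3 a ha]
    by_cases h : n = m
    · rw [if_pos h, if_pos (by rw [h])]
    · rw [if_neg h, if_neg (fun h' => h (he h'))]
  · intro f hf h0
    refine hcomp f hf fun q hq => ?_
    refine tr_compl hT hO f (fun p => int_L2 f _ a hf (hbc p)) (fun p hp => ?_) q hq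
    obtain ⟨n, rfl⟩ := hsurj p hp
    exact h0 n
  · have hw : ∀ (k : ℕ) (ρ ε : ℝ), 0 < ε → ∀ᶠ j in atTop,
        Wave k ρ ε ((Real.pi / a) ^ 2 * nrm (e (σ j))) (tr T O b (e (σ j))) := by
      intro k ρ ε hε
      obtain ⟨N0, hN0⟩ := hwave k ρ ε hε
      filter_upwards [(hlarge.comp hσ.tendsto_atTop).eventually_ge_atTop N0] with j hj
      exact hN0 _ (hσJ j) hj
    refine ⟨hw, fun χ hχ => ?_⟩
    exact local_lim hB3 ha _ (hlam.comp hσ.tendsto_atTop) _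
      (fun j => (hreg (e (σ j))).1.continuous) hw χ hχ

end

end Pool.Agent.Zk91.SQ
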