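import Pool.Agent.Zk91.SQ.Tgt
import Pool.Agent.Zk60.BW.Fin

/-!
# Weak convergence of the local measures
-/

set_option autoImplicit false

open MeasureTheory Filter Topology ProbabilityTheory

namespace Pool.Agent.Zk91.SQ

open Pool.Agent.N661.BR (resc IsCutoff J0)
open Pool.Agent.Zk60.BW (QQ QQ_nonneg)
open scoped ENNReal NNReal ContDiff

noncomputable section

/-- the local measure -/
def PP (Ω : Set ℂ) (g : ℂ → C(ℂ, ℝ)) : Measure C(ℂ, ℝ) :=
  ((volume Ω)⁻¹ • volume.restrict Ω).map g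

section

variable {Ω : Set ℂ} (hΩ : IsOpen Ω) (hne : Ω.Nonempty) (hb : Bornology.IsBounded Ω)
  {g : ℂ → C(ℂ, ℝ)} (hg : ContinuousOn g Ω)

include hΩ hne in
theorem vol_ne : volume Ω ≠ 0 := (hΩ.measure_pos volume hne).ne'

include hΩ hg in
theorem aem : AEMeasurable g ((volume Ω)⁻¹ • volume.restrict Ω) :=
  (hg.aemeasurable hΩ.measurableSet).smul_measure _

include hΩ hne hb hg in
theorem PP_prob : IsProbabilityMeasure (PP Ω g) := by
  have h : IsProbabilityMeasure ((volume Ω)⁻¹ • volume.restrict Ω) := by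
    refine ⟨?_⟩
    rw [Measure.smul_apply, Measure.restrict_apply_univ, smul_eq_mul]
    exact ENNReal.inv_mul_cancel (vol_ne hΩ hne) hb.measure_lt_top.ne
  exact Measure.isProbabilityMeasure_map (aem hΩ hg)

include hΩ hg in
theorem PP_int {E : Type*} [NormedAddCommGroup E] [NormedSpace ℝ E] [MeasurableSpace E]
    [BorelSpace E] [SecondCountableTopology E] (F : C(ℂ, ℝ) → E) (hF : Continuous F) :
    ∫ f, F f ∂(PP Ω g) = (1 / volume.real Ω : ℝ) • ∫ z in Ω, F (g z) := by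
  unfold PP
  rw [integral_map (aem hΩ hg) hF.measurable.aestronglyMeasurable, integral_smul_measure]
  congr 1
  rw [ENNReal.toReal_inv, one_div]
  rfl

include hΩ hg in
theorem PP_compl (K : Set C(ℂ, ℝ)) (hK : IsCompact K) :
    PP Ω g Kᶜ = (volume Ω)⁻¹ * volume {z | z ∈ Ω ∧ g z ∉ K} := by
  unfold PP
  rw [Measure.map_apply_of_aemeasurable (aem hΩ hg) hK.isClosed.measurableSet.compl,
    Measure.smul_apply, smul_eq_mul, Measure.restrict_apply₀' hΩ.measurableSet.nullMeasurableSet]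
  congr 2
  ext z
  simp [and_comm]

end

theorem weak (h2 : S_W2) (h3 : S_W3) (h4 : S_W4) (h5 : S_W5) (h7 : S_W7) (h8 : S_W8) (hkp : 0 < kp)
    (χ : ℝ → ℝ) (hχ : IsCutoff χ) (Ω : Set ℂ)
    (hΩ : IsOpen Ω) (hne : Ω.Nonempty) (hb : Bornology.IsBounded Ω) (lam : ℕ → ℝ)
    (hlam : Tendsto lam atTop atTop) (u : ℕ → ℂ → ℝ) (hc : ∀ j, Continuous (u j))
    (hmv : ∀ j, 0 < lam j → ∀ z, kp * u j z = ∫ y : ℂ, T0 y * u j (z + y / ((√(lam j) : ℝ) : ℂ)))
    (B : ℝ) (hB : 0 ≤ B) (hw : ∀ᶠ j in atTop, ∀ c : ℂ, ∫ z in Ω, u j (z + c) ^ 2 ≤ B)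
    (hfd : ∀ (k : ℕ) (w : Fin k → ℂ) (t : Fin k → ℝ),
      Tendsto (fun j => (1 / volume.real Ω : ℝ) * ∫ z in Ω, Complex.exp
        (Complex.I * ((∑ i, t i * resc χ Ω (lam j) (u j) z (w i) : ℝ) : ℂ))) atTop
        (𝓝 ((Real.exp (-(QQ w t) / 2) : ℝ) : ℂ))) :
    ∃ μ : Measure C(ℂ, ℝ), IsProbabilityMeasure μ ∧
      (∀ (k : ℕ) (w : Fin k → ℂ) (t : Fin k → ℝ),
        chf μ w t = ((Real.exp (-(QQ w t) / 2) : ℝ) : ℂ)) ∧
      ∀ g : ℕ → ℂ → C(ℂ, ℝ), (∀ j z w, g j z w = resc χ Ω (lam j) (u j) z w) →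
        ∀ F : C(ℂ, ℝ) → ℝ, Continuous F → (∃ B : ℝ, ∀ f, |F f| ≤ B) →
        Tendsto (fun j => (1 / volume.real Ω : ℝ) * ∫ z in Ω, F (g j z)) atTop (𝓝 (∫ f, F f ∂μ)) := by
  classical
  obtain ⟨J, hJ⟩ := eventually_atTop.1 (hlam.eventually_gt_atTop 0)
  choose g hg1 hg2 using fun j : ℕ => h8 χ hχ Ω hΩ hb (lam (j + J)) (hJ _ (by omega)) (u (j + J))
    (hc _)
  have hshift : Tendsto (fun j : ℕ => j + J) atTop atTop := tendsto_add_atTop_nat J
  set P : ℕ → Measure C(ℂ, ℝ) := fun j => PP Ω (g j) with hP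
  have hPp : ∀ j, IsProbabilityMeasure (P j) := fun j => PP_prob hΩ hne hb (hg2 j)
  have hV0 : volume Ω ≠ 0 := vol_ne hΩ hne
  have hVt : volume Ω ≠ ⊤ := hb.measure_lt_top.ne
  have htight : ∀ ε : ℝ, 0 < ε → ∃ K : Set C(ℂ, ℝ), IsCompact K ∧
      ∀ᶠ j in atTop, (P j).real Kᶜ ≤ ε := by
    intro ε hε
    obtain ⟨M, hM⟩ := tgt h2 h7 hkp χ hχ Ω hΩ hne hb (fun j => lam (j + J))
      (hlam.comp hshift) (fun j => u (j + J)) (fun j => hc _) (fun j hj => hmv _ hj) B hB
      (hshift.eventually hw) g hg1 (volume Ω * ENNReal.ofReal ε)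
      (pos_iff_ne_zero.2 (mul_ne_zero hV0 (ENNReal.ofReal_pos.2 hε).ne'))
    refine ⟨Kc M, h3 M, ?_⟩
    filter_upwards [hM] with j hj
    have h : P j (Kc M)ᶜ ≤ ENNReal.ofReal ε := by
      rw [hP]
      simp only
      rw [PP_compl hΩ (hg2 j) _ (h3 M)]
      calc (volume Ω)⁻¹ * volume {z | z ∈ Ω ∧ g j z ∉ Kc M} ≤
            (volume Ω)⁻¹ * (volume Ω * ENNReal.ofReal ε) := by gcongr
        _ = ENNReal.ofReal ε := by
            rw [← mul_assoc, ENNReal.inv_mul_cancel hV0 hVt, one_mul]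
    exact ENNReal.toReal_le_of_le_ofReal hε.le h
  have hchf : ∀ (k : ℕ) (w : Fin k → ℂ) (t : Fin k → ℝ),
      Tendsto (fun j => chf (P j) w t) atTop (𝓝 ((Real.exp (-(QQ w t) / 2) : ℝ) : ℂ)) := by
    intro k w t
    refine ((hfd k w t).comp hshift).congr fun j => ?_
    unfold chf
    have hcont : Continuous fun f : C(ℂ, ℝ) =>
        Complex.exp (Complex.I * ((∑ i, t i * f (w i) : ℝ) : ℂ)) := by
      refine Complex.continuous_exp.comp (continuous_const.mul
        (Complex.continuous_ofReal.comp ?_))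
      exact continuous_finsetSum _ fun i _ => continuous_const.mul
        (ContinuousEvalConst.continuous_eval_const (w i))
    rw [hP]
    simp only [Function.comp_apply]
    rw [PP_int hΩ (hg2 j) _ hcont, Complex.real_smul]
    simp only [hg1]
  obtain ⟨μ, hμ1, hμ2, hμ3⟩ := h5 h4 P (fun k w t => ((Real.exp (-(QQ w t) / 2) : ℝ) : ℂ)) hPp
    htight hchf
  refine ⟨μ, hμ1, hμ2, fun g' hg' F hF hFb => ?_⟩
  have h := hμ3 F hF hFb
  rw [← tendsto_add_atTop_iff_nat J]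
  refine h.congr fun j => ?_
  rw [hP]
  simp only
  rw [PP_int hΩ (hg2 j) F hF, smul_eq_mul]
  have e : ∀ z, g j z = g' (j + J) z := by
    intro z
    ext w
    rw [hg1, hg']
  simp only [e]

/-- there is a cut-off -/
theorem exists_cutoff : ∃ χ : ℝ → ℝ, IsCutoff χ := by
  refine ⟨fun t => Real.smoothTransition (2 - 2 * t), ?_, ?_, ?_, ?_, ?_⟩
  · exact (Real.smoothTransition.contDiff.comp
      (contDiff_const.sub (contDiff_const.mul contDiff_id))).contDiffOn
  · intro s _ t _ hst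
    exact Real.smoothTransition.monotone (by linarith)
  · exact fun t _ => ⟨Real.smoothTransition.nonneg _, Real.smoothTransition.le_one _⟩
  · exact ⟨1 / 2, by norm_num, fun t _ ht => Real.smoothTransition.one_of_one_le (by linarith)⟩
  · exact fun t ht => Real.smoothTransition.zero_of_nonpos (by linarith)

variable {k : ℕ}

theorem gauss_of_chf (μ : Measure C(ℂ, ℝ)) (hμ : IsProbabilityMeasure μ)
    (h : ∀ (k : ℕ) (w : Fin k → ℂ) (t : Fin k → ℝ),
      chf μ w t = ((Real.exp (-(QQ w t) / 2) : ℝ) : ℂ)) (w : Fin k → ℂ) (t : Fin k → ℝ) :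
    μ.map (fun f => ∑ i, t i * f (w i)) = gaussianReal 0 (QQ w t).toNNReal := by
  have hm : Measurable fun f : C(ℂ, ℝ) => ∑ i, t i * f (w i) := by
    refine Continuous.measurable ?_
    exact continuous_finsetSum _ fun i _ => continuous_const.mul
      (ContinuousEvalConst.continuous_eval_const (w i))
  have : IsProbabilityMeasure (μ.map fun f => ∑ i, t i * f (w i)) :=
    Measure.isProbabilityMeasure_map hm.aemeasurable
  refine Measure.ext_of_charFun ?_
  funext s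
  rw [charFun_apply_real, integral_map hm.aemeasurable (by fun_prop), charFun_gaussianReal]
  have h1 := h k w (fun i => s * t i)
  have h2 : QQ w (fun i => s * t i) = s ^ 2 * QQ w t := by
    unfold QQ
    rw [Finset.mul_sum]
    refine Finset.sum_congr rfl fun i _ => ?_
    rw [Finset.mul_sum]
    exact Finset.sum_congr rfl fun j _ => by ring
  rw [h2] at h1
  unfold chf at h1
  have h3 : ∀ f : C(ℂ, ℝ), Complex.exp (Complex.I * ((∑ i, s * t i * f (w i) : ℝ) : ℂ)) =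
      Complex.exp ((s : ℂ) * ((∑ i, t i * f (w i) : ℝ) : ℂ) * Complex.I) := by
    intro f
    congr 1
    have : ∑ i, s * t i * f (w i) = s * ∑ i, t i * f (w i) := by
      rw [Finset.mul_sum]
      exact Finset.sum_congr rfl fun i _ => by ring
    rw [this]
    push_cast
    ring
  simp only [h3] at h1
  rw [h1]
  rw [Complex.ofReal_exp]
  congr 1
  rw [Real.coe_toNNReal _ (QQ_nonneg w t)]
  push_cast
  ring

end

end Pool.Agent.Zk91.SQ
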