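import Pool.Agent.Zk91.SQ.Fin
import Pool.Agent.Zk91.SQ.Weak

/-!
# The conclusion for the square: weak convergence
-/

set_option autoImplicit false

open Filter Topology MeasureTheory ProbabilityTheory
open scoped ContDiff

namespace Pool.Agent.Zk91.SQ

open Pool.Agent.Zk91.KB (Orth mode cut_lim)
open Pool.Agent.W745.RW (lap)
open Pool.Agent.Zk60.BW (QQ QQ_nonneg)
open Pool.Agent.N661.BR (J0 resc IsCutoff)

noncomputable section

variable {a : ℝ} {Pr : ℝ → (ℂ → ℝ) → Prop} {I : Set (ℕ × ℕ)} {T : ℕ → Finset (ℕ × ℕ)}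
  {b : ℕ × ℕ → ℂ → ℝ} {O : ℕ × ℕ → ℕ × ℕ → ℝ}

/-- the basis and the subsequence -/
def Core (a : ℝ) (Pr : ℝ → (ℂ → ℝ) → Prop) (lam : ℕ → ℝ) (u : ℕ → ℂ → ℝ) (σ : ℕ → ℕ) : Prop :=
  Monotone lam ∧ (∀ n, 0 ≤ lam n) ∧ (∀ n, Pr (lam n) (u n)) ∧
    (∀ n m, ∫ z in Sqa a, u n z * u m z = if n = m then volume.real (Sqa a) else 0) ∧
    (∀ f : ℂ → ℝ, MemLp f 2 (volume.restrict (Sqa a)) → (∀ n, ∫ z in Sqa a, f z * u n z = 0) →
      f =ᵐ[volume.restrict (Sqa a)] 0) ∧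
    StrictMono σ ∧ Tendsto (fun N : ℕ => (Nat.card {j // σ j ≤ N} : ℝ) / N) atTop (𝓝 1) ∧
    Tendsto (fun j => lam (σ j)) atTop atTop ∧
    ∀ (k : ℕ) (ρ ε : ℝ), 0 < ε → ∀ᶠ j in atTop, Wave k ρ ε (lam (σ j)) (u (σ j))

theorem core (hB3 : S_B3) (ha : 0 < a) (hT : ∀ N q, q ∈ T N ↔ q ∈ I ∧ nrm q = N)
    (hO : ∀ N, Orth (T N) O)
    (hb : ∀ p ∈ I, ∀ q ∈ I, ∫ z in Sqa a, b p z * b q z = if p = q then a ^ 2 else 0)
    (hbc : ∀ p, Continuous (b p))
    (hcomp : ∀ f : ℂ → ℝ, MemLp f 2 (volume.restrict (Sqa a)) →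
      (∀ p ∈ I, ∫ z in Sqa a, f z * b p z = 0) → f =ᵐ[volume.restrict (Sqa a)] 0)
    (D : Set (ℕ × ℕ)) (hD : ∀ ε : ℝ, 0 < ε → ∀ᶠ X : ℕ in atTop,
      (cnt X (fun p => p ∉ D) : ℝ) ≤ ε * X) (hpos : pos ⊆ I)
    (hreg : ∀ p, Pr ((Real.pi / a) ^ 2 * nrm p) (tr T O b p))
    (hwave : ∀ (k : ℕ) (ρ ε : ℝ), 0 < ε → ∃ N0 : ℕ, ∀ p ∈ D ∩ pos, N0 ≤ nrm p →
      Wave k ρ ε ((Real.pi / a) ^ 2 * nrm p) (tr T O b p)) : ∃ lam u σ, Core a Pr lam u σ := by
  have hI : I.Infinite := by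
    refine Set.Infinite.mono hpos ?_
    refine Set.infinite_of_injective_forall_mem (f := fun n : ℕ => (n + 1, 1)) (fun m n h => ?_)
      fun n => ⟨Nat.succ_pos n, one_pos⟩
    have := congrArg Prod.fst h
    simpa using this
  obtain ⟨e, he, hr, hm⟩ := exists_enumeration I hI
  have heI : ∀ n, e n ∈ I := fun n => hr ▸ ⟨n, rfl⟩
  have hsurj : ∀ p ∈ I, ∃ n, e n = p := fun p hp => by rw [← hr] at hp; exact hp
  have hdens := dens e he (fun p h1 h2 => by rw [hr]; exact hpos ⟨h1, h2⟩) hm (D ∩ pos)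
    (by rw [hr]; exact bad_small I D hD)
  obtain ⟨σ, hσ, hσJ, hσd⟩ := exists_sub (fun n => e n ∈ D ∩ pos) hdens
  have hA : 0 < (Real.pi / a) ^ 2 := by positivity
  have hlarge := exists_large e he hm
  have hlam : Tendsto (fun n => (Real.pi / a) ^ 2 * (nrm (e n) : ℝ)) atTop atTop :=
    (tendsto_natCast_atTop_atTop.comp hlarge).const_mul_atTop hA
  refine ⟨fun n => (Real.pi / a) ^ 2 * nrm (e n), fun n => tr T O b (e n), σ, ?_, ?_, ?_, ?_, ?_,
    hσ, hσd, hlam.comp hσ.tendsto_atTop, ?_⟩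
  · intro m n hmn
    have : (nrm (e m) : ℝ) ≤ nrm (e n) := by exact_mod_cast hm hmn
    exact mul_le_mul_of_nonneg_left this hA.le
  · intro n
    positivity
  · exact fun n => hreg (e n)
  · intro n m
    rw [tr_orth hT hb (fun p q => int_prod _ _ (hbc p) (hbc q) a) hO (e n) (heI n) (e m) (heI m),
      sqa_vol hB3 a ha]
    by_cases h : n = m
    · rw [if_pos h, if_pos (by rw [h])]
    · rw [if_neg h, if_neg (fun h' => h (he h'))]
  · intro f hf h0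
    refine hcomp f hf fun q hq => ?_
    refine tr_compl hT hO f (fun p => int_L2 f _ a hf (hbc p)) (fun p hp => ?_) q hq
    obtain ⟨n, rfl⟩ := hsurj p hp
    exact h0 n
  · intro k ρ ε hε
    obtain ⟨N0, hN0⟩ := hwave k ρ ε hε
    filter_upwards [(hlarge.comp hσ.tendsto_atTop).eventually_ge_atTop N0] with j hj
    exact hN0 _ (hσJ j) hj

/-- the mean square on all translates -/
theorem window_bound (Ω : Set ℂ) (hconv : Convex ℝ Ω) (hb : Bornology.IsBounded Ω)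
    (hv : 0 < volume.real Ω) (lam : ℕ → ℝ) (u : ℕ → ℂ → ℝ)
    (hw : ∀ (k : ℕ) (ρ ε : ℝ), 0 < ε → ∀ᶠ j in atTop, Wave k ρ ε (lam j) (u j)) :
    ∀ᶠ j in atTop, ∀ c : ℂ, ∫ z in Ω, u j (z + c) ^ 2 ≤ 2 * volume.real Ω := by
  set ρ : ℝ := 1 + Metric.diam Ω / volume.real Ω with hρ
  have hρ1 : 1 ≤ ρ := by
    have : 0 ≤ Metric.diam Ω / volume.real Ω := div_nonneg Metric.diam_nonneg hv.le
    linarith
  filter_upwards [hw 1 ρ 1 one_pos] with j hj c
  set C : Set ℂ := (fun z => c + z) '' Ω with hC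
  have hvC : volume.real C = volume.real Ω := by
    rw [hC, Set.image_add_left]
    unfold Measure.real
    rw [measure_preimage_add]
  have hbC : Bornology.IsBounded C := by
    rw [hC]
    exact (isometry_add_left c).lipschitz.isBounded_image hb
  have hdC : Metric.diam C = Metric.diam Ω := (isometry_add_left c).diam_image Ω
  have h := (hj (fun _ => 0) (fun _ => 1) (fun _ => by simpa using by linarith)
    (fun _ => by simpa using hρ1) C (hconv.translate c) hbC (by rw [hvC]; exact hv) (by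
      rw [hdC, hvC, hρ, add_mul, div_mul_cancel₀ _ hv.ne']
      nlinarith)).1
  have e1 : ∀ z, (∑ _j : Fin 1, (1 : ℝ) * u j (z + 0 / ((√(lam j) : ℝ) : ℂ))) ^ 2 = u j z ^ 2 := by
    intro z
    simp
  simp only [e1] at h
  have hQ : QQ (fun _ : Fin 1 => (0 : ℂ)) (fun _ => 1) = 1 := by
    unfold QQ J0
    simp
    field_simp
  rw [hQ, hvC] at h
  have e2 : ∫ z in C, u j z ^ 2 = ∫ z in Ω, u j (z + c) ^ 2 := by
    rw [hC]
    rw [(measurePreserving_add_left volume c).setIntegral_image_emb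
      (MeasurableEquiv.addLeft c).measurableEmbedding]
    simp only [add_comm c]
  rw [e2] at h
  have h2 := (abs_le.1 h).2
  have h3 : 1 / volume.real Ω * ∫ z in Ω, u j (z + c) ^ 2 ≤ 2 := by linarith
  rw [one_div, inv_mul_le_iff₀ hv] at h3
  linarith

end

end Pool.Agent.Zk91.SQ
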