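import Pool.Agent.Zk91.SQ.Defs7
import Pool.Agent.Zk91.SQ.Defs5

/-!
# The mean value property of the eigenfunctions
-/

set_option autoImplicit false

open MeasureTheory Filter Topology

namespace Pool.Agent.Zk91.SQ

noncomputable section

theorem cont_T0 : Continuous T0 := by
  unfold T0
  fun_prop

theorem T0_zero (y : ℂ) (hy : 1 ≤ ‖y‖) : T0 y = 0 := by
  unfold T0
  exact max_eq_left (by linarith)

theorem supp_T0 : HasCompactSupport T0 := by
  refine HasCompactSupport.intro (isCompact_closedBall (0 : ℂ) 1) fun y hy => T0_zero y ?_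
  rw [mem_closedBall_zero_iff] at hy
  exact (not_le.1 hy).le

theorem int_T0 (f : ℂ → ℝ) (hf : Continuous f) : Integrable (fun y => T0 y * f y) :=
  (cont_T0.mul hf).integrable_of_hasCompactSupport (supp_T0.mul_right)

theorem cont_comb (S : Finset (ℕ × ℕ)) (c : ℕ × ℕ → ℝ) (A φ : ℝ) : Continuous (comb S c A φ) := by
  unfold comb
  fun_prop

theorem mv_comb (h : S_W1) (S : Finset (ℕ × ℕ)) (c : ℕ × ℕ → ℝ) (A φ lam : ℝ) (hlam : 0 < lam)
    (hS : ∀ q ∈ S, (A * q.1) ^ 2 + (A * q.2) ^ 2 = lam) (z : ℂ) :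
    kp * comb S c A φ z = ∫ y : ℂ, T0 y * comb S c A φ (z + y / ((√lam : ℝ) : ℂ)) := by
  have hs : 0 < √lam := Real.sqrt_pos.2 hlam
  have e1 : ∀ y : ℂ, T0 y * comb S c A φ (z + y / ((√lam : ℝ) : ℂ)) =
      ∑ q ∈ S, c q * (T0 y * (Real.sin (A * q.1 / √lam * y.re + (A * q.1 * z.re + φ)) *
        Real.sin (A * q.2 / √lam * y.im + (A * q.2 * z.im + φ)))) := by
    intro y
    unfold comb
    rw [Finset.mul_sum]
    refine Finset.sum_congr rfl fun q _ => ?_
    simp only [Complex.add_re, Complex.add_im, Complex.div_ofReal_re, Complex.div_ofReal_im]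
    have a1 : A * q.1 * (z.re + y.re / √lam) + φ =
        A * q.1 / √lam * y.re + (A * q.1 * z.re + φ) := by ring
    have a2 : A * q.2 * (z.im + y.im / √lam) + φ =
        A * q.2 / √lam * y.im + (A * q.2 * z.im + φ) := by ring
    rw [a1, a2]
    ring
  simp only [e1]
  rw [integral_finsetSum _ fun q _ => (int_T0 _ (by fun_prop)).const_mul _]
  unfold comb
  rw [Finset.mul_sum]
  refine Finset.sum_congr rfl fun q hq => ?_
  have hq' : (A * q.1 / √lam) ^ 2 + (A * q.2 / √lam) ^ 2 = 1 := by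
    rw [div_pow, div_pow, Real.sq_sqrt hlam.le, ← add_div, hS q hq, div_self hlam.ne']
  rw [integral_const_mul, h.2 _ _ _ _ hq']
  ring

end

end Pool.Agent.Zk91.SQ
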