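import Pool.Agent.Zk91.SQ.Seq
import Pool.Agent.Zk91.KB.Lev3

/-!
# Orthogonal transformations of an orthonormal basis
-/

set_option autoImplicit false

open Filter Topology MeasureTheory

namespace Pool.Agent.Zk91.SQ

open Pool.Agent.Zk91.KB (Orth)

noncomputable section

theorem orth_tr {S : Finset (ℕ × ℕ)} {O : ℕ × ℕ → ℕ × ℕ → ℝ} (hO : Orth S O) (q : ℕ × ℕ)
    (hq : q ∈ S) (q' : ℕ × ℕ) (hq' : q' ∈ S) :
    ∑ p ∈ S, O p q * O p q' = if q = q' then 1 else 0 := by
  classical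
  set M : Matrix {p // p ∈ S} {p // p ∈ S} ℝ := fun i j => O i j with hM
  have h1 : M * M.transpose = 1 := by
    ext i j
    rw [Matrix.mul_apply]
    have h := hO i i.2 j j.2
    rw [← Finset.sum_coe_sort] at h
    simp only [Matrix.transpose_apply, hM]
    rw [h, Matrix.one_apply]
    by_cases hij : i = j
    · rw [if_pos hij, if_pos (by rw [hij])]
    · rw [if_neg hij, if_neg (fun h' => hij (Subtype.ext h'))]
  have h2 : M.transpose * M = 1 := mul_eq_one_comm.1 h1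
  have h3 := congrFun (congrFun h2 ⟨q, hq⟩) ⟨q', hq'⟩
  rw [Matrix.mul_apply] at h3
  simp only [Matrix.transpose_apply, hM] at h3
  rw [← Finset.sum_coe_sort]
  refine h3.trans ?_
  rw [Matrix.one_apply]
  by_cases hij : q = q'
  · rw [if_pos (Subtype.ext hij), if_pos hij]
  · rw [if_neg (fun h' => hij (congrArg Subtype.val h')), if_neg hij]

variable {I : Set (ℕ × ℕ)} {T : ℕ → Finset (ℕ × ℕ)} {b : ℕ × ℕ → ℂ → ℝ} {Ω : Set ℂ} {A2 : ℝ}
  {O : ℕ × ℕ → ℕ × ℕ → ℝ}

/-- the transformed functions -/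
def tr (T : ℕ → Finset (ℕ × ℕ)) (O : ℕ × ℕ → ℕ × ℕ → ℝ) (b : ℕ × ℕ → ℂ → ℝ) (p : ℕ × ℕ) (z : ℂ) :
    ℝ := ∑ q ∈ T (nrm p), O p q * b q z

theorem tr_orth (hT : ∀ N q, q ∈ T N ↔ q ∈ I ∧ nrm q = N)
    (hb : ∀ p ∈ I, ∀ q ∈ I, ∫ z in Ω, b p z * b q z = if p = q then A2 else 0)
    (hi : ∀ p q, IntegrableOn (fun z => b p z * b q z) Ω) (hO : ∀ N, Orth (T N) O) (p : ℕ × ℕ)
    (hp : p ∈ I) (p' : ℕ × ℕ) (hp' : p' ∈ I) :
    ∫ z in Ω, tr T O b p z * tr T O b p' z = if p = p' then A2 else 0 := by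
  classical
  have e1 : ∀ z, tr T O b p z * tr T O b p' z = ∑ q ∈ T (nrm p), ∑ q' ∈ T (nrm p'),
      (O p q * O p' q') * (b q z * b q' z) := by
    intro z
    unfold tr
    rw [Finset.sum_mul_sum]
    refine Finset.sum_congr rfl fun q _ => Finset.sum_congr rfl fun q' _ => ?_
    ring
  simp only [e1]
  rw [integral_finsetSum _ fun q _ => integrable_finsetSum _ fun q' _ => (hi q q').const_mul _]
  have e2 : ∀ q ∈ T (nrm p), ∫ z in Ω, ∑ q' ∈ T (nrm p'), (O p q * O p' q') * (b q z * b q' z) =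
      ∑ q' ∈ T (nrm p'), (O p q * O p' q') * (if q = q' then A2 else 0) := by
    intro q hq
    rw [integral_finsetSum _ fun q' _ => (hi q q').const_mul _]
    refine Finset.sum_congr rfl fun q' hq' => ?_
    rw [integral_const_mul, hb q ((hT _ _).1 hq).1 q' ((hT _ _).1 hq').1]
  rw [Finset.sum_congr rfl e2]
  by_cases hN : nrm p = nrm p'
  · have e3 : ∀ q ∈ T (nrm p), ∑ q' ∈ T (nrm p'), (O p q * O p' q') * (if q = q' then A2 else 0) =
        A2 * (O p q * O p' q) := by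
      intro q hq
      rw [Finset.sum_eq_single q]
      · rw [if_pos rfl]
        ring
      · intro q' _ hne
        rw [if_neg (Ne.symm hne), mul_zero]
      · intro h
        exact absurd (hN ▸ hq) h
    rw [Finset.sum_congr rfl e3, ← Finset.mul_sum,
      hO (nrm p) p ((hT _ _).2 ⟨hp, rfl⟩) p' ((hT _ _).2 ⟨hp', hN.symm⟩)]
    split_ifs
    · ring
    · ring
  · have e3 : ∀ q ∈ T (nrm p), ∑ q' ∈ T (nrm p'), (O p q * O p' q') * (if q = q' then A2 else 0) =
        0 := by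
      intro q hq
      refine Finset.sum_eq_zero fun q' hq' => ?_
      rw [if_neg, mul_zero]
      intro h
      subst h
      exact hN (((hT _ _).1 hq).2.symm.trans ((hT _ _).1 hq').2)
    rw [Finset.sum_congr rfl e3, Finset.sum_const_zero, if_neg]
    intro h
    exact hN (by rw [h])

theorem tr_inv (hT : ∀ N q, q ∈ T N ↔ q ∈ I ∧ nrm q = N) (hO : ∀ N, Orth (T N) O) (q : ℕ × ℕ)
    (hq : q ∈ I) (z : ℂ) : ∑ p ∈ T (nrm q), O p q * tr T O b p z = b q z := by
  classical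
  have e1 : ∑ p ∈ T (nrm q), O p q * tr T O b p z =
      ∑ q' ∈ T (nrm q), (∑ p ∈ T (nrm q), O p q * O p q') * b q' z := by
    have h1 : ∀ p ∈ T (nrm q), O p q * tr T O b p z =
        ∑ q' ∈ T (nrm q), O p q * O p q' * b q' z := by
      intro p hp
      unfold tr
      rw [((hT _ _).1 hp).2, Finset.mul_sum]
      exact Finset.sum_congr rfl fun q' _ => by ring
    rw [Finset.sum_congr rfl h1, Finset.sum_comm]
    refine Finset.sum_congr rfl fun q' _ => ?_
    rw [Finset.sum_mul]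
  have hqT : q ∈ T (nrm q) := (hT _ _).2 ⟨hq, rfl⟩
  rw [e1, Finset.sum_eq_single q]
  · rw [orth_tr (hO _) q hqT q hqT, if_pos rfl, one_mul]
  · intro q' hq' hne
    rw [orth_tr (hO _) q hqT q' hq', if_neg (Ne.symm hne), zero_mul]
  · intro h
    exact absurd hqT h

theorem tr_compl (hT : ∀ N q, q ∈ T N ↔ q ∈ I ∧ nrm q = N) (hO : ∀ N, Orth (T N) O) (f : ℂ → ℝ)
    (hi : ∀ p, IntegrableOn (fun z => f z * b p z) Ω)
    (hf : ∀ p ∈ I, ∫ z in Ω, f z * tr T O b p z = 0) (q : ℕ × ℕ) (hq : q ∈ I) :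
    ∫ z in Ω, f z * b q z = 0 := by
  have hi2 : ∀ p, IntegrableOn (fun z => f z * tr T O b p z) Ω := by
    intro p
    have e : (fun z => f z * tr T O b p z) = fun z => ∑ q ∈ T (nrm p), O p q * (f z * b q z) := by
      funext z
      unfold tr
      rw [Finset.mul_sum]
      exact Finset.sum_congr rfl fun q _ => by ring
    rw [e]
    exact integrable_finsetSum _ fun q _ => (hi q).const_mul _
  have e1 : ∀ z, f z * b q z = ∑ p ∈ T (nrm q), O p q * (f z * tr T O b p z) := by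
    intro z
    rw [← tr_inv (b := b) hT hO q hq z, Finset.mul_sum]
    exact Finset.sum_congr rfl fun p _ => by ring
  simp only [e1]
  rw [integral_finsetSum _ fun p _ => (hi2 p).const_mul _]
  refine Finset.sum_eq_zero fun p hp => ?_
  rw [integral_const_mul, hf p ((hT _ _).1 hp).1, mul_zero]

end

end Pool.Agent.Zk91.SQ
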