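import Pool.Agent.Zk91.SQ.Dia

/-!
# Enumerations of the points by their norm
-/

set_option autoImplicit false

open Filter Topology Finset

namespace Pool.Agent.Zk91.SQ

noncomputable section

/-- the code of a point -/
def code (p : ℕ × ℕ) : ℕ := nrm p * (nrm p + 1) + p.1

theorem fst_le_nrm (p : ℕ × ℕ) : p.1 ≤ nrm p := by
  unfold nrm
  nlinarith [Nat.zero_le (p.1 * p.1), Nat.zero_le (p.2 ^ 2), Nat.le_self_pow (two_ne_zero) p.1]

theorem code_lt {p q : ℕ × ℕ} (h : nrm p < nrm q) : code p < code q := by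
  unfold code
  have h1 := fst_le_nrm p
  have h2 : (nrm p + 1) * (nrm p + 2) ≤ nrm q * (nrm q + 1) :=
    Nat.mul_le_mul (by omega) (by omega)
  nlinarith

theorem code_mono {p q : ℕ × ℕ} (h : code p ≤ code q) : nrm p ≤ nrm q := by
  by_contra hc
  push Not at hc
  have := code_lt hc
  omega

theorem code_inj : Function.Injective code := by
  intro p q h
  have h1 : nrm p = nrm q := le_antisymm (code_mono h.le) (code_mono h.ge)
  have h2 : p.1 = q.1 := by
    unfold code at h
    rw [h1] at h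
    omega
  have h3 : p.1 ^ 2 + p.2 ^ 2 = q.1 ^ 2 + q.2 ^ 2 := h1
  rw [h2] at h3
  have h4 : p.2 ^ 2 = q.2 ^ 2 := by omega
  exact Prod.ext h2 (Nat.pow_left_injective two_ne_zero h4)

theorem exists_enumeration (I : Set (ℕ × ℕ)) (hI : I.Infinite) :
    ∃ e : ℕ → ℕ × ℕ, Function.Injective e ∧ Set.range e = I ∧ Monotone fun n => nrm (e n) := by
  classical
  set P : ℕ → Prop := fun n => n ∈ code '' I with hP
  have hinf : (Set.ofPred P).Infinite := hI.image code_inj.injOn
  have hmem : ∀ n, ∃ p ∈ I, code p = Nat.nth P n := fun n => Nat.nth_mem_of_infinite hinf n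
  choose e he1 he2 using hmem
  refine ⟨e, ?_, ?_, ?_⟩
  · intro m n h
    have : Nat.nth P m = Nat.nth P n := by rw [← he2, ← he2, h]
    exact Nat.nth_injective hinf this
  · ext p
    constructor
    · rintro ⟨n, rfl⟩
      exact he1 n
    · intro hp
      have h1 : code p ∈ Set.range (Nat.nth P) := by
        rw [Nat.range_nth_of_infinite hinf]
        exact ⟨p, hp, rfl⟩
      obtain ⟨n, hn⟩ := h1
      exact ⟨n, code_inj (by rw [he2, hn])⟩
  · intro m n h
    refine code_mono ?_
    rw [he2, he2]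
    exact Nat.nth_monotone hinf h

/-- all points in the disc -/
def allp (X : ℕ) : Finset (ℕ × ℕ) := (range (X + 1) ×ˢ range (X + 1)).filter fun p => nrm p ≤ X

theorem mem_allp {X : ℕ} {p : ℕ × ℕ} : p ∈ allp X ↔ nrm p ≤ X := by
  unfold allp
  rw [mem_filter, mem_product, mem_range, mem_range]
  constructor
  · exact fun h => h.2
  · intro h
    refine ⟨⟨?_, ?_⟩, h⟩
    · have := fst_le_nrm p
      omega
    · have h1 : p.1 ^ 2 + p.2 ^ 2 ≤ X := h
      nlinarith [Nat.le_self_pow (two_ne_zero) p.2]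

theorem allp_card (X : ℕ) : (allp X).card ≤ (Nat.sqrt X + 1) ^ 2 := by
  have h : allp X ⊆ range (Nat.sqrt X + 1) ×ˢ range (Nat.sqrt X + 1) := by
    intro p hp
    have h4 : p.1 ^ 2 + p.2 ^ 2 ≤ X := mem_allp.1 hp
    rw [mem_product, mem_range, mem_range]
    exact ⟨Nat.lt_succ_of_le (Nat.le_sqrt.2 (by nlinarith)),
      Nat.lt_succ_of_le (Nat.le_sqrt.2 (by nlinarith))⟩
  have h2 := card_le_card h
  rw [card_product, card_range, ← sq] at h2
  exact h2

open Classical in
/-- the number of the indices with a property -/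
def cntI (J : ℕ → Prop) (M : ℕ) : ℕ := ((range M).filter J).card

theorem cntI_add (J : ℕ → Prop) (M : ℕ) : cntI J M + cntI (fun n => ¬ J n) M = M := by
  classical
  unfold cntI
  have := card_filter_add_card_filter_not (s := range M) J
  rw [card_range] at this
  convert this

open Classical in
/-- the number of the points in the disc with a property -/
def cntA (X : ℕ) (B : ℕ × ℕ → Prop) : ℕ := ((allp X).filter B).card

/-- the density of the indices -/
theorem dens (e : ℕ → ℕ × ℕ) (he : Function.Injective e)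
    (hr : ∀ p : ℕ × ℕ, 0 < p.1 → 0 < p.2 → p ∈ Set.range e) (hm : Monotone fun n => nrm (e n))
    (D : Set (ℕ × ℕ)) (hD : ∀ ε : ℝ, 0 < ε → ∀ᶠ X : ℕ in atTop,
      (cntA X (fun p => p ∈ Set.range e ∧ p ∉ D) : ℝ) ≤ ε * X) (ε : ℝ) (hε : 0 < ε) :
    ∀ᶠ M : ℕ in atTop, (cntI (fun n => e n ∉ D) M : ℝ) ≤ ε * M := by
  classical
  obtain ⟨X0, hX0⟩ := eventually_atTop.1 (hD (ε / 16) (by positivity))
  have hlow : ∀ M : ℕ, 0 < M → M ≤ (Nat.sqrt (nrm (e (M - 1))) + 1) ^ 2 := by
    intro M hM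
    refine le_trans ?_ (allp_card _)
    have hsub : (range M).image e ⊆ allp (nrm (e (M - 1))) := by
      intro p hp
      obtain ⟨n, hn, rfl⟩ := mem_image.1 hp
      rw [mem_range] at hn
      exact mem_allp.2 (hm (by omega : n ≤ M - 1))
    have h := card_le_card hsub
    rwa [card_image_of_injective _ he, card_range] at h
  filter_upwards [eventually_ge_atTop ((Nat.sqrt (X0 + 4) + 1) ^ 2 + 1)] with M hM
  have hM0 : 0 < M := by omega
  set X := nrm (e (M - 1)) with hX
  have hXlarge : X0 + 4 ≤ X := by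
    by_contra hc
    push Not at hc
    have h1 : M ≤ (Nat.sqrt X + 1) ^ 2 := hlow M hM0
    have h2 : Nat.sqrt X ≤ Nat.sqrt (X0 + 4) := Nat.sqrt_le_sqrt hc.le
    have h3 : (Nat.sqrt X + 1) ^ 2 ≤ (Nat.sqrt (X0 + 4) + 1) ^ 2 :=
      Nat.pow_le_pow_left (by omega) 2
    omega
  have h1 : cntI (fun n => e n ∉ D) M ≤ cntA X (fun p => p ∈ Set.range e ∧ p ∉ D) := by
    unfold cntA cntI
    refine card_le_card_of_injOn e (fun n hn => ?_) he.injOn
    simp only [mem_coe, mem_filter, mem_range] at hn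
    simp only [mem_coe, mem_filter]
    exact ⟨mem_allp.2 (hm (by omega : n ≤ M - 1)), ⟨n, rfl⟩, hn.2⟩
  have h2 := hX0 X (by omega)
  have h3 : (tri (X - 1)).card ≤ M := by
    have hsub : tri (X - 1) ⊆ (range M).image e := by
      intro p hp
      obtain ⟨a1, a2, a3⟩ := mem_tri.1 hp
      obtain ⟨n, rfl⟩ := hr p a1 a2
      rw [mem_image]
      refine ⟨n, ?_, rfl⟩
      rw [mem_range]
      by_contra hc
      push Not at hc
      have : X ≤ nrm (e n) := hm (by omega : M - 1 ≤ n)
      omega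
    have h := card_le_card hsub
    rwa [card_image_of_injective _ he, card_range] at h
  have h4 := tri_card_ge (X - 1) (by omega)
  have h5 : X ≤ 16 * M := by omega
  have h6 : (X : ℝ) ≤ 16 * M := by exact_mod_cast h5
  calc (cntI (fun n => e n ∉ D) M : ℝ) ≤
        (cntA X (fun p => p ∈ Set.range e ∧ p ∉ D) : ℝ) := by exact_mod_cast h1
    _ ≤ ε / 16 * X := h2
    _ ≤ ε / 16 * (16 * M) := mul_le_mul_of_nonneg_left h6 (by positivity)
    _ = ε * M := by ring

/-- a subsequence of full density -/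
theorem exists_sub (J : ℕ → Prop) (hJ : ∀ ε : ℝ, 0 < ε → ∀ᶠ M : ℕ in atTop,
      (cntI (fun n => ¬ J n) M : ℝ) ≤ ε * M) :
    ∃ σ : ℕ → ℕ, StrictMono σ ∧ (∀ j, J (σ j)) ∧
      Tendsto (fun N : ℕ => (Nat.card {j // σ j ≤ N} : ℝ) / N) atTop (𝓝 1) := by
  classical
  have hinf : (Set.ofPred J).Infinite := by
    intro hfin
    have h1 := hJ (1 / 2) (by norm_num)
    obtain ⟨M, h2, h3⟩ := (h1.and (eventually_gt_atTop (2 * hfin.toFinset.card))).exists
    have h4 : cntI J M ≤ hfin.toFinset.card := by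
      unfold cntI
      refine card_le_card fun n hn => ?_
      simp only [mem_filter] at hn
      exact hfin.mem_toFinset.2 hn.2
    have h5 := cntI_add J M
    have h6 : (M : ℝ) = (cntI J M : ℝ) + (cntI (fun n => ¬ J n) M : ℝ) := by
      exact_mod_cast h5.symm
    have h7 : (cntI J M : ℝ) ≤ hfin.toFinset.card := by exact_mod_cast h4
    have h8 : (2 : ℝ) * hfin.toFinset.card < M := by exact_mod_cast h3
    linarith
  refine ⟨Nat.nth J, Nat.nth_strictMono hinf, fun j => Nat.nth_mem_of_infinite hinf j, ?_⟩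
  have hcard : ∀ N, Nat.card {j // Nat.nth J j ≤ N} = cntI J (N + 1) := by
    intro N
    have h1 : Nat.count J (N + 1) = cntI J (N + 1) := by
      rw [Nat.count_eq_card_filter_range]
      unfold cntI
      congr!
    rw [← h1]
    have h2 : ∀ j, Nat.nth J j ≤ N ↔ j < Nat.count J (N + 1) := by
      intro j
      rw [← Nat.lt_succ_iff]
      exact (Nat.lt_nth_iff_count_lt hinf).symm
    rw [Nat.card_congr (Equiv.subtypeEquivRight h2), Nat.card_congr Fin.equivSubtype.symm,
      Nat.card_eq_fintype_card, Fintype.card_fin]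
  have hlim : Tendsto (fun N : ℕ => (cntI (fun n => ¬ J n) (N + 1) : ℝ) / (N + 1 : ℕ)) atTop
      (𝓝 0) := by
    rw [Metric.tendsto_atTop]
    intro ε hε
    obtain ⟨M0, hM0⟩ := eventually_atTop.1 (hJ (ε / 2) (by positivity))
    refine ⟨M0, fun N hN => ?_⟩
    have h1 := hM0 (N + 1) (by omega)
    rw [Real.dist_eq, sub_zero, abs_of_nonneg (by positivity), div_lt_iff₀ (by positivity)]
    have : (0 : ℝ) < ((N + 1 : ℕ) : ℝ) := by positivity
    nlinarith
  have hlim2 : Tendsto (fun N : ℕ => ((N + 1 : ℕ) : ℝ) / N) atTop (𝓝 1) := by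
    have h1 : Tendsto (fun N : ℕ => 1 + 1 / (N : ℝ)) atTop (𝓝 (1 + 0)) :=
      tendsto_const_nhds.add tendsto_one_div_atTop_nhds_zero_nat
    rw [add_zero] at h1
    refine h1.congr' ?_
    filter_upwards [eventually_gt_atTop 0] with N hN
    have : (N : ℝ) ≠ 0 := by positivity
    push_cast
    field_simp
  have hmul := (tendsto_const_nhds (x := (1 : ℝ))).sub hlim |>.mul hlim2
  rw [sub_zero, one_mul] at hmul
  refine hmul.congr' ?_
  filter_upwards [eventually_gt_atTop 0] with N hN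
  rw [hcard]
  have h5 := cntI_add J (N + 1)
  have h6 : (cntI J (N + 1) : ℝ) = ((N + 1 : ℕ) : ℝ) - (cntI (fun n => ¬ J n) (N + 1) : ℝ) := by
    rw [eq_sub_iff_add_eq]
    exact_mod_cast h5
  rw [h6]
  have h7 : ((N + 1 : ℕ) : ℝ) ≠ 0 := by positivity
  have h8 : (N : ℝ) ≠ 0 := by positivity
  field_simp

end

end Pool.Agent.Zk91.SQ
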