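import Pool.Agent.Zk91.SQ.Defs2

/-!
# Almost all circles have small angular sums (from the modules)
-/

set_option autoImplicit false

open Filter Topology

namespace Pool.Agent.Zk91.SQ

noncomputable section

theorem exists_P (h2 : ∀ k : ℕ, 0 < k → ¬ Summable fun p : {p : ℕ // P1 p} =>
    (1 - |cc k p|) / (p : ℝ)) (hc : ∀ k p : ℕ, |cc k p| ≤ 1) (k : ℕ) (hk : 0 < k) (B : ℝ) :
    ∃ P : Finset ℕ, (∀ p ∈ P, P1 p) ∧ B ≤ ∑ p ∈ P, (1 - |cc k p|) / (p : ℝ) := by
  classical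
  by_contra hcon
  push Not at hcon
  refine h2 k hk (summable_of_sum_le (c := B) (fun p => div_nonneg (by linarith [hc k p])
    (Nat.cast_nonneg _)) fun u => ?_)
  have h := hcon (u.map (Function.Embedding.subtype _)) (fun p hp => by
    rw [Finset.mem_map] at hp
    obtain ⟨q, _, rfl⟩ := hp
    exact q.2)
  rw [Finset.sum_map] at h
  exact h.le

theorem abs_psi_le (k : ℕ) (ξ : G) : ‖psi k ξ‖ ≤ 1 := by
  have h : ‖GaussianInt.toComplex ξ‖ ^ 2 = (ξ.norm : ℝ) := by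
    have := GaussianInt.intCast_real_norm ξ
    rw [this, Complex.normSq_eq_norm_sq]
  have h0 : (0 : ℝ) ≤ (ξ.norm : ℝ) := by rw [← h]; positivity
  unfold psi
  rw [norm_div, norm_pow, norm_pow, Complex.norm_intCast, abs_of_nonneg h0, ← h, ← pow_mul,
    show 2 * (2 * k) = 4 * k by ring]
  exact div_self_le_one _

theorem abs_cc_le (k p : ℕ) : |cc k p| ≤ 1 :=
  (Complex.abs_re_le_norm _).trans (abs_psi_le k _)

/-- the density of the primes -/
theorem del_ge {p : ℕ} (hp : P1 p) : (1 / 4 : ℝ) * (1 / (p : ℝ)) ≤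
    (1 / (p : ℝ)) * (1 - 1 / (p : ℝ)) ^ 2 := by
  have h2 : (2 : ℝ) ≤ p := by exact_mod_cast hp.1.two_le
  have h3 : 1 / (p : ℝ) ≤ 1 / 2 := one_div_le_one_div_of_le (by norm_num) h2
  have h4 : (1 / 2 : ℝ) ^ 2 ≤ (1 - 1 / (p : ℝ)) ^ 2 :=
    pow_le_pow_left₀ (by norm_num) (by linarith) 2
  have h5 : 0 < 1 / (p : ℝ) := by positivity
  nlinarith

theorem mean_small (h1 : S_M1) (h2 : S_M2) (h3 : S_M3) (h4 : S_M4) (k : ℕ) (hk : 0 < k) (ε : ℝ)
    (hε : 0 < ε) : ∀ᶠ X : ℕ in atTop,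
      ∑ ξ ∈ disc X, ‖A k ξ.norm.toNat‖ / ((circ ξ.norm.toNat).card : ℝ) ≤ ε * X := by
  classical
  set B : ℝ := 4 * Real.log (2 * Real.pi / ε) with hB
  obtain ⟨P, hP, hPB⟩ := exists_P (h2 h1) abs_cc_le k hk B
  set a : ℕ → ℝ := fun p => 1 - |cc k p| with ha
  have ha1 : ∀ p, 0 ≤ a p ∧ a p ≤ 1 := fun p => by
    have := abs_cc_le k p
    have h := abs_nonneg (cc k p)
    simp only [ha]
    constructor <;> linarith
  have hlim := h3 P hP a ha1
  have hprod : Real.pi * ∏ p ∈ P, (1 - a p * ((1 / (p : ℝ)) * (1 - 1 / (p : ℝ)) ^ 2)) ≤ ε / 2 := by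
    have e1 : ∏ p ∈ P, (1 - a p * ((1 / (p : ℝ)) * (1 - 1 / (p : ℝ)) ^ 2)) ≤
        ∏ p ∈ P, Real.exp (-(1 / 4 * (a p / p))) := by
      refine Finset.prod_le_prod (fun p hp => ?_) fun p hp => ?_
      · have h2 : (2 : ℝ) ≤ p := by exact_mod_cast (hP p hp).1.two_le
        have h3 : 1 / (p : ℝ) ≤ 1 / 2 := one_div_le_one_div_of_le (by norm_num) h2
        have h5 : 0 < 1 / (p : ℝ) := by positivity
        have h6 : (1 - 1 / (p : ℝ)) ^ 2 ≤ 1 := pow_le_one₀ (by linarith) (by linarith)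
        have h7 : (1 / (p : ℝ)) * (1 - 1 / (p : ℝ)) ^ 2 ≤ 1 := by
          nlinarith [sq_nonneg (1 - 1 / (p : ℝ))]
        have h8 : 0 ≤ (1 / (p : ℝ)) * (1 - 1 / (p : ℝ)) ^ 2 := by positivity
        nlinarith [(ha1 p).1, (ha1 p).2]
      · have h := Real.add_one_le_exp (-(1 / 4 * (a p / p)))
        have h' := mul_le_mul_of_nonneg_left (del_ge (hP p hp)) (ha1 p).1
        have e : a p * (1 / 4 * (1 / (p : ℝ))) = 1 / 4 * (a p / p) := by ring
        rw [e] at h'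
        linarith
    have e2 : ∏ p ∈ P, Real.exp (-(1 / 4 * (a p / p))) ≤ ε / (2 * Real.pi) := by
      rw [← Real.exp_sum, Finset.sum_neg_distrib, ← Finset.mul_sum]
      have h5 : -(1 / 4 * ∑ p ∈ P, a p / (p : ℝ)) ≤ -Real.log (2 * Real.pi / ε) := by
        have : B ≤ ∑ p ∈ P, a p / (p : ℝ) := hPB
        rw [hB] at this
        linarith
      refine (Real.exp_le_exp.2 h5).trans (le_of_eq ?_)
      rw [Real.exp_neg, Real.exp_log (by positivity), inv_div]
    calc Real.pi * _ ≤ Real.pi * (ε / (2 * Real.pi)) :=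
          mul_le_mul_of_nonneg_left (e1.trans e2) Real.pi_pos.le
      _ = ε / 2 := by field_simp
  have hev := hlim.eventually (gt_mem_nhds (hprod.trans_lt (by linarith : ε / 2 < ε)))
  filter_upwards [hev, eventually_gt_atTop 0] with X hX hX0
  have hX0' : (0 : ℝ) < X := by exact_mod_cast hX0
  have h5 : ∑ ξ ∈ disc X, ‖A k ξ.norm.toNat‖ / ((circ ξ.norm.toNat).card : ℝ) ≤
      ∑ ξ ∈ disc X, ∏ p ∈ P, (1 - a p * ind p ξ) := by
    refine Finset.sum_le_sum fun ξ hξ => ?_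
    have hξ0 := ((mem_disc X ξ).1 hξ).1
    have hne : (0 : ℝ) < ((circ ξ.norm.toNat).card : ℝ) := by
      have : 0 < (circ ξ.norm.toNat).card := Finset.card_pos.2 ⟨ξ, by
        rw [mem_circ]
        have := GaussianInt.norm_nonneg ξ
        omega⟩
      exact_mod_cast this
    rw [div_le_iff₀ hne]
    exact h4 k P hP ξ hξ0
  refine h5.trans ?_
  have h6 : (1 / (X : ℝ)) * ∑ ξ ∈ disc X, ∏ p ∈ P, (1 - a p * ind p ξ) ≤ ε := hX.le
  rw [one_div, inv_mul_le_iff₀ hX0'] at h6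
  linarith

/-- the circles with small angular sums -/
def Small (m : ℕ) (δ : ℝ) (N : ℕ) : Prop := ∀ k : ℕ, 0 < k → k ≤ m → ‖A k N‖ ≤ δ * (circ N).card

open Classical in
theorem T (h1 : S_M1) (h2 : S_M2) (h3 : S_M3) (h4 : S_M4) (m : ℕ) (δ : ℝ) (hδ : 0 < δ) (ε : ℝ)
    (hε : 0 < ε) : ∀ᶠ X : ℕ in atTop,
      (((disc X).filter fun ξ => ¬ Small m δ ξ.norm.toNat).card : ℝ) ≤ ε * X := by
  have hm : (0 : ℝ) < m + 1 := by positivity
  have hall : ∀ᶠ X : ℕ in atTop, ∀ k ∈ Finset.Icc 1 m,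
      ∑ ξ ∈ disc X, ‖A k ξ.norm.toNat‖ / ((circ ξ.norm.toNat).card : ℝ) ≤
        (ε * δ / (m + 1)) * X := by
    rw [Filter.eventually_all_finset]
    intro k hk
    exact mean_small h1 h2 h3 h4 k (Finset.mem_Icc.1 hk).1 _ (by positivity)
  filter_upwards [hall] with X hX
  have hX0 : (0 : ℝ) ≤ X := by positivity
  have hsub : (disc X).filter (fun ξ => ¬ Small m δ ξ.norm.toNat) ⊆
      (Finset.Icc 1 m).biUnion fun k => (disc X).filter fun ξ =>
        δ * (circ ξ.norm.toNat).card < ‖A k ξ.norm.toNat‖ := by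
    intro ξ hξ
    rw [Finset.mem_filter] at hξ
    obtain ⟨h5, h6⟩ := hξ
    unfold Small at h6
    push Not at h6
    obtain ⟨k, hk0, hkm, hk⟩ := h6
    rw [Finset.mem_biUnion]
    exact ⟨k, Finset.mem_Icc.2 ⟨hk0, hkm⟩, Finset.mem_filter.2 ⟨h5, hk⟩⟩
  have hone : ∀ k ∈ Finset.Icc 1 m, (((disc X).filter fun ξ =>
      δ * (circ ξ.norm.toNat).card < ‖A k ξ.norm.toNat‖).card : ℝ) ≤ ε / (m + 1) * X := by
    intro k hk
    have h7 : δ * (((disc X).filter fun ξ =>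
        δ * (circ ξ.norm.toNat).card < ‖A k ξ.norm.toNat‖).card : ℝ) ≤
        ∑ ξ ∈ disc X, ‖A k ξ.norm.toNat‖ / ((circ ξ.norm.toNat).card : ℝ) := by
      rw [mul_comm, ← nsmul_eq_mul, ← Finset.sum_const]
      refine (Finset.sum_le_sum fun ξ hξ => ?_).trans
        (Finset.sum_le_sum_of_subset_of_nonneg (Finset.filter_subset _ _)
          fun ξ _ _ => by positivity)
      rw [Finset.mem_filter, mem_disc] at hξ
      have hne : (0 : ℝ) < ((circ ξ.norm.toNat).card : ℝ) := by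
        have : 0 < (circ ξ.norm.toNat).card := Finset.card_pos.2 ⟨ξ, by
          rw [mem_circ]
          have := GaussianInt.norm_nonneg ξ
          omega⟩
        exact_mod_cast this
      rw [le_div_iff₀ hne]
      exact hξ.2.le
    have h8 := h7.trans (hX k hk)
    have h9 : δ * (((disc X).filter fun ξ =>
        δ * (circ ξ.norm.toNat).card < ‖A k ξ.norm.toNat‖).card : ℝ) ≤
        δ * (ε / (m + 1) * X) := by
      refine h8.trans (le_of_eq ?_)
      ring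
    exact le_of_mul_le_mul_left h9 hδ
  have hcard : (((disc X).filter fun ξ => ¬ Small m δ ξ.norm.toNat).card : ℝ) ≤
      ∑ k ∈ Finset.Icc 1 m, (((disc X).filter fun ξ =>
        δ * (circ ξ.norm.toNat).card < ‖A k ξ.norm.toNat‖).card : ℝ) := by
    exact_mod_cast (Finset.card_le_card hsub).trans Finset.card_biUnion_le
  refine hcard.trans ((Finset.sum_le_sum hone).trans ?_)
  rw [Finset.sum_const, Nat.card_Icc, nsmul_eq_mul]
  have : ((m + 1 - 1 : ℕ) : ℝ) ≤ m + 1 := by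
    push_cast [Nat.add_sub_cancel]
    linarith
  calc ((m + 1 - 1 : ℕ) : ℝ) * (ε / (m + 1) * X) ≤ (m + 1) * (ε / (m + 1) * X) :=
        mul_le_mul_of_nonneg_right this (by positivity)
    _ = ε * X := by field_simp

end

end Pool.Agent.Zk91.SQ
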