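import Pool.Agent.Zk91.SQ.Mv
import Pool.Agent.Zk91.KB.Cut

/-!
# Asymptotic tightness
-/

set_option autoImplicit false

open MeasureTheory Filter Topology

namespace Pool.Agent.Zk91.SQ

open Pool.Agent.N661.BR (resc IsCutoff)
open scoped ENNReal NNReal

noncomputable section

/-- the local mean square -/
def VR (lam : ℝ) (u : ℂ → ℝ) (R : ℕ) (z : ℂ) : ℝ :=
  ∫ y in Metric.closedBall (0 : ℂ) ((R : ℝ) + 1), u (z + y / ((√lam : ℝ) : ℂ)) ^ 2

theorem VR_nonneg (lam : ℝ) (u : ℂ → ℝ) (R : ℕ) (z : ℂ) : 0 ≤ VR lam u R z :=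
  integral_nonneg fun _ => sq_nonneg _

theorem int_uncurry (lam : ℝ) (u : ℂ → ℝ) (hu : Continuous u) (Ω : Set ℂ)
    (hb : Bornology.IsBounded Ω) (R : ℕ) : Integrable (Function.uncurry fun (z y : ℂ) =>
      u (z + y / ((√lam : ℝ) : ℂ)) ^ 2) ((volume.restrict Ω).prod
        (volume.restrict (Metric.closedBall (0 : ℂ) ((R : ℝ) + 1)))) := by
  rw [Measure.prod_restrict]
  have hcont : Continuous (Function.uncurry fun (z y : ℂ) => u (z + y / ((√lam : ℝ) : ℂ)) ^ 2) := by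
    have h1 : Continuous fun p : ℂ × ℂ => p.1 + p.2 / ((√lam : ℝ) : ℂ) :=
      continuous_fst.add (continuous_snd.div_const _)
    exact (hu.comp h1).pow 2
  have hK : IsCompact (closure Ω ×ˢ Metric.closedBall (0 : ℂ) ((R : ℝ) + 1)) :=
    hb.isCompact_closure.prod (isCompact_closedBall _ _)
  exact (hcont.continuousOn.integrableOn_compact hK).mono_set
    (Set.prod_mono subset_closure le_rfl)

theorem VR_integrable (lam : ℝ) (u : ℂ → ℝ) (hu : Continuous u) (Ω : Set ℂ)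
    (hb : Bornology.IsBounded Ω) (R : ℕ) : IntegrableOn (VR lam u R) Ω :=
  (int_uncurry lam u hu Ω hb R).integral_prod_left

theorem VR_mean (lam : ℝ) (u : ℂ → ℝ) (hu : Continuous u) (Ω : Set ℂ)
    (hb : Bornology.IsBounded Ω) (R : ℕ) (B : ℝ)
    (hw : ∀ c : ℂ, ∫ z in Ω, u (z + c) ^ 2 ≤ B) :
    ∫ z in Ω, VR lam u R z ≤ B * volume.real (Metric.closedBall (0 : ℂ) ((R : ℝ) + 1)) := by
  have hB := int_uncurry lam u hu Ω hb R
  unfold VR
  rw [integral_integral_swap hB]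
  have hfin : IsFiniteMeasure (volume.restrict (Metric.closedBall (0 : ℂ) ((R : ℝ) + 1))) :=
    ⟨by rw [Measure.restrict_apply_univ]; exact measure_closedBall_lt_top⟩
  have h1 : ∫ y in Metric.closedBall (0 : ℂ) ((R : ℝ) + 1), ∫ z in Ω,
      u (z + y / ((√lam : ℝ) : ℂ)) ^ 2 ≤ ∫ _y in Metric.closedBall (0 : ℂ) ((R : ℝ) + 1), B := by
    refine integral_mono hB.swap.integral_prod_left (integrable_const _) fun y => ?_
    exact hw _
  refine h1.trans (le_of_eq ?_)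
  rw [setIntegral_const, smul_eq_mul, mul_comm]

theorem markov (lam : ℝ) (u : ℂ → ℝ) (hu : Continuous u) (Ω : Set ℂ) (hΩ : IsOpen Ω)
    (hb : Bornology.IsBounded Ω) (R : ℕ) (B : ℝ) (hB : 0 ≤ B)
    (hw : ∀ c : ℂ, ∫ z in Ω, u (z + c) ^ 2 ≤ B) (δ : ℝ) (hδ : 0 < δ) :
    volume {z | z ∈ Ω ∧ (B * volume.real (Metric.closedBall (0 : ℂ) ((R : ℝ) + 1)) + 1) / δ ≤
      VR lam u R z} ≤ ENNReal.ofReal δ := by
  set W : ℝ := volume.real (Metric.closedBall (0 : ℂ) ((R : ℝ) + 1)) with hW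
  have hW0 : 0 ≤ W := measureReal_nonneg
  set t : ℝ := (B * W + 1) / δ with ht
  have ht0 : 0 < t := by positivity
  have hi := VR_integrable lam u hu Ω hb R
  have h1 := mul_meas_ge_le_integral_of_nonneg (μ := volume.restrict Ω)
    (ae_of_all _ fun z => VR_nonneg lam u R z) hi t
  have h2 := VR_mean lam u hu Ω hb R B hw
  have h3 : (volume.restrict Ω).real {z | t ≤ VR lam u R z} ≤ δ := by
    have h4 : t * (volume.restrict Ω).real {z | t ≤ VR lam u R z} ≤ t * δ := by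
      refine h1.trans (h2.trans ?_)
      rw [ht, div_mul_cancel₀ _ hδ.ne']
      linarith
    exact le_of_mul_le_mul_left h4 ht0
  have h5 : volume {z | z ∈ Ω ∧ t ≤ VR lam u R z} = (volume.restrict Ω) {z | t ≤ VR lam u R z} := by
    rw [Measure.restrict_apply₀' hΩ.measurableSet.nullMeasurableSet]
    congr 1
    ext z
    simp [and_comm]
  have hfin : IsFiniteMeasure (volume.restrict Ω) :=
    ⟨by rw [Measure.restrict_apply_univ]; exact hb.measure_lt_top⟩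
  rw [h5]
  rw [← ENNReal.ofReal_toReal (measure_ne_top (volume.restrict Ω) _)]
  exact ENNReal.ofReal_le_ofReal h3

/-- the deterministic part -/
theorem mem_Kc (h2 : S_W2) (hkp : 0 < kp) (L : ℝ) (hL : 0 < L) (χ : ℝ → ℝ)
    (hχ : IsCutoff χ) (hLχ : ∀ s t : ℝ, 0 ≤ s → 0 ≤ t → |χ s - χ t| ≤ L * |s - t|)
    (T : ℕ → ℝ) : ∃ M : ℕ → ℝ, ∀ (Ω : Set ℂ) (lam : ℝ), 0 < lam → ∀ u : ℂ → ℝ, Continuous u →
      (∀ z, kp * u z = ∫ y : ℂ, T0 y * u (z + y / ((√lam : ℝ) : ℂ))) → ∀ z : ℂ,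
      1 ≤ √lam * Metric.infDist z (frontier Ω) → (∀ R, VR lam u R z < T R) →
      ∀ f : C(ℂ, ℝ), (∀ w, f w = resc χ Ω lam u z w) → f ∈ Kc M := by
  choose C hC0 hC using fun R : ℕ => h2 hkp (R : ℝ) (Nat.cast_nonneg R)
  refine ⟨fun R => (1 + L) * √(C R * T R), fun Ω lam hlam u hu hmv z hz hV f hf => ?_⟩
  intro R w w' hw hw'
  have hs : 0 < √lam := Real.sqrt_pos.2 hlam
  set v : ℂ → ℝ := fun y => u (z + y / ((√lam : ℝ) : ℂ)) with hv
  have hvc : Continuous v := hu.comp (continuous_const.add (continuous_id.div_const _))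
  have hvm : ∀ y, kp * v y = ∫ x : ℂ, T0 x * v (y + x) := by
    intro y
    simp only [hv]
    rw [hmv]
    refine integral_congr_ae (ae_of_all _ fun x => ?_)
    simp only
    congr 2
    rw [add_div, add_assoc]
  have key := hC R v hvc hvm
  have hVR : VR lam u R z = ∫ y in Metric.closedBall (0 : ℂ) ((R : ℝ) + 1), v y ^ 2 := rfl
  have hT : VR lam u R z < T R := hV R
  have hV0 := VR_nonneg lam u R z
  have hCR := hC0 R
  set Q := √(C R * T R) with hQ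
  have hQ0 : 0 ≤ Q := Real.sqrt_nonneg _
  have hQ2 : C R * VR lam u R z ≤ Q ^ 2 := by
    rw [hQ, Real.sq_sqrt (mul_nonneg hCR.le (hV0.trans hT.le))]
    exact mul_le_mul_of_nonneg_left hT.le hCR.le
  have hval : ∀ y : ℂ, ‖y‖ ≤ R → |v y| ≤ Q := by
    intro y hy
    have h3 := (key y y hy hy).1
    rw [← hVR] at h3
    exact abs_le_of_sq_le_sq (h3.trans hQ2) hQ0
  have hdif : |v w - v w'| ≤ Q * ‖w - w'‖ := by
    have h3 := (key w w' hw hw').2
    rw [← hVR] at h3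
    refine abs_le_of_sq_le_sq (h3.trans ?_) (by positivity)
    calc C R * ‖w - w'‖ ^ 2 * VR lam u R z = (C R * VR lam u R z) * ‖w - w'‖ ^ 2 := by ring
      _ ≤ Q ^ 2 * ‖w - w'‖ ^ 2 := mul_le_mul_of_nonneg_right hQ2 (sq_nonneg _)
      _ = _ := by ring
  set d := √lam * Metric.infDist z (frontier Ω) with hd
  have hd0 : 0 < d := by linarith
  have hfw : ∀ y, f y = v y * χ (‖y‖ / d) := fun y => hf y
  have hs0 : ∀ y : ℂ, 0 ≤ ‖y‖ / d := fun y => by positivity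
  have hχ1 : ∀ y : ℂ, |χ (‖y‖ / d)| ≤ 1 := by
    intro y
    have := hχ.mem _ (hs0 y)
    rw [abs_of_nonneg this.1]
    exact this.2
  have hχ2 : |χ (‖w‖ / d) - χ (‖w'‖ / d)| ≤ L * ‖w - w'‖ := by
    refine (hLχ _ _ (hs0 w) (hs0 w')).trans (mul_le_mul_of_nonneg_left ?_ hL.le)
    rw [← sub_div, abs_div, abs_of_pos hd0]
    refine (div_le_self (abs_nonneg _) hz).trans ?_
    exact abs_norm_sub_norm_le w w'
  refine ⟨?_, ?_⟩
  · rw [hfw, abs_mul]
    calc |v w| * |χ (‖w‖ / d)| ≤ Q * 1 :=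
          mul_le_mul (hval w hw) (hχ1 w) (abs_nonneg _) hQ0
      _ ≤ (1 + L) * Q := by nlinarith
  · rw [hfw, hfw]
    have e : v w * χ (‖w‖ / d) - v w' * χ (‖w'‖ / d) =
        (v w - v w') * χ (‖w‖ / d) + v w' * (χ (‖w‖ / d) - χ (‖w'‖ / d)) := by ring
    rw [e]
    refine (abs_add_le _ _).trans ?_
    rw [abs_mul, abs_mul]
    have h3 : |v w - v w'| * |χ (‖w‖ / d)| ≤ Q * ‖w - w'‖ * 1 :=
      mul_le_mul hdif (hχ1 w) (abs_nonneg _) (by positivity)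
    have h4 : |v w'| * |χ (‖w‖ / d) - χ (‖w'‖ / d)| ≤ Q * (L * ‖w - w'‖) :=
      mul_le_mul (hval w' hw') hχ2 (abs_nonneg _) hQ0
    calc _ ≤ Q * ‖w - w'‖ * 1 + Q * (L * ‖w - w'‖) := add_le_add h3 h4
      _ = (1 + L) * Q * ‖w - w'‖ := by ring

/-- points near the frontier -/
theorem near (Ω : Set ℂ) (hΩ : IsOpen Ω) (hne : Ω.Nonempty) (hb : Bornology.IsBounded Ω)
    (lam : ℕ → ℝ) (hlam : Tendsto lam atTop atTop) (δ : ℝ≥0∞) (hδ : 0 < δ) :
    ∀ᶠ j in atTop, volume {z | z ∈ Ω ∧ √(lam j) * Metric.infDist z (frontier Ω) < 1} ≤ δ := by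
  have hfr : (frontier Ω).Nonempty := by
    rw [nonempty_frontier_iff]
    refine ⟨hne, ?_⟩
    rintro rfl
    exact NormedSpace.unbounded_univ ℝ ℂ hb
  have hdist : ∀ z ∈ Ω, 0 < Metric.infDist z (frontier Ω) := by
    intro z hz
    refine (isClosed_frontier.notMem_iff_infDist_pos hfr).1 ?_
    rw [hΩ.frontier_eq]
    exact fun h => h.2 hz
  set s : ℕ → Set ℂ := fun m => Ω ∩ {z | ((m : ℝ) + 1) * Metric.infDist z (frontier Ω) < 1} with hs
  have hsm : ∀ m, MeasurableSet (s m) := fun m => hΩ.measurableSet.inter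
    (measurableSet_lt (measurable_const.mul
      (Metric.continuous_infDist_pt (frontier Ω)).measurable) measurable_const)
  have hanti : Antitone s := by
    intro m n hmn z hz
    refine ⟨hz.1, ?_⟩
    have h1 : ((n : ℝ) + 1) * Metric.infDist z (frontier Ω) < 1 := hz.2
    have h2 : (m : ℝ) ≤ n := by exact_mod_cast hmn
    have h3 : ((m : ℝ) + 1) * Metric.infDist z (frontier Ω) ≤
        ((n : ℝ) + 1) * Metric.infDist z (frontier Ω) :=
      mul_le_mul_of_nonneg_right (by linarith) Metric.infDist_nonneg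
    exact lt_of_le_of_lt h3 h1
  have hempty : ⋂ m, s m = ∅ := by
    rw [Set.eq_empty_iff_forall_notMem]
    intro z hz
    rw [Set.mem_iInter] at hz
    have hd := hdist z (hz 0).1
    obtain ⟨m, hm⟩ := exists_nat_gt (1 / Metric.infDist z (frontier Ω))
    rw [div_lt_iff₀ hd] at hm
    have h1 : ((m : ℝ) + 1) * Metric.infDist z (frontier Ω) < 1 := (hz m).2
    linarith
  have hlim := tendsto_measure_iInter_atTop (μ := volume) (fun m => (hsm m).nullMeasurableSet) hanti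
    ⟨0, ((measure_mono Set.inter_subset_left).trans_lt hb.measure_lt_top).ne⟩
  rw [hempty, measure_empty] at hlim
  obtain ⟨m, hm⟩ := (hlim.eventually (gt_mem_nhds hδ)).exists
  have hsq : Tendsto (fun j => √(lam j)) atTop atTop := Real.tendsto_sqrt_atTop.comp hlam
  filter_upwards [hsq.eventually_ge_atTop ((m : ℝ) + 1)] with j hj
  refine (measure_mono fun z hz => ?_).trans hm.le
  refine ⟨hz.1, ?_⟩
  have h3 : ((m : ℝ) + 1) * Metric.infDist z (frontier Ω) ≤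
      √(lam j) * Metric.infDist z (frontier Ω) :=
    mul_le_mul_of_nonneg_right hj Metric.infDist_nonneg
  exact lt_of_le_of_lt h3 hz.2

theorem tgt (h2 : S_W2) (h7 : S_W7) (hkp : 0 < kp) (χ : ℝ → ℝ) (hχ : IsCutoff χ) (Ω : Set ℂ)
    (hΩ : IsOpen Ω) (hne : Ω.Nonempty) (hb : Bornology.IsBounded Ω) (lam : ℕ → ℝ)
    (hlam : Tendsto lam atTop atTop) (u : ℕ → ℂ → ℝ) (hc : ∀ j, Continuous (u j))
    (hmv : ∀ j, 0 < lam j → ∀ z, kp * u j z = ∫ y : ℂ, T0 y * u j (z + y / ((√(lam j) : ℝ) : ℂ)))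
    (B : ℝ) (hB : 0 ≤ B) (hw : ∀ᶠ j in atTop, ∀ c : ℂ, ∫ z in Ω, u j (z + c) ^ 2 ≤ B)
    (g : ℕ → ℂ → C(ℂ, ℝ)) (hg : ∀ j z w, g j z w = resc χ Ω (lam j) (u j) z w) (ε : ℝ≥0∞)
    (hε : 0 < ε) : ∃ M : ℕ → ℝ, ∀ᶠ j in atTop, volume {z | z ∈ Ω ∧ g j z ∉ Kc M} ≤ ε := by
  obtain ⟨L, hL, hLχ⟩ := h7 χ hχ
  have hε2 : ε / 2 ≠ 0 := (ENNReal.half_pos hε.ne').ne'
  obtain ⟨δ, hδ0, hδ⟩ := ENNReal.exists_pos_sum_of_countable hε2 ℕ
  set T : ℕ → ℝ := fun R =>
    (B * volume.real (Metric.closedBall (0 : ℂ) ((R : ℝ) + 1)) + 1) / (δ R : ℝ) with hT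
  obtain ⟨M, hM⟩ := mem_Kc h2 hkp L hL χ hχ hLχ T
  refine ⟨M, ?_⟩
  filter_upwards [near Ω hΩ hne hb lam hlam (ε / 2) (ENNReal.half_pos hε.ne'), hw,
    hlam.eventually_gt_atTop 0] with j h1 h3 h4
  have hsub : {z | z ∈ Ω ∧ g j z ∉ Kc M} ⊆
      {z | z ∈ Ω ∧ √(lam j) * Metric.infDist z (frontier Ω) < 1} ∪
      ⋃ R, {z | z ∈ Ω ∧ T R ≤ VR (lam j) (u j) R z} := by
    intro z hz
    by_contra hcon
    rw [Set.mem_union, not_or, Set.mem_iUnion, not_exists] at hcon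
    obtain ⟨c1, c2⟩ := hcon
    refine hz.2 (hM Ω (lam j) h4 (u j) (hc j) (hmv j h4) z ?_ (fun R => ?_) (g j z) (hg j z))
    · by_contra hc1
      exact c1 ⟨hz.1, not_le.1 hc1⟩
    · by_contra hc2
      exact c2 R ⟨hz.1, not_lt.1 hc2⟩
  have h5 : volume (⋃ R, {z | z ∈ Ω ∧ T R ≤ VR (lam j) (u j) R z}) ≤ ε / 2 := by
    refine (measure_iUnion_le _).trans (le_trans (ENNReal.tsum_le_tsum fun R => ?_) hδ.le)
    refine (markov (lam j) (u j) (hc j) Ω hΩ hb R B hB h3 (δ R) (hδ0 R)).trans (le_of_eq ?_)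
    rw [ENNReal.ofReal_coe_nnreal]
  calc volume {z | z ∈ Ω ∧ g j z ∉ Kc M} ≤ ε / 2 + ε / 2 :=
        (measure_mono hsub).trans ((measure_union_le _ _).trans (add_le_add h1 h5))
    _ = ε := ENNReal.add_halves ε

end

end Pool.Agent.Zk91.SQ
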