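import Pool.Agent.Zk91.SQ.Defs8
import Pool.Agent.Zk60.BW.Fin

/-!
# The law of the random wave is concentrated on `MW`: module V2
-/

set_option autoImplicit false

open MeasureTheory Filter Topology ProbabilityTheory
open scoped ContDiff

namespace Pool.Agent.Zk91.SQ

open Pool.Agent.N661.BR (J0)
open Pool.Agent.Zk60.BW (QQ QQ_nonneg)

noncomputable section

theorem J0_zero1 : J0 0 = 1 := by
  unfold J0
  simp only [zero_mul, Real.cos_zero, intervalIntegral.integral_const, sub_zero, smul_eq_mul,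
    mul_one]
  have := Real.pi_ne_zero
  field_simp

/-- the finite-dimensional laws of the random wave -/
def GLaw (μ : Measure C(ℂ, ℝ)) : Prop :=
  ∀ (k : ℕ) (w : Fin k → ℂ) (t : Fin k → ℝ), μ.map (fun f => ∑ i, t i * f (w i)) =
    gaussianReal 0 (∑ i, ∑ j, t i * t j * J0 ‖w i - w j‖).toNNReal

variable {μ : Measure C(ℂ, ℝ)}

theorem gl_sq (hg : GLaw μ) {k : ℕ} (w : Fin k → ℂ) (t : Fin k → ℝ) :
    Integrable (fun f : C(ℂ, ℝ) => (∑ i, t i * f (w i)) ^ 2) μ ∧
      ∫ f : C(ℂ, ℝ), (∑ i, t i * f (w i)) ^ 2 ∂μ = QQ w t := by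
  have hm : Measurable (fun f : C(ℂ, ℝ) => ∑ i, t i * f (w i)) :=
    (continuous_finsetSum _ fun i _ =>
      continuous_const.mul (ContinuousEvalConst.continuous_eval_const (w i))).measurable
  have h1 := hg k w t
  have hL : MemLp id 2 (gaussianReal 0 (QQ w t).toNNReal) := memLp_id_gaussianReal 2
  constructor
  · have h2 := hL.integrable_sq
    unfold QQ at h2
    rw [← h1] at h2
    exact h2.comp_measurable hm
  · have e : ∫ f : C(ℂ, ℝ), (∑ i, t i * f (w i)) ^ 2 ∂μ =
        ∫ x, x ^ 2 ∂(μ.map (fun f : C(ℂ, ℝ) => ∑ i, t i * f (w i))) :=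
      (integral_map hm.aemeasurable ((continuous_pow 2).aestronglyMeasurable)).symm
    rw [e, h1]
    have h3 := variance_fun_id_gaussianReal (μ := 0) (v := (QQ w t).toNNReal)
    rw [variance_of_integral_eq_zero (by fun_prop) integral_id_gaussianReal,
      Real.coe_toNNReal _ (QQ_nonneg w t)] at h3
    exact h3

theorem gl_one (hg : GLaw μ) (x : ℂ) :
    Integrable (fun f : C(ℂ, ℝ) => f x ^ 2) μ ∧ ∫ f : C(ℂ, ℝ), f x ^ 2 ∂μ = 1 := by
  have h := gl_sq hg ![x] ![1]
  simpa [QQ, J0_zero1] using h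

theorem gl_two (hg : GLaw μ) (x y : ℂ) :
    Integrable (fun f : C(ℂ, ℝ) => f x * f y) μ ∧ ∫ f : C(ℂ, ℝ), f x * f y ∂μ = J0 ‖x - y‖ := by
  have h := gl_sq hg ![x, y] ![1, 1]
  have hx := gl_one hg x
  have hy := gl_one hg y
  simp only [QQ, Fin.sum_univ_two, Matrix.cons_val_zero, Matrix.cons_val_one, one_mul,
    sub_self, norm_zero, J0_zero1, norm_sub_rev y x] at h
  have e : (fun f : C(ℂ, ℝ) => f x * f y) =
      fun f : C(ℂ, ℝ) => 1 / 2 * ((f x + f y) ^ 2 - f x ^ 2 - f y ^ 2) := by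
    funext f
    ring
  have hi := ((h.1.sub hx.1).sub hy.1).const_mul (1 / 2)
  refine ⟨by rw [e]; exact hi, ?_⟩
  have e2 : ∫ f : C(ℂ, ℝ), ((f x + f y) ^ 2 - f x ^ 2 - f y ^ 2) ∂μ =
      (1 + J0 ‖x - y‖ + (J0 ‖x - y‖ + 1)) - 1 - 1 := by
    rw [integral_sub (f := fun f : C(ℂ, ℝ) => (f x + f y) ^ 2 - f x ^ 2) (h.1.sub hx.1) hy.1,
      integral_sub h.1 hx.1, h.2, hx.2, hy.2]
  rw [e, integral_const_mul, e2]
  ring

theorem gl_G (hμ : IsProbabilityMeasure μ) (hg : GLaw μ) {Y : Type} [MeasurableSpace Y]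
    (ν : Measure Y) [SFinite ν] (k : Y → ℝ) (hk : Measurable k) (hki : Integrable k ν)
    (p q : Y → ℂ) (hp : Measurable p) (hq : Measurable q) :
    Integrable (fun z : C(ℂ, ℝ) × Y => k z.2 * (z.1 (p z.2) * z.1 (q z.2))) (μ.prod ν) ∧
    Integrable (fun y => k y * J0 ‖p y - q y‖) ν ∧
    ∫ f : C(ℂ, ℝ), ∫ y, k y * (f (p y) * f (q y)) ∂ν ∂μ = ∫ y, k y * J0 ‖p y - q y‖ ∂ν := by
  have hev : Measurable (fun z : C(ℂ, ℝ) × ℂ => z.1 z.2) :=
    (ContinuousEval.continuous_eval (F := C(ℂ, ℝ))).measurable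
  have m1 : Measurable (fun z : C(ℂ, ℝ) × Y => z.1 (p z.2)) :=
    hev.comp (measurable_fst.prodMk (hp.comp measurable_snd))
  have m2 : Measurable (fun z : C(ℂ, ℝ) × Y => z.1 (q z.2)) :=
    hev.comp (measurable_fst.prodMk (hq.comp measurable_snd))
  have m3 : Measurable (fun z : C(ℂ, ℝ) × Y => k z.2 * (z.1 (p z.2) * z.1 (q z.2))) :=
    (hk.comp measurable_snd).mul (m1.mul m2)
  have hI : Integrable (fun z : C(ℂ, ℝ) × Y => k z.2 * (z.1 (p z.2) * z.1 (q z.2)))
      (μ.prod ν) := by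
    rw [integrable_prod_iff' m3.aestronglyMeasurable]
    refine ⟨Filter.Eventually.of_forall fun y => (gl_two hg (p y) (q y)).1.const_mul (k y), ?_⟩
    refine Integrable.mono' hki.norm
      (m3.stronglyMeasurable.norm.integral_prod_left').aestronglyMeasurable
      (Filter.Eventually.of_forall fun y => ?_)
    have h0 : 0 ≤ ∫ f : C(ℂ, ℝ), ‖k y * (f (p y) * f (q y))‖ ∂μ :=
      integral_nonneg fun f => norm_nonneg _
    rw [Real.norm_of_nonneg h0]
    have hx := gl_one hg (p y)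
    have hy := gl_one hg (q y)
    have hb : ∫ f : C(ℂ, ℝ), ‖k y * (f (p y) * f (q y))‖ ∂μ ≤
        ∫ f : C(ℂ, ℝ), ‖k y‖ * (1 / 2 * (f (p y) ^ 2 + f (q y) ^ 2)) ∂μ := by
      refine integral_mono ((gl_two hg (p y) (q y)).1.const_mul (k y)).norm
        (((hx.1.add hy.1).const_mul _).const_mul _) fun f => ?_
      simp only [norm_mul]
      refine mul_le_mul_of_nonneg_left ?_ (norm_nonneg _)
      rw [Real.norm_eq_abs, Real.norm_eq_abs]
      nlinarith [sq_nonneg (|f (p y)| - |f (q y)|), sq_abs (f (p y)), sq_abs (f (q y))]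
    rw [integral_const_mul, integral_const_mul, integral_add hx.1 hy.1, hx.2, hy.2] at hb
    linarith
  have e : ∀ y, ∫ f : C(ℂ, ℝ), k y * (f (p y) * f (q y)) ∂μ = k y * J0 ‖p y - q y‖ := by
    intro y
    rw [integral_const_mul, (gl_two hg (p y) (q y)).2]
  refine ⟨hI, ?_, ?_⟩
  · have := hI.integral_prod_right
    refine this.congr (Filter.Eventually.of_forall fun y => ?_)
    exact e y
  · rw [integral_integral_swap (f := fun (f : C(ℂ, ℝ)) (y : Y) => k y * (f (p y) * f (q y))) hI]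
    exact integral_congr_ae (Filter.Eventually.of_forall e)

theorem v2' : S_V2 := by
  intro μ hμ hg K c hK hc hJ
  have hg : GLaw μ := hg
  have hKi : Integrable K := hK.integrable_of_hasCompactSupport hc
  have key : ∀ w : ℂ, ∀ᵐ f ∂μ, ∫ y : ℂ, K y * f (w - y) = c * f w := by
    intro w
    obtain ⟨a1, a2, a3⟩ := gl_G hμ hg (volume : Measure ℂ) K hK.measurable hKi
      (fun y => w - y) (fun _ => w) (measurable_const.sub measurable_id) measurable_const
    obtain ⟨b1, b2, b3⟩ := gl_G hμ hg ((volume : Measure ℂ).prod (volume : Measure ℂ))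
      (fun z => K z.1 * K z.2) ((hK.measurable.comp measurable_fst).mul
        (hK.measurable.comp measurable_snd)) (hKi.mul_prod hKi)
      (fun z => w - z.1) (fun z => w - z.2) (measurable_const.sub measurable_fst)
      (measurable_const.sub measurable_snd)
    have A1 := a1.integral_prod_left
    have B1 := b1.integral_prod_left
    have eA : (fun f : C(ℂ, ℝ) => ∫ y : ℂ, K y * (f (w - y) * f w)) =
        fun f : C(ℂ, ℝ) => (∫ y : ℂ, K y * f (w - y)) * f w := by
      funext f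
      rw [← integral_mul_const]
      refine integral_congr_ae (Filter.Eventually.of_forall fun y => ?_)
      simp only
      ring
    have eB : (fun f : C(ℂ, ℝ) => ∫ z : ℂ × ℂ, K z.1 * K z.2 * (f (w - z.1) * f (w - z.2))
          ∂((volume : Measure ℂ).prod (volume : Measure ℂ))) =
        fun f : C(ℂ, ℝ) => (∫ y : ℂ, K y * f (w - y)) ^ 2 := by
      funext f
      rw [sq, ← integral_prod_mul]
      refine integral_congr_ae (Filter.Eventually.of_forall fun z => ?_)
      simp only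
      ring
    simp only at A1 B1 a3 b3 a2 b2
    rw [eA] at A1
    rw [eB] at B1
    rw [show (∫ f : C(ℂ, ℝ), (∫ y : ℂ, K y * (f (w - y) * f w)) ∂μ) =
      ∫ f : C(ℂ, ℝ), (∫ y : ℂ, K y * f (w - y)) * f w ∂μ from by
        rw [← eA]] at a3
    rw [show (∫ f : C(ℂ, ℝ), (∫ z : ℂ × ℂ, K z.1 * K z.2 * (f (w - z.1) * f (w - z.2))
          ∂((volume : Measure ℂ).prod (volume : Measure ℂ))) ∂μ) =
      ∫ f : C(ℂ, ℝ), (∫ y : ℂ, K y * f (w - y)) ^ 2 ∂μ from by rw [← eB]] at b3
    have hJ0 := hJ 0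
    rw [norm_zero, J0_zero1, mul_one] at hJ0
    have vA : ∫ y : ℂ, K y * J0 ‖w - y - w‖ = c := by
      rw [← hJ0]
      refine integral_congr_ae (Filter.Eventually.of_forall fun y => ?_)
      simp only
      rw [show w - y - w = 0 - y by ring]
    have vB : ∫ z : ℂ × ℂ, K z.1 * K z.2 * J0 ‖w - z.1 - (w - z.2)‖
        ∂((volume : Measure ℂ).prod (volume : Measure ℂ)) = c * c := by
      rw [integral_prod _ b2]
      have h1 : ∀ x : ℂ, ∫ y : ℂ, K x * K y * J0 ‖w - x - (w - y)‖ =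
          c * (K x * J0 ‖0 - x‖) := by
        intro x
        have h2 : ∀ y : ℂ, K x * K y * J0 ‖w - x - (w - y)‖ = K x * (K y * J0 ‖x - y‖) := by
          intro y
          rw [show w - x - (w - y) = -(x - y) by ring, norm_neg]
          ring
        simp only [h2]
        rw [integral_const_mul, hJ x, zero_sub, norm_neg]
        ring
      simp only [h1]
      rw [integral_const_mul, hJ0]
    rw [vA] at a3
    rw [vB] at b3
    obtain ⟨c1, c2⟩ := gl_one hg w
    have hint : Integrable (fun f : C(ℂ, ℝ) => ((∫ y : ℂ, K y * f (w - y)) - c * f w) ^ 2) μ := by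
      have h1 := (B1.sub (A1.const_mul (2 * c))).add (c1.const_mul (c ^ 2))
      refine h1.congr (Filter.Eventually.of_forall fun f => ?_)
      simp only [Pi.add_apply, Pi.sub_apply]
      ring
    have hzero : ∫ f : C(ℂ, ℝ), ((∫ y : ℂ, K y * f (w - y)) - c * f w) ^ 2 ∂μ = 0 := by
      have h1 : ∫ f : C(ℂ, ℝ), ((∫ y : ℂ, K y * f (w - y)) - c * f w) ^ 2 ∂μ =
          ∫ f : C(ℂ, ℝ), ((∫ y : ℂ, K y * f (w - y)) ^ 2 -
            2 * c * ((∫ y : ℂ, K y * f (w - y)) * f w) + c ^ 2 * f w ^ 2) ∂μ := by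
        refine integral_congr_ae (Filter.Eventually.of_forall fun f => ?_)
        simp only
        ring
      rw [h1, integral_add (f := fun f : C(ℂ, ℝ) => (∫ y : ℂ, K y * f (w - y)) ^ 2 -
          2 * c * ((∫ y : ℂ, K y * f (w - y)) * f w))
          (B1.sub (A1.const_mul (2 * c))) (c1.const_mul (c ^ 2)),
        integral_sub B1 (A1.const_mul (2 * c)), integral_const_mul, integral_const_mul, a3, b3, c2]
      ring
    have h0 := (integral_eq_zero_iff_of_nonneg (fun f => sq_nonneg _) hint).1 hzero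
    filter_upwards [h0] with f hf
    have h2 : (∫ y : ℂ, K y * f (w - y)) - c * f w = 0 := by
      simpa using hf
    linarith
  have h1 : ∀ᵐ f ∂μ, ∀ n : ℕ, ∫ y : ℂ, K y * f (TopologicalSpace.denseSeq ℂ n - y) = c * f (TopologicalSpace.denseSeq ℂ n) :=
    ae_all_iff.2 fun n => key _
  filter_upwards [h1] with f hf
  have c1 : Continuous (fun w : ℂ => ∫ y : ℂ, K y * f (w - y)) := by
    have := hc.continuous_convolution_left (ContinuousLinearMap.mul ℝ ℝ) hK
      (f.continuous.locallyIntegrable (μ := (volume : Measure ℂ)))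
    exact this
  have c2 : Continuous (fun w : ℂ => c * f w) := continuous_const.mul f.continuous
  have h2 := Continuous.ext_on (TopologicalSpace.denseRange_denseSeq ℂ) c1 c2 (by
    rintro _ ⟨n, rfl⟩
    exact hf n)
  exact fun w => congrFun h2 w

end

end Pool.Agent.Zk91.SQ
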